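import Pool.Agent.H306R2.RZ.Defs2

set_option autoImplicit false

namespace Pool.Agent.H692R2.RZ2ES2

open Finset Filter Topology MeasureTheory Pool.Agent.H306R2.RZ

noncomputable section

theorem js_sq (a : ℕ) (d n : ℕ) :
    js (8 * ((a ^ 2 * d : ℕ) : ℤ)) n = js (8 * (d : ℤ)) n * (js (a : ℤ) n) ^ 2 := by
  unfold js
  have h : (8 * ((a ^ 2 * d : ℕ) : ℤ)) = (8 * (d : ℤ)) * ((a : ℤ) * (a : ℤ)) := by
    push_cast
    ring
  rw [h, jacobiSym.mul_left, jacobiSym.mul_left (a : ℤ) (a : ℤ)]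
  push_cast
  ring

theorem js_one {a n : ℕ} (h : Nat.Coprime n a) : (js (a : ℤ) n) ^ 2 = 1 := by
  unfold js
  have h1 : (a : ℤ).gcd n = 1 := by
    rw [Int.gcd_natCast_natCast]
    exact h.symm
  have h2 := jacobiSym.sq_one h1
  exact_mod_cast h2

theorem js_zero {a n : ℕ} (hn : n ≠ 0) (h : ¬ Nat.Coprime n a) : js (a : ℤ) n = 0 := by
  unfold js
  have h1 : jacobiSym (a : ℤ) n = 0 := by
    rw [jacobiSym.eq_zero_iff]
    refine ⟨hn, fun h2 => h ?_⟩
    rw [Int.gcd_natCast_natCast] at h2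
    exact Nat.Coprime.symm h2
  rw [h1, Int.cast_zero]

theorem cop_iff {a n : ℕ} : Nat.Coprime n (2 * a) ↔ Nat.Coprime n 2 ∧ Nat.Coprime n a :=
  Nat.coprime_mul_iff_right

theorem ne_zero_of_cop {n : ℕ} (h : Nat.Coprime n 2) : n ≠ 0 := by
  rintro rfl
  simp at h

theorem ES2 (a : ℕ) (ha : Odd a) (L : ℝ) (w : ℝ → ℝ) (d : ℕ) :
    Nd 2 L w (a ^ 2 * d) = Nd (2 * a) L w d ∧ Md 2 L w (a ^ 2 * d) = Md (2 * a) L w d := by
  clear ha
  constructor
  · unfold Nd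
    refine tsum_congr fun n => ?_
    by_cases h2 : Nat.Coprime n 2
    · rw [if_pos h2, js_sq]
      by_cases h3 : Nat.Coprime n a
      · rw [if_pos (cop_iff.mpr ⟨h2, h3⟩), js_one h3, mul_one]
      · rw [if_neg (fun h => h3 (cop_iff.mp h).2), js_zero (ne_zero_of_cop h2) h3]
        ring
    · rw [if_neg h2, if_neg (fun h => h2 (cop_iff.mp h).1)]
  · unfold Md
    refine tsum_congr fun n => ?_
    by_cases h2 : Nat.Coprime n 2
    · rw [if_pos h2, js_sq]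
      by_cases h3 : Nat.Coprime n a
      · rw [if_pos (cop_iff.mpr ⟨h2, h3⟩), js_one h3, mul_one]
      · rw [if_neg (fun h => h3 (cop_iff.mp h).2), js_zero (ne_zero_of_cop h2) h3]
        ring
    · rw [if_neg h2, if_neg (fun h => h2 (cop_iff.mp h).1)]

end

end Pool.Agent.H692R2.RZ2ES2
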