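import Pool.Agent.NPC.Sat

/-!
# Graph `k`-colourability is NP-hard for every `k ≥ 3`

Graphs are given by lists of edges over `ℕ`.
-/

namespace Pool.Agent.H692R2

open Pool.Agent.NPC

/-- `k`-colourability of the graph with the given list of edges. -/
def Col (k : ℕ) (E : List (ℕ × ℕ)) : Prop := ∃ c : ℕ → Fin k, ∀ e ∈ E, c e.1 ≠ c e.2

/-- No loops. -/
def Loopless (E : List (ℕ × ℕ)) : Prop := ∀ e ∈ E, e.1 ≠ e.2

/-- The vertex of a literal. -/
def litv (l : Lit ℕ) : ℕ := 8 * l.2 + (if l.1 = true then 1 else 2)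

/-- The edges of a variable gadget. -/
def varE (x : ℕ) : List (ℕ × ℕ) := [(8 * x + 1, 8 * x + 2), (8 * x + 1, 16), (8 * x + 2, 16)]

/-- The edges of a clause gadget. -/
def clauseE (c : Lit ℕ × Lit ℕ × Lit ℕ) (e : ℕ) : List (ℕ × ℕ) :=
  [(8 * e + 3, litv c.1), (8 * e + 4, litv c.2.1), (8 * e + 3, 8 * e + 4),
    (8 * e + 5, 8 * e + 3), (8 * e + 5, 8 * e + 4), (8 * e + 6, 8 * e + 5),
    (8 * e + 7, litv c.2.2), (8 * e + 6, 8 * e + 7), (8 * e + 6, 0), (8 * e + 7, 0)]

/-- The reduction from 3SAT to 3-colourability. -/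
def satCol (φ : List (Lit ℕ × Lit ℕ × Lit ℕ)) : List (ℕ × ℕ) :=
  [(0, 8), (8, 16), (0, 16)] ++ φ.zipIdx.flatMap (fun p =>
    varE p.1.1.2 ++ (varE p.1.2.1.2 ++ (varE p.1.2.2.2 ++ clauseE p.1 p.2)))

theorem litv_poly {α : Type} [TEnc α] {l : α → Lit ℕ} (hl : Poly l) :
    Poly (fun a => litv (l a)) := by
  unfold litv
  exact Poly.add (Poly.mul (NPC.Poly.const 8) (Poly.snd hl))
    (Poly.ite (p := fun a => (l a).1 = true) (Poly.decide_bool (Poly.fst hl)) (NPC.Poly.const 1)
      (NPC.Poly.const 2))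

theorem satCol_poly : Poly satCol := by
  unfold satCol
  refine Poly.append (NPC.Poly.const _) (Poly.flatMap (Poly.zipIdx Poly.id) ?_)
  have hc : Poly (fun p : List (Lit ℕ × Lit ℕ × Lit ℕ) × ((Lit ℕ × Lit ℕ × Lit ℕ) × ℕ) => p.2.1) :=
    Poly.fst (Poly.snd Poly.id)
  have he : Poly (fun p : List (Lit ℕ × Lit ℕ × Lit ℕ) × ((Lit ℕ × Lit ℕ × Lit ℕ) × ℕ) => p.2.2) :=
    Poly.snd (Poly.snd Poly.id)
  have hv : ∀ {f : List (Lit ℕ × Lit ℕ × Lit ℕ) × ((Lit ℕ × Lit ℕ × Lit ℕ) × ℕ) → ℕ},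
      Poly f → Poly (fun p => varE (f p)) := by
    intro f hf
    unfold varE
    have h1 := Poly.add (Poly.mul (NPC.Poly.const 8) hf) (NPC.Poly.const 1)
    have h2 := Poly.add (Poly.mul (NPC.Poly.const 8) hf) (NPC.Poly.const 2)
    exact Poly.cons (Poly.pair h1 h2) (Poly.cons (Poly.pair h1 (NPC.Poly.const _))
      (Poly.cons (Poly.pair h2 (NPC.Poly.const _)) (NPC.Poly.const [])))
  refine Poly.append (hv (Poly.snd (Poly.fst hc))) (Poly.append
    (hv (Poly.snd (Poly.fst (Poly.snd hc)))) (Poly.append (hv (Poly.snd (Poly.snd (Poly.snd hc))))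
    ?_))
  unfold clauseE
  have hk : ∀ k : ℕ, Poly (fun p : List (Lit ℕ × Lit ℕ × Lit ℕ) ×
      ((Lit ℕ × Lit ℕ × Lit ℕ) × ℕ) => 8 * p.2.2 + k) := fun k =>
    Poly.add (Poly.mul (NPC.Poly.const 8) he) (NPC.Poly.const k)
  refine Poly.cons (Poly.pair (hk 3) (litv_poly (Poly.fst hc))) (Poly.cons
    (Poly.pair (hk 4) (litv_poly (Poly.fst (Poly.snd hc)))) (Poly.cons (Poly.pair (hk 3) (hk 4))
    (Poly.cons (Poly.pair (hk 5) (hk 3)) (Poly.cons (Poly.pair (hk 5) (hk 4))
    (Poly.cons (Poly.pair (hk 6) (hk 5)) (Poly.cons (Poly.pair (hk 7)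
    (litv_poly (Poly.snd (Poly.snd hc)))) (Poly.cons (Poly.pair (hk 6) (hk 7))
    (Poly.cons (Poly.pair (hk 6) (NPC.Poly.const 0)) (Poly.cons (Poly.pair (hk 7) (NPC.Poly.const 0))
    (NPC.Poly.const []))))))))))

theorem satCol_loopless (φ : List (Lit ℕ × Lit ℕ × Lit ℕ)) : Loopless (satCol φ) := by
  intro e he
  unfold satCol varE clauseE litv at he
  simp only [List.mem_append, List.mem_flatMap, List.mem_cons, List.not_mem_nil, or_false] at he
  rcases he with (rfl | rfl | rfl) | ⟨p, _, (rfl | rfl | rfl) | (rfl | rfl | rfl) |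
    (rfl | rfl | rfl) | (rfl | rfl | rfl | rfl | rfl | rfl | rfl | rfl | rfl | rfl)⟩ <;>
    simp only [ne_eq] <;> first | omega | (split_ifs <;> omega)

/-- The colour of a gadget vertex. -/
def gad (j : ℕ) (a b c : Bool) : Fin 3 :=
  if j = 3 then (if a then 1 else if b then 2 else 0)
  else if j = 4 then (if a then 2 else if b then 1 else 2)
  else if j = 5 then (if a || b then 0 else 1)
  else if j = 6 then (if c then 2 else 1)
  else (if c then 1 else 2)

theorem gad_ok (a b c : Bool) (h : a = true ∨ b = true ∨ c = true) :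
    gad 3 a b c ≠ (if a then 0 else 1) ∧ gad 4 a b c ≠ (if b then 0 else 1) ∧
    gad 3 a b c ≠ gad 4 a b c ∧ gad 5 a b c ≠ gad 3 a b c ∧ gad 5 a b c ≠ gad 4 a b c ∧
    gad 6 a b c ≠ gad 5 a b c ∧ gad 7 a b c ≠ (if c then 0 else 1) ∧
    gad 6 a b c ≠ gad 7 a b c ∧ gad 6 a b c ≠ 0 ∧ gad 7 a b c ≠ 0 := by
  revert a b c
  decide

set_option synthInstance.maxSize 4000 in
theorem gad_conv : ∀ T F B p q o p' q' : Fin 3, T ≠ F → F ≠ B → T ≠ B → p ≠ F → q ≠ F →
    p ≠ q → o ≠ p → o ≠ q → p' ≠ o → q' ≠ F → p' ≠ q' → p' ≠ T → q' ≠ T → False := by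
  decide +kernel

set_option synthInstance.maxSize 4000 in
theorem tri3 : ∀ T F B y : Fin 3, T ≠ F → F ≠ B → T ≠ B → y ≠ T → y ≠ B → y = F := by decide

/-- The colouring given by a satisfying assignment. -/
def satC (φ : List (Lit ℕ × Lit ℕ × Lit ℕ)) (τ : ℕ → Bool) (n : ℕ) : Fin 3 :=
  if n % 8 = 0 then (if n / 8 = 0 then 0 else if n / 8 = 1 then 1 else 2)
  else if n % 8 = 1 then (if τ (n / 8) = true then 0 else 1)
  else if n % 8 = 2 then (if τ (n / 8) = true then 1 else 0)
  else match φ[n / 8]? with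
    | none => 0
    | some c => gad (n % 8) (τ c.1.2 == c.1.1) (τ c.2.1.2 == c.2.1.1) (τ c.2.2.2 == c.2.2.1)

theorem satC_lit (φ : List (Lit ℕ × Lit ℕ × Lit ℕ)) (τ : ℕ → Bool) (l : Lit ℕ) :
    satC φ τ (litv l) = if (τ l.2 == l.1) then 0 else 1 := by
  obtain ⟨b, x⟩ := l
  unfold satC litv
  cases b
  · have h1 : (8 * x + 2) % 8 = 2 := by omega
    have h2 : (8 * x + 2) / 8 = x := by omega
    simp only [Bool.false_eq_true, if_false, h1, h2]
    cases τ x <;> simp
  · have h1 : (8 * x + 1) % 8 = 1 := by omega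
    have h2 : (8 * x + 1) / 8 = x := by omega
    simp only [if_true, h1, h2]
    cases τ x <;> simp

theorem satC_gad (φ : List (Lit ℕ × Lit ℕ × Lit ℕ)) (τ : ℕ → Bool) (e : ℕ)
    (c : Lit ℕ × Lit ℕ × Lit ℕ) (hc : φ[e]? = some c) (j : ℕ) (h3 : 3 ≤ j) (h7 : j ≤ 7) :
    satC φ τ (8 * e + j) =
      gad j (τ c.1.2 == c.1.1) (τ c.2.1.2 == c.2.1.1) (τ c.2.2.2 == c.2.2.1) := by
  unfold satC
  have h1 : (8 * e + j) % 8 = j := by omega
  have h2 : (8 * e + j) / 8 = e := by omega
  rw [h1, h2, if_neg (by omega), if_neg (by omega), if_neg (by omega), hc]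

theorem satCol_correct (φ : List (Lit ℕ × Lit ℕ × Lit ℕ)) : SAT3 φ ↔ Col 3 (satCol φ) := by
  constructor
  · rintro ⟨τ, hτ⟩
    refine ⟨satC φ τ, fun e he => ?_⟩
    have p0 : satC φ τ 0 = 0 := by simp [satC]
    have p1 : satC φ τ 8 = 1 := by simp [satC]
    have p2 : satC φ τ 16 = 2 := by simp [satC]
    have v1 : ∀ x, satC φ τ (8 * x + 1) = if τ x = true then 0 else 1 := fun x => by
      have := satC_lit φ τ (true, x)
      simpa [litv] using this
    have v2 : ∀ x, satC φ τ (8 * x + 2) = if τ x = true then 1 else 0 := fun x => by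
      have := satC_lit φ τ (false, x)
      simp only [litv, Bool.false_eq_true, if_false] at this
      rw [this]
      cases τ x <;> simp
    have hv : ∀ x, ∀ e ∈ varE x, satC φ τ e.1 ≠ satC φ τ e.2 := by
      intro x e he
      simp only [varE, List.mem_cons, List.not_mem_nil, or_false] at he
      rcases he with rfl | rfl | rfl <;> simp only [v1, v2, p2] <;> cases τ x <;> simp
    unfold satCol at he
    simp only [List.mem_append, List.mem_flatMap] at he
    rcases he with he | ⟨p, hp, he⟩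
    · simp only [List.mem_cons, List.not_mem_nil, or_false] at he
      rcases he with rfl | rfl | rfl <;> simp [p0, p1, p2]
    · rcases he with he | he | he | he
      · exact hv _ e he
      · exact hv _ e he
      · exact hv _ e he
      · obtain ⟨c, i⟩ := p
        rw [List.mem_zipIdx_iff_getElem?] at hp
        simp only at hp he
        have hsat := hτ c (List.mem_of_getElem? hp)
        have hg := gad_ok (τ c.1.2 == c.1.1) (τ c.2.1.2 == c.2.1.1) (τ c.2.2.2 == c.2.2.1)
          (by simpa using hsat)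
        have hG := satC_gad φ τ i c hp
        unfold clauseE at he
        simp only [List.mem_cons, List.not_mem_nil, or_false] at he
        obtain ⟨g1, g2, g3, g4, g5, g6, g7, g8, g9, g10⟩ := hg
        rcases he with rfl | rfl | rfl | rfl | rfl | rfl | rfl | rfl | rfl | rfl <;>
          simp only [satC_lit, hG 3 (by omega) (by omega), hG 4 (by omega) (by omega),
            hG 5 (by omega) (by omega), hG 6 (by omega) (by omega), hG 7 (by omega) (by omega),
            p0]
        · exact g1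
        · exact g2
        · exact g3
        · exact g4
        · exact g5
        · exact g6
        · exact g7
        · exact g8
        · exact g9
        · exact g10
  · rintro ⟨c, hc⟩
    refine ⟨fun x => decide (c (8 * x + 1) = c 0), fun cl hcl => ?_⟩
    obtain ⟨i, hi, hicl⟩ := List.getElem_of_mem hcl
    have hp : (cl, i) ∈ φ.zipIdx := by
      rw [List.mem_zipIdx_iff_getElem?]
      simp only
      rw [List.getElem?_eq_getElem hi, hicl]
    have hmem : ∀ e ∈ varE cl.1.2 ++ (varE cl.2.1.2 ++ (varE cl.2.2.2 ++ clauseE cl i)),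
        c e.1 ≠ c e.2 := fun e he => hc e (by
      unfold satCol
      exact List.mem_append_right _ (List.mem_flatMap.2 ⟨(cl, i), hp, he⟩))
    have e1 : c 0 ≠ c 8 := hc (0, 8) (by simp [satCol])
    have e2 : c 8 ≠ c 16 := hc (8, 16) (by simp [satCol])
    have e3 : c 0 ≠ c 16 := hc (0, 16) (by simp [satCol])
    have lit : ∀ l : Lit ℕ, (∀ e ∈ varE l.2, c e.1 ≠ c e.2) →
        ¬ (decide (c (8 * l.2 + 1) = c 0) = l.1) → c (litv l) = c 8 := by
      rintro ⟨b, x⟩ hx hb
      have x1 := hx (8 * x + 1, 8 * x + 2) (by simp [varE])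
      have x2 := hx (8 * x + 1, 16) (by simp [varE])
      have x3 := hx (8 * x + 2, 16) (by simp [varE])
      simp only at x1 x2 x3 hb
      have tri : ∀ T F B y : Fin 3, T ≠ F → F ≠ B → T ≠ B → y ≠ T → y ≠ B → y = F := tri3
      cases b
      · simp only [decide_eq_false_iff_not, not_not] at hb
        rw [hb] at x1
        have := tri _ _ _ _ e1 e2 e3 x1.symm x3
        simpa [litv] using this
      · simp only [decide_eq_true_eq] at hb
        have := tri _ _ _ _ e1 e2 e3 hb x2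
        simpa [litv] using this
    by_contra hno
    simp only [not_or] at hno
    obtain ⟨n1, n2, n3⟩ := hno
    have l1 := lit cl.1 (fun e he => hmem e (by simp [he])) n1
    have l2 := lit cl.2.1 (fun e he => hmem e (by simp [he])) n2
    have l3 := lit cl.2.2 (fun e he => hmem e (by simp [he])) n3
    have hm : ∀ e ∈ clauseE cl i, c e.1 ≠ c e.2 := fun e he => hmem e (by simp [he])
    unfold clauseE at hm
    simp only [List.mem_cons, List.not_mem_nil, or_false, forall_eq_or_imp, forall_eq, l1, l2,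
      l3] at hm
    obtain ⟨g1, g2, g3, g4, g5, g6, g7, g8, g9, g10⟩ := hm
    exact gad_conv _ _ _ _ _ _ _ _ e1 e2 e3 g1 g2 g3 g4 g5 g6 g7 g8 g9 g10

/-- 3-colourability of loopless graphs is hard. -/
theorem hardPr_col3 : HardPr Loopless (Col 3) :=
  (hardI_SAT3.toHardPr).trans satCol_poly (fun φ _ => satCol_loopless φ)
    (fun φ _ => satCol_correct φ)

/-- Adding a universal vertex. -/
def cone (E : List (ℕ × ℕ)) : List (ℕ × ℕ) :=
  E.flatMap (fun e => [(e.1 + 1, e.2 + 1), (e.1 + 1, 0), (e.2 + 1, 0)])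

theorem cone_poly : Poly cone := by
  unfold cone
  refine Poly.flatMap Poly.id ?_
  have h1 : Poly (fun p : List (ℕ × ℕ) × ℕ × ℕ => p.2.1 + 1) :=
    Poly.succ (Poly.fst (Poly.snd Poly.id))
  have h2 : Poly (fun p : List (ℕ × ℕ) × ℕ × ℕ => p.2.2 + 1) :=
    Poly.succ (Poly.snd (Poly.snd Poly.id))
  exact Poly.cons (Poly.pair h1 h2) (Poly.cons (Poly.pair h1 (NPC.Poly.const 0))
    (Poly.cons (Poly.pair h2 (NPC.Poly.const 0)) (NPC.Poly.const [])))

theorem cone_loopless {E : List (ℕ × ℕ)} (h : Loopless E) : Loopless (cone E) := by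
  intro e he
  simp only [cone, List.mem_flatMap, List.mem_cons, List.not_mem_nil, or_false] at he
  obtain ⟨p, hp, rfl | rfl | rfl⟩ := he
  · have := h p hp
    simpa using this
  · simp
  · simp

theorem cone_correct {k : ℕ} (hk : 0 < k) (E : List (ℕ × ℕ)) :
    Col k E ↔ Col (k + 1) (cone E) := by
  constructor
  · rintro ⟨c, hc⟩
    refine ⟨fun n => if n = 0 then Fin.last k else Fin.castSucc (c (n - 1)), fun e he => ?_⟩
    simp only [cone, List.mem_flatMap, List.mem_cons, List.not_mem_nil, or_false] at he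
    obtain ⟨p, hp, rfl | rfl | rfl⟩ := he
    · simpa using hc p hp
    · simp [Fin.ext_iff, (Fin.is_lt _).ne]
    · simp [Fin.ext_iff, (Fin.is_lt _).ne]
  · rintro ⟨c, hc⟩
    classical
    refine ⟨fun n => if h : c (n + 1) ≠ c 0 then (finSuccAboveEquiv (c 0)).symm ⟨_, h⟩
      else ⟨0, hk⟩, fun e he => ?_⟩
    have hm : ∀ e' ∈ [(e.1 + 1, e.2 + 1), (e.1 + 1, 0), (e.2 + 1, 0)], c e'.1 ≠ c e'.2 :=
      fun e' he' => hc e' (List.mem_flatMap.2 ⟨e, he, he'⟩)
    simp only [List.mem_cons, List.not_mem_nil, or_false, forall_eq_or_imp, forall_eq] at hm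
    obtain ⟨h1, h2, h3⟩ := hm
    simp only [dif_pos h2, dif_pos h3]
    intro h
    have := (finSuccAboveEquiv (c 0)).symm.injective h
    exact h1 (by simpa using this)

/-- `k`-colourability of loopless graphs is hard, for every `k ≥ 3`. -/
theorem hardPr_col (k : ℕ) (hk : 3 ≤ k) : HardPr Loopless (Col k) := by
  induction k, hk using Nat.le_induction with
  | base => exact hardPr_col3
  | succ k hk ih =>
    exact ih.trans cone_poly (fun E => cone_loopless) (fun E _ => cone_correct (by omega) E)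

theorem npHard_col (k : ℕ) (hk : 3 ≤ k) : NPHardP (Col k) :=
  (hardPr_col k hk).toHardI.toNPHardP

end Pool.Agent.H692R2
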