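import Mathlib

/-!
# Equidominating structures: basic facts

Everything is relative to a vertex subset `U` of a fixed finite graph `G`.
-/

namespace Pool.Agent.H692R2.Equi

open Finset Classical

variable {V : Type*} (G : SimpleGraph V)

/-- closed adjacency -/
def nb (x y : V) : Prop := x = y ∨ G.Adj x y

variable {G}

theorem nb_refl (x : V) : nb G x x := Or.inl rfl

theorem nb_symm {x y : V} (h : nb G x y) : nb G y x := by
  rcases h with h | h
  · exact Or.inl h.symm
  · exact Or.inr h.symm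

variable (G)

/-- `S` dominates `U` -/
def Dom (U S : Finset V) : Prop := ∀ u ∈ U, ∃ s ∈ S, nb G s u

/-- `S` is a minimal dominating set of the subgraph induced on `U` -/
def Mds (U S : Finset V) : Prop := S ⊆ U ∧ Dom G U S ∧ ∀ T ⊆ S, Dom G U T → T = S

/-- `(ω, t)` is an equidominating structure on the subgraph induced on `U` (the target may be `0`
when `U` is empty) -/
def EqS (ω : V → ℕ) (U : Finset V) (t : ℕ) : Prop :=
  ∀ S ⊆ U, (Mds G U S ↔ ∑ s ∈ S, ω s = t)

/-- independent set -/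
def Ind (S : Finset V) : Prop := ∀ x ∈ S, ∀ y ∈ S, x ≠ y → ¬ nb G x y

/-- maximal independent set of `U` -/
def MIS (U S : Finset V) : Prop := S ⊆ U ∧ Ind G S ∧ Dom G U S

/-- `U ∖ N[z]` -/
noncomputable def lk (U : Finset V) (z : V) : Finset V := U.filter (fun x => ¬ nb G z x)

/-- `U ∖ N[Y]` -/
noncomputable def lkS (U Y : Finset V) : Finset V := U.filter (fun x => ∀ y ∈ Y, ¬ nb G y x)

variable {G}

theorem mem_lk {U : Finset V} {z x : V} : x ∈ lk G U z ↔ x ∈ U ∧ ¬ nb G z x := by simp [lk]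

theorem mem_lkS {U Y : Finset V} {x : V} : x ∈ lkS G U Y ↔ x ∈ U ∧ ∀ y ∈ Y, ¬ nb G y x := by
  simp [lkS]

theorem lk_subset (U : Finset V) (z : V) : lk G U z ⊆ U := Finset.filter_subset _ _

theorem lkS_subset (U Y : Finset V) : lkS G U Y ⊆ U := Finset.filter_subset _ _

theorem not_mem_lk_self (U : Finset V) (z : V) : z ∉ lk G U z := fun h => (mem_lk.1 h).2 (nb_refl z)

theorem card_lk_lt {U : Finset V} {z : V} (hz : z ∈ U) : (lk G U z).card < U.card :=
  Finset.card_lt_card ⟨lk_subset U z, fun h => not_mem_lk_self U z (h hz)⟩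

theorem lkS_empty (U : Finset V) : lkS G U ∅ = U := by
  ext x; simp [mem_lkS]

theorem lkS_insert (U Y : Finset V) (y : V) : lkS G U (insert y Y) = lk G (lkS G U Y) y := by
  ext x
  simp only [mem_lkS, mem_lk, Finset.mem_insert, forall_eq_or_imp]
  tauto

theorem lkS_insert' (U Y : Finset V) (y : V) : lkS G U (insert y Y) = lkS G (lk G U y) Y := by
  ext x
  simp only [mem_lkS, mem_lk, Finset.mem_insert, forall_eq_or_imp]
  tauto

theorem lk_comm (U : Finset V) (x y : V) : lk G (lk G U x) y = lk G (lk G U y) x := by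
  ext z
  simp only [mem_lk]
  tauto

theorem Dom.mono {U S T : Finset V} (h : Dom G U S) (hST : S ⊆ T) : Dom G U T := fun u hu => by
  obtain ⟨s, hs, h1⟩ := h u hu
  exact ⟨s, hST hs, h1⟩

theorem exists_mds_subset {U S : Finset V} (hSU : S ⊆ U) (hS : Dom G U S) :
    ∃ T ⊆ S, Mds G U T := by
  induction S using Finset.strongInduction with
  | H S ih =>
    by_cases h : ∀ T ⊆ S, Dom G U T → T = S
    · exact ⟨S, Finset.Subset.refl _, hSU, hS, h⟩
    · push Not at h
      obtain ⟨T, hTS, hT, hne⟩ := h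
      obtain ⟨T', hT', hm⟩ := ih T (Finset.ssubset_iff_subset_ne.2 ⟨hTS, hne⟩)
        (hTS.trans hSU) hT
      exact ⟨T', hT'.trans hTS, hm⟩

/-- private neighbours -/
theorem Mds.priv {U S : Finset V} (h : Mds G U S) {s : V} (hs : s ∈ S) :
    ∃ p ∈ U, nb G s p ∧ ∀ s' ∈ S, s' ≠ s → ¬ nb G s' p := by
  by_contra hcon
  push Not at hcon
  have hd : Dom G U (S.erase s) := by
    intro u hu
    obtain ⟨s1, hs1, h1⟩ := h.2.1 u hu
    by_cases hss : s1 = s
    · subst hss
      obtain ⟨s', hs', hne, hn⟩ := hcon u hu h1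
      exact ⟨s', Finset.mem_erase.2 ⟨hne, hs'⟩, hn⟩
    · exact ⟨s1, Finset.mem_erase.2 ⟨hss, hs1⟩, h1⟩
  have := h.2.2 _ (Finset.erase_subset _ _) hd
  rw [← this] at hs
  exact (Finset.notMem_erase s S) hs

theorem mds_of_priv {U S : Finset V} (hSU : S ⊆ U) (hd : Dom G U S)
    (h : ∀ s ∈ S, ∃ p ∈ U, nb G s p ∧ ∀ s' ∈ S, s' ≠ s → ¬ nb G s' p) : Mds G U S := by
  refine ⟨hSU, hd, fun T hTS hT => ?_⟩
  refine Finset.Subset.antisymm hTS fun s hs => ?_
  obtain ⟨p, hp, hsp, hpr⟩ := h s hs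
  obtain ⟨r, hr, hrp⟩ := hT p hp
  by_cases hrs : r = s
  · rw [← hrs]; exact hr
  · exact absurd hrp (hpr r (hTS hr) hrs)

theorem MIS.mds {U S : Finset V} (h : MIS G U S) : Mds G U S :=
  mds_of_priv h.1 h.2.2 fun s hs => ⟨s, h.1 hs, nb_refl s, fun s' hs' hne => h.2.1 s' hs' s hs hne⟩

theorem exists_mis {U J : Finset V} (hJU : J ⊆ U) (hJ : Ind G J) : ∃ D, J ⊆ D ∧ MIS G U D := by
  by_contra hcon
  push Not at hcon
  have key : ∀ n : ℕ, ∃ D, J ⊆ D ∧ D ⊆ U ∧ Ind G D ∧ n ≤ D.card := by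
    intro n
    induction n with
    | zero => exact ⟨J, Finset.Subset.refl _, hJU, hJ, Nat.zero_le _⟩
    | succ n ih =>
      obtain ⟨D, hJD, hDU, hD, hn⟩ := ih
      have h1 := hcon D hJD
      have h2 : ¬ Dom G U D := fun h => h1 ⟨hDU, hD, h⟩
      unfold Dom at h2
      push Not at h2
      obtain ⟨u, hu, hu2⟩ := h2
      have hnot : u ∉ D := fun h => hu2 u h (nb_refl u)
      refine ⟨insert u D, hJD.trans (Finset.subset_insert _ _),
        Finset.insert_subset hu hDU, ?_, ?_⟩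
      · intro x hx y hy hxy
        rcases Finset.mem_insert.1 hx with rfl | hx'
        · rcases Finset.mem_insert.1 hy with rfl | hy'
          · exact absurd rfl hxy
          · exact fun h => hu2 y hy' (nb_symm h)
        · rcases Finset.mem_insert.1 hy with rfl | hy'
          · exact hu2 x hx'
          · exact hD x hx' y hy' hxy
      · rw [Finset.card_insert_of_notMem hnot]; omega
  obtain ⟨D, _, hDU, _, hn⟩ := key (U.card + 1)
  have := Finset.card_le_card hDU
  omega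

theorem ind_empty : Ind G (∅ : Finset V) := fun x hx => absurd hx (Finset.notMem_empty x)

theorem ind_singleton (x : V) : Ind G ({x} : Finset V) := by
  intro a ha b hb hab
  rw [Finset.mem_singleton] at ha hb
  exact absurd (ha.trans hb.symm) hab

theorem ind_insert {S : Finset V} {x : V} (hS : Ind G S) (h : ∀ y ∈ S, ¬ nb G x y) :
    Ind G (insert x S) := by
  intro a ha b hb hab
  rcases Finset.mem_insert.1 ha with rfl | ha'
  · rcases Finset.mem_insert.1 hb with rfl | hb'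
    · exact absurd rfl hab
    · exact h b hb'
  · rcases Finset.mem_insert.1 hb with rfl | hb'
    · exact fun hn => h a ha' (nb_symm hn)
    · exact hS a ha' b hb' hab

theorem Ind.subset {S T : Finset V} (hS : Ind G S) (h : T ⊆ S) : Ind G T :=
  fun x hx y hy => hS x (h hx) y (h hy)

section weights

variable {ω : V → ℕ} (hω : ∀ v, 0 < ω v)

theorem EqS.le_of_dom {U : Finset V} {t : ℕ} (h : EqS G ω U t) {S : Finset V} (hSU : S ⊆ U)
    (hS : Dom G U S) : t ≤ ∑ s ∈ S, ω s := by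
  obtain ⟨T, hTS, hT⟩ := exists_mds_subset hSU hS
  rw [← (h T (hTS.trans hSU)).1 hT]
  exact Finset.sum_le_sum_of_subset hTS

include hω in
theorem eq_of_sum_le {S T : Finset V} (hTS : T ⊆ S) (h : ∑ s ∈ S, ω s ≤ ∑ s ∈ T, ω s) :
    T = S := by
  by_contra hne
  have : ∑ s ∈ T, ω s < ∑ s ∈ S, ω s := by
    obtain ⟨x, hxS, hxT⟩ := Finset.exists_of_ssubset (Finset.ssubset_iff_subset_ne.2 ⟨hTS, hne⟩)
    exact Finset.sum_lt_sum_of_subset hTS hxS hxT (hω x) (fun _ _ _ => Nat.zero_le _)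
  omega

theorem EqS.mis {U : Finset V} {t : ℕ} (h : EqS G ω U t) {S : Finset V} (hS : MIS G U S) :
    ∑ s ∈ S, ω s = t := (h S hS.1).1 hS.mds

/-- the link of a vertex inherits the structure -/
theorem EqS.link {U : Finset V} {t : ℕ} (h : EqS G ω U t) {z : V} (hz : z ∈ U) :
    ∃ t', ω z + t' = t ∧ EqS G ω (lk G U z) t' := by
  obtain ⟨D, hzD, hD⟩ := exists_mis (G := G) (U := U) (J := {z}) (by simpa using hz)
    (ind_singleton z)
  have hzD' : z ∈ D := hzD (Finset.mem_singleton_self z)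
  have hw := h.mis hD
  have hwz : ω z ≤ t := by
    rw [← hw]; exact Finset.single_le_sum (fun _ _ => Nat.zero_le _) hzD'
  refine ⟨t - ω z, by omega, fun S hS => ?_⟩
  have hzS : z ∉ S := fun hh => not_mem_lk_self U z (hS hh)
  have hins : insert z S ⊆ U := Finset.insert_subset hz (hS.trans (lk_subset U z))
  have hsum : ∑ s ∈ insert z S, ω s = ω z + ∑ s ∈ S, ω s := Finset.sum_insert hzS
  have key : Mds G (lk G U z) S ↔ Mds G U (insert z S) := by
    constructor
    · intro hm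
      refine mds_of_priv hins ?_ ?_
      · intro u hu
        by_cases hzu : nb G z u
        · exact ⟨z, Finset.mem_insert_self _ _, hzu⟩
        · obtain ⟨s, hs, h1⟩ := hm.2.1 u (mem_lk.2 ⟨hu, hzu⟩)
          exact ⟨s, Finset.mem_insert_of_mem hs, h1⟩
      · intro s hs
        rcases Finset.mem_insert.1 hs with rfl | hs
        · refine ⟨s, hz, nb_refl s, fun s' hs' hne => ?_⟩
          rcases Finset.mem_insert.1 hs' with rfl | hs'
          · exact absurd rfl hne
          · exact fun hn => (mem_lk.1 (hS hs')).2 (nb_symm hn)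
        · obtain ⟨p, hp, hsp, hpr⟩ := hm.priv hs
          refine ⟨p, (mem_lk.1 hp).1, hsp, fun s' hs' hne => ?_⟩
          rcases Finset.mem_insert.1 hs' with rfl | hs'
          · exact (mem_lk.1 hp).2
          · exact hpr s' hs' hne
    · intro hm
      refine mds_of_priv hS ?_ ?_
      · intro u hu
        obtain ⟨s, hs, h1⟩ := hm.2.1 u (mem_lk.1 hu).1
        rcases Finset.mem_insert.1 hs with rfl | hs
        · exact absurd h1 (mem_lk.1 hu).2
        · exact ⟨s, hs, h1⟩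
      · intro s hs
        obtain ⟨p, hp, hsp, hpr⟩ := hm.priv (Finset.mem_insert_of_mem hs)
        have hzs : z ≠ s := fun e => hzS (e ▸ hs)
        refine ⟨p, mem_lk.2 ⟨hp, hpr z (Finset.mem_insert_self _ _) hzs⟩, hsp,
          fun s' hs' hne => hpr s' (Finset.mem_insert_of_mem hs') hne⟩
  rw [key, h _ hins, hsum]
  omega

theorem EqS.linkS {U : Finset V} {t : ℕ} (h : EqS G ω U t) {Y : Finset V} (hY : Y ⊆ U)
    (hI : Ind G Y) : ∃ t', ∑ y ∈ Y, ω y + t' = t ∧ EqS G ω (lkS G U Y) t' := by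
  induction Y using Finset.induction_on with
  | empty => exact ⟨t, by simp, by rw [lkS_empty]; exact h⟩
  | insert y Y hy ih =>
    obtain ⟨t', ht', h'⟩ := ih ((Finset.subset_insert _ _).trans hY)
      (hI.subset (Finset.subset_insert _ _))
    have hyl : y ∈ lkS G U Y := by
      refine mem_lkS.2 ⟨hY (Finset.mem_insert_self _ _), fun a ha => ?_⟩
      exact hI a (Finset.mem_insert_of_mem ha) y (Finset.mem_insert_self _ _)
        (fun e => hy (e ▸ ha))
    obtain ⟨t'', ht'', h''⟩ := h'.link hyl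
    refine ⟨t'', ?_, by rw [lkS_insert]; exact h''⟩
    rw [Finset.sum_insert hy]
    omega

theorem EqS.empty_iff {U : Finset V} {t : ℕ} (h : EqS G ω U t) (hω : ∀ v, 0 < ω v) :
    U = ∅ ↔ t = 0 := by
  obtain ⟨D, _, hD⟩ := exists_mis (G := G) (U := U) (J := ∅) (Finset.empty_subset _) ind_empty
  have hw := h.mis hD
  constructor
  · rintro rfl
    have : D = ∅ := Finset.subset_empty.1 hD.1
    subst this
    simpa using hw.symm
  · rintro rfl
    have : D = ∅ := by
      by_contra hne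
      obtain ⟨x, hx⟩ := Finset.nonempty_iff_ne_empty.2 hne
      have := Finset.single_le_sum (f := ω) (fun _ _ => Nat.zero_le _) hx
      have := hω x
      omega
    subst this
    by_contra hne
    obtain ⟨x, hx⟩ := Finset.nonempty_iff_ne_empty.2 hne
    obtain ⟨s, hs, _⟩ := hD.2.2 x hx
    exact absurd hs (Finset.notMem_empty s)

/-- greedy multiset of weights -/
noncomputable def tau (G : SimpleGraph V) (ω : V → ℕ) (U : Finset V) : Multiset ℕ :=
  if h : U.Nonempty then
    ω (U.exists_min_image ω h).choose ::ₘ tau G ω (lk G U (U.exists_min_image ω h).choose)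
  else 0
termination_by U.card
decreasing_by exact card_lk_lt (U.exists_min_image ω h).choose_spec.1

theorem tau_empty : tau G ω ∅ = 0 := by
  rw [tau]; simp

/-- a minimum weight vertex of `U` -/
def IsMin (ω : V → ℕ) (U : Finset V) (v : V) : Prop := v ∈ U ∧ ∀ u ∈ U, ω v ≤ ω u

theorem tau_unfold {U : Finset V} (h : U.Nonempty) :
    ∃ v, IsMin ω U v ∧ tau G ω U = ω v ::ₘ tau G ω (lk G U v) := by
  refine ⟨(U.exists_min_image ω h).choose, (U.exists_min_image ω h).choose_spec, ?_⟩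
  rw [tau]
  simp [h]

/-- Two subgraphs which complete to the whole graph in the same way. -/
structure Cross (G : SimpleGraph V) (ω : V → ℕ) (U : Finset V) (t : ℕ) (V1 Y1 V2 Y2 : Finset V)
    (s : ℕ) : Prop where
  eU : EqS G ω U t
  e1 : EqS G ω V1 s
  e2 : EqS G ω V2 s
  w1 : ∑ y ∈ Y1, ω y + s = t
  w2 : ∑ y ∈ Y2, ω y + s = t
  v1 : V1 = lkS G U Y1
  v2 : V2 = lkS G U Y2
  y1 : Y1 ⊆ U
  y2 : Y2 ⊆ U
  d12 : Disjoint V1 Y2
  d21 : Disjoint V2 Y1

theorem Cross.symm {U : Finset V} {t : ℕ} {V1 Y1 V2 Y2 : Finset V} {s : ℕ}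
    (h : Cross G ω U t V1 Y1 V2 Y2 s) : Cross G ω U t V2 Y2 V1 Y1 s :=
  ⟨h.eU, h.e2, h.e1, h.w2, h.w1, h.v2, h.v1, h.y2, h.y1, h.d21, h.d12⟩

/-- the key step of the peeling argument -/
theorem Cross.step {U : Finset V} {t : ℕ} {V1 Y1 V2 Y2 : Finset V} {s : ℕ}
    (h : Cross G ω U t V1 Y1 V2 Y2 s) {v : V} (hv : v ∈ V1) (hmin : ∀ b ∈ V2, ω v ≤ ω b) :
    ∃ b ∈ V2, ω b = ω v ∧
      ∃ s', Cross G ω U t (lk G V1 v) (insert v Y1) (lk G V2 b) (insert b Y2) s' := by
  have hvU : v ∈ U := by rw [h.v1] at hv; exact lkS_subset _ _ hv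
  have h1 : ∃ b ∈ V2, ∀ y ∈ V2, nb G b y → nb G v y := by
    by_contra hcon
    push Not at hcon
    have hd : Dom G V2 (lk G V2 v) := by
      intro b hb
      obtain ⟨y, hy, hby, hvy⟩ := hcon b hb
      exact ⟨y, mem_lk.2 ⟨hy, hvy⟩, nb_symm hby⟩
    obtain ⟨I, hI, hm⟩ := exists_mds_subset (lk_subset V2 v) hd
    have hIV2 : I ⊆ V2 := hI.trans (lk_subset V2 v)
    have hIU : I ⊆ U := by rw [h.v2] at hIV2; exact hIV2.trans (lkS_subset _ _)
    have hdis : Disjoint Y1 I := (h.d21.mono_left hIV2).symm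
    have hw : ∑ y ∈ Y1 ∪ I, ω y = t := by
      rw [Finset.sum_union hdis, (h.e2 I hIV2).1 hm]; exact h.w1
    have hm2 := (h.eU (Y1 ∪ I) (Finset.union_subset h.y1 hIU)).2 hw
    obtain ⟨r, hr, hrv⟩ := hm2.2.1 v hvU
    rcases Finset.mem_union.1 hr with hr | hr
    · rw [h.v1] at hv
      exact (mem_lkS.1 hv).2 r hr hrv
    · exact (mem_lk.1 (hI hr)).2 (nb_symm hrv)
  obtain ⟨b, hb, hbv⟩ := h1
  have hbU : b ∈ U := by rw [h.v2] at hb; exact lkS_subset _ _ hb
  have hvb : nb G v b := hbv b hb (nb_refl b)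
  obtain ⟨I, hbI, hI⟩ := exists_mis (G := G) (U := V2) (J := {b}) (by simpa using hb)
    (ind_singleton b)
  have hbI' : b ∈ I := hbI (Finset.mem_singleton_self b)
  have hIU : I ⊆ U := by
    have := hI.1
    rw [h.v2] at this; exact this.trans (lkS_subset _ _)
  have hdom : Dom G U (Y2 ∪ insert v (I.erase b)) := by
    intro u hu
    by_cases hu2 : u ∈ V2
    · obtain ⟨i, hi, hiu⟩ := hI.2.2 u hu2
      by_cases hib : i = b
      · subst hib
        exact ⟨v, by simp, hbv u hu2 hiu⟩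
      · exact ⟨i, by simp [hi, hib], hiu⟩
    · rw [h.v2, mem_lkS] at hu2
      push Not at hu2
      obtain ⟨y, hy, hyu⟩ := hu2 hu
      exact ⟨y, by simp [hy], hyu⟩
  have hle := h.eU.le_of_dom (Finset.union_subset h.y2
    (Finset.insert_subset hvU ((Finset.erase_subset _ _).trans hIU))) hdom
  have hle2 : ∑ y ∈ Y2 ∪ insert v (I.erase b), ω y ≤
      ∑ y ∈ Y2, ω y + (ω v + ∑ y ∈ I.erase b, ω y) := by
    refine (Finset.sum_union_inter (s₁ := Y2) (s₂ := insert v (I.erase b)) (f := ω) ▸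
      Nat.le_add_right _ _).trans ?_
    refine Nat.add_le_add_left ?_ _
    by_cases hmem : v ∈ I.erase b
    · rw [Finset.insert_eq_of_mem hmem]; omega
    · rw [Finset.sum_insert hmem]
  have hIs : ∑ y ∈ I, ω y = s := h.e2.mis hI
  have hIb : ∑ y ∈ I.erase b, ω y + ω b = s := by
    rw [Finset.sum_erase_add _ _ hbI', hIs]
  have hw2 := h.w2
  have hωb : ω b = ω v := by
    have := hmin b hb
    omega
  refine ⟨b, hb, hωb, ?_⟩
  obtain ⟨s1, hs1, he1⟩ := h.e1.link hv
  obtain ⟨s2, hs2, he2⟩ := h.e2.link hb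
  have hss : s1 = s2 := by omega
  subst hss
  have hvY1 : v ∉ Y1 := by
    intro hh
    rw [h.v1] at hv
    exact (mem_lkS.1 hv).2 v hh (nb_refl v)
  have hbY2 : b ∉ Y2 := by
    intro hh
    have hb' := hb
    rw [h.v2] at hb'
    exact (mem_lkS.1 hb').2 b hh (nb_refl b)
  refine ⟨s1, h.eU, he1, he2, ?_, ?_, ?_, ?_, Finset.insert_subset hvU h.y1,
    Finset.insert_subset hbU h.y2, ?_, ?_⟩
  · rw [Finset.sum_insert hvY1]; have := h.w1; omega
  · rw [Finset.sum_insert hbY2]; omega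
  · rw [lkS_insert, ← h.v1]
  · rw [lkS_insert, ← h.v2]
  · rw [Finset.disjoint_insert_right]
    refine ⟨fun hh => (mem_lk.1 hh).2 hvb, h.d12.mono_left (lk_subset _ _)⟩
  · rw [Finset.disjoint_insert_right]
    refine ⟨fun hh => (mem_lk.1 hh).2 (nb_symm hvb), h.d21.mono_left (lk_subset _ _)⟩

include hω in
theorem Cross.nonempty_iff {U : Finset V} {t : ℕ} {V1 Y1 V2 Y2 : Finset V} {s : ℕ}
    (h : Cross G ω U t V1 Y1 V2 Y2 s) : V1 = ∅ ↔ V2 = ∅ := by
  rw [h.e1.empty_iff hω, h.e2.empty_iff hω]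

/-- choice independence for sets of size at most `n` -/
def ChoiceInd (G : SimpleGraph V) (ω : V → ℕ) (n : ℕ) : Prop :=
  ∀ U t, U.card ≤ n → EqS G ω U t → ∀ v, IsMin ω U v → tau G ω U = ω v ::ₘ tau G ω (lk G U v)

include hω in
theorem cross_aux {n : ℕ} (hA : ChoiceInd G ω n) : ∀ (k : ℕ) (U : Finset V) (t : ℕ)
    (V1 Y1 V2 Y2 : Finset V) (s : ℕ), V1.card ≤ k → V1.card ≤ n → V2.card ≤ n →
    Cross G ω U t V1 Y1 V2 Y2 s → tau G ω V1 = tau G ω V2 := by
  intro k
  induction k with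
  | zero =>
    intro U t V1 Y1 V2 Y2 s hk _ _ h
    have h1 : V1 = ∅ := Finset.card_eq_zero.1 (Nat.le_zero.1 hk)
    have h2 : V2 = ∅ := (h.nonempty_iff hω).1 h1
    rw [h1, h2]
  | succ k ih =>
    intro U t V1 Y1 V2 Y2 s hk hn1 hn2 h
    by_cases hne : V1 = ∅
    · have h2 : V2 = ∅ := (h.nonempty_iff hω).1 hne
      rw [hne, h2]
    have hne2 : V2 ≠ ∅ := fun e => hne ((h.nonempty_iff hω).2 e)
    obtain ⟨v1, hv1⟩ := V1.exists_min_image ω (Finset.nonempty_iff_ne_empty.2 hne)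
    obtain ⟨v2, hv2⟩ := V2.exists_min_image ω (Finset.nonempty_iff_ne_empty.2 hne2)
    rcases le_total (ω v1) (ω v2) with hle | hle
    · obtain ⟨b, hb, hωb, s', hc⟩ := h.step hv1.1 (fun b hb => hle.trans (hv2.2 b hb))
      have hbmin : IsMin ω V2 b := ⟨hb, fun u hu => hωb ▸ hle.trans (hv2.2 u hu)⟩
      have h1 := hA V1 s hn1 h.e1 v1 hv1
      have h2 := hA V2 s hn2 h.e2 b hbmin
      have hc1 := card_lk_lt (G := G) hv1.1
      have hc2 := card_lk_lt (G := G) hb
      have := ih U t _ _ _ _ s' (by omega) (by omega) (by omega) hc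
      rw [h1, h2, this, hωb]
    · obtain ⟨b, hb, hωb, s', hc⟩ := h.symm.step hv2.1 (fun b hb => hle.trans (hv1.2 b hb))
      have hbmin : IsMin ω V1 b := ⟨hb, fun u hu => hωb ▸ hle.trans (hv1.2 u hu)⟩
      have h1 := hA V2 s hn2 h.e2 v2 hv2
      have h2 := hA V1 s hn1 h.e1 b hbmin
      have hc1 := card_lk_lt (G := G) hv2.1
      have hc2 := card_lk_lt (G := G) hb
      have := ih U t _ _ _ _ s' (by omega) (by omega) (by omega) hc.symm
      rw [h1, h2, this, hωb]

include hω in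
theorem choiceInd (n : ℕ) : ChoiceInd G ω n := by
  induction n with
  | zero =>
    intro U t hc _ v hv
    have : U = ∅ := Finset.card_eq_zero.1 (Nat.le_zero.1 hc)
    subst this
    exact absurd hv.1 (Finset.notMem_empty v)
  | succ n ih =>
    intro U t hc hE v hv
    obtain ⟨u, hu, htau⟩ := tau_unfold (G := G) (ω := ω) ⟨v, hv.1⟩
    rw [htau]
    have hω1 : ω u = ω v := le_antisymm (hu.2 v hv.1) (hv.2 u hu.1)
    rw [hω1]
    congr 1
    by_cases huv : u = v
    · rw [huv]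
    obtain ⟨su, hsu, heu⟩ := hE.link hu.1
    obtain ⟨sv, hsv, hev⟩ := hE.link hv.1
    have hss : su = sv := by omega
    subst hss
    have hcu := card_lk_lt (G := G) hu.1
    have hcv := card_lk_lt (G := G) hv.1
    by_cases hadj : nb G u v
    · refine cross_aux hω ih U.card U t (lk G U u) {u} (lk G U v) {v} su
        (by omega) (by omega) (by omega) ?_
      refine ⟨hE, heu, hev, by simpa using hsu, by simpa using hsv, ?_, ?_,
        by simpa using hu.1, by simpa using hv.1, ?_, ?_⟩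
      · ext x; simp [mem_lk, mem_lkS]
      · ext x; simp [mem_lk, mem_lkS]
      · rw [Finset.disjoint_singleton_right]
        exact fun hh => (mem_lk.1 hh).2 hadj
      · rw [Finset.disjoint_singleton_right]
        exact fun hh => (mem_lk.1 hh).2 (nb_symm hadj)
    · have h1 := ih (lk G U u) su (by omega) heu v
        ⟨mem_lk.2 ⟨hv.1, hadj⟩, fun w hw => hv.2 w (lk_subset _ _ hw)⟩
      have h2 := ih (lk G U v) su (by omega) hev u
        ⟨mem_lk.2 ⟨hu.1, fun hh => hadj (nb_symm hh)⟩, fun w hw => hu.2 w (lk_subset _ _ hw)⟩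
      rw [h1, h2, lk_comm, hω1]

include hω in
theorem tau_min {U : Finset V} {t : ℕ} (hE : EqS G ω U t) {v : V} (hv : IsMin ω U v) :
    tau G ω U = ω v ::ₘ tau G ω (lk G U v) :=
  choiceInd hω U.card U t le_rfl hE v hv

include hω in
theorem tau_cross {U : Finset V} {t : ℕ} {V1 Y1 V2 Y2 : Finset V} {s : ℕ}
    (h : Cross G ω U t V1 Y1 V2 Y2 s) : tau G ω V1 = tau G ω V2 :=
  cross_aux hω (choiceInd hω (max V1.card V2.card)) V1.card U t V1 Y1 V2 Y2 s le_rfl
    (le_max_left _ _) (le_max_right _ _) h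

end weights

end Pool.Agent.H692R2.Equi
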