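import Pool.Agent.H692R2.Eq1

/-!
# Equidominating structures: the colour multisets of the vertices
-/

namespace Pool.Agent.H692R2.Equi

open Finset Classical

variable {V : Type*} {G : SimpleGraph V} {ω : V → ℕ} (hω : ∀ v, 0 < ω v)

/-- the multiset of colours of a vertex -/
noncomputable def fm (G : SimpleGraph V) (ω : V → ℕ) (U : Finset V) (x : V) : Multiset ℕ :=
  tau G ω (lkS G U
    (exists_mis (G := G) (U := lk G U x) (J := ∅) (Finset.empty_subset _) ind_empty).choose)

theorem mis_insert {U Y : Finset V} {x : V} (hx : x ∈ U) (hY : MIS G (lk G U x) Y) :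
    MIS G U (insert x Y) := by
  refine ⟨Finset.insert_subset hx (hY.1.trans (lk_subset _ _)),
    ind_insert hY.2.1 fun y hy => (mem_lk.1 (hY.1 hy)).2, fun u hu => ?_⟩
  by_cases h : nb G x u
  · exact ⟨x, Finset.mem_insert_self _ _, h⟩
  · obtain ⟨s, hs, h1⟩ := hY.2.2 u (mem_lk.2 ⟨hu, h⟩)
    exact ⟨s, Finset.mem_insert_of_mem hs, h1⟩

theorem not_mem_of_mis_lk {U Y : Finset V} {x : V} (hY : MIS G (lk G U x) Y) : x ∉ Y :=
  fun h => not_mem_lk_self U x (hY.1 h)

theorem eqS_lkS_mis {U Y : Finset V} {t : ℕ} {x : V} (hE : EqS G ω U t) (hx : x ∈ U)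
    (hY : MIS G (lk G U x) Y) : ∑ y ∈ Y, ω y + ω x = t ∧ EqS G ω (lkS G U Y) (ω x) := by
  have h1 := hE.mis (mis_insert hx hY)
  rw [Finset.sum_insert (not_mem_of_mis_lk hY)] at h1
  obtain ⟨t', ht', h'⟩ := hE.linkS (hY.1.trans (lk_subset _ _)) hY.2.1
  have : t' = ω x := by omega
  subst this
  exact ⟨ht', h'⟩

include hω in
theorem fm_eq {U Y : Finset V} {t : ℕ} {x : V} (hE : EqS G ω U t) (hx : x ∈ U)
    (hY : MIS G (lk G U x) Y) : fm G ω U x = tau G ω (lkS G U Y) := by
  unfold fm
  generalize hYY : (exists_mis (G := G) (U := lk G U x) (J := ∅) (Finset.empty_subset _)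
    ind_empty).choose = Y'
  have hY' : MIS G (lk G U x) Y' := by
    rw [← hYY]
    exact (exists_mis (G := G) (U := lk G U x) (J := ∅) (Finset.empty_subset _)
      ind_empty).choose_spec.2
  obtain ⟨w1, e1⟩ := eqS_lkS_mis hE hx hY'
  obtain ⟨w2, e2⟩ := eqS_lkS_mis hE hx hY
  refine tau_cross hω (U := U) (t := t) (Y1 := Y') (Y2 := Y) (s := ω x)
    ⟨hE, e1, e2, w1, w2, rfl, rfl, hY'.1.trans (lk_subset _ _), hY.1.trans (lk_subset _ _), ?_, ?_⟩
  · rw [Finset.disjoint_left]
    intro a ha haY
    obtain ⟨s, hs, hsa⟩ := hY'.2.2 a (hY.1 haY)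
    exact (mem_lkS.1 ha).2 s hs hsa
  · rw [Finset.disjoint_left]
    intro a ha haY
    obtain ⟨s, hs, hsa⟩ := hY.2.2 a (hY'.1 haY)
    exact (mem_lkS.1 ha).2 s hs hsa

include hω in
theorem fm_link {U : Finset V} {t : ℕ} {x z : V} (hE : EqS G ω U t) (hz : z ∈ U)
    (hx : x ∈ lk G U z) : fm G ω (lk G U z) x = fm G ω U x := by
  obtain ⟨Y, _, hY⟩ := exists_mis (G := G) (U := lk G (lk G U z) x) (J := ∅)
    (Finset.empty_subset _) ind_empty
  obtain ⟨t', _, hE'⟩ := hE.link hz
  have hzx : z ∈ lk G U x := mem_lk.2 ⟨hz, fun h => (mem_lk.1 hx).2 (nb_symm h)⟩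
  have hY2 : MIS G (lk G U x) (insert z Y) := by
    refine mis_insert hzx ?_
    rw [lk_comm]; exact hY
  rw [fm_eq hω hE' hx hY, fm_eq hω hE (lk_subset _ _ hx) hY2, lkS_insert']

theorem tau_pos (hω : ∀ v, 0 < ω v) (U : Finset V) : ∀ a ∈ tau G ω U, 0 < a := by
  induction U using Finset.strongInduction with
  | H U ih =>
    by_cases h : U.Nonempty
    · obtain ⟨v, hv, htau⟩ := tau_unfold (G := G) (ω := ω) h
      rw [htau]
      intro a ha
      rcases Multiset.mem_cons.1 ha with rfl | ha
      · exact hω v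
      · refine ih (lk G U v) ?_ a ha
        exact ⟨lk_subset U v, fun h => not_mem_lk_self U v (h hv.1)⟩
    · rw [Finset.not_nonempty_iff_eq_empty.1 h, tau_empty]
      simp

include hω in
theorem tau_sum {U : Finset V} {t : ℕ} (hE : EqS G ω U t) : (tau G ω U).sum = t := by
  induction U using Finset.strongInduction generalizing t with
  | H U ih =>
    by_cases h : U.Nonempty
    · obtain ⟨v, hv, htau⟩ := tau_unfold (G := G) (ω := ω) h
      obtain ⟨t', ht', hE'⟩ := hE.link hv.1
      rw [htau, Multiset.sum_cons,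
        ih (lk G U v) ⟨lk_subset U v, fun h => not_mem_lk_self U v (h hv.1)⟩ hE', ht']
    · have h1 := Finset.not_nonempty_iff_eq_empty.1 h
      rw [h1, tau_empty]
      exact ((hE.empty_iff hω).1 h1).symm

include hω in
theorem fm_sum {U : Finset V} {t : ℕ} (hE : EqS G ω U t) {x : V} (hx : x ∈ U) :
    (fm G ω U x).sum = ω x := by
  obtain ⟨Y, _, hY⟩ := exists_mis (G := G) (U := lk G U x) (J := ∅)
    (Finset.empty_subset _) ind_empty
  rw [fm_eq hω hE hx hY, tau_sum hω (eqS_lkS_mis hE hx hY).2]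

theorem fm_pos (hω : ∀ v, 0 < ω v) (U : Finset V) (x : V) : ∀ a ∈ fm G ω U x, 0 < a :=
  tau_pos hω _

theorem eq_zero_of_sum {m : Multiset ℕ} (h : ∀ a ∈ m, 0 < a) (hs : m.sum = 0) : m = 0 := by
  refine Multiset.eq_zero_of_forall_notMem fun a ha => ?_
  have h1 := Multiset.single_le_sum (s := m) (fun x _ => Nat.zero_le x) a ha
  have h2 := h a ha
  omega

include hω in
theorem fm_min {U : Finset V} {t : ℕ} (hE : EqS G ω U t) {v : V} (hv : IsMin ω U v) :
    fm G ω U v = {ω v} := by
  obtain ⟨Y, _, hY⟩ := exists_mis (G := G) (U := lk G U v) (J := ∅)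
    (Finset.empty_subset _) ind_empty
  have hE' := (eqS_lkS_mis hE hv.1 hY).2
  have hvW : v ∈ lkS G U Y := mem_lkS.2 ⟨hv.1, fun y hy h =>
    (mem_lk.1 (hY.1 hy)).2 (nb_symm h)⟩
  have h1 := tau_min hω hE' (v := v) ⟨hvW, fun u hu => hv.2 u (lkS_subset _ _ hu)⟩
  have h2 := tau_sum hω hE'
  rw [h1, Multiset.sum_cons] at h2
  have h3 := eq_zero_of_sum (tau_pos (G := G) hω (lk G (lkS G U Y) v)) (by omega)
  rw [fm_eq hω hE hv.1 hY, h1, h3]
  rfl

theorem fm_univ {U : Finset V} {x : V} (h : lk G U x = ∅) : fm G ω U x = tau G ω U := by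
  unfold fm
  generalize hYY : (exists_mis (G := G) (U := lk G U x) (J := ∅) (Finset.empty_subset _)
    ind_empty).choose = Y'
  have hY' : MIS G (lk G U x) Y' := by
    rw [← hYY]
    exact (exists_mis (G := G) (U := lk G U x) (J := ∅) (Finset.empty_subset _)
      ind_empty).choose_spec.2
  rw [h] at hY'
  rw [Finset.subset_empty.1 hY'.1, lkS_empty]

include hω in
/-- additivity of the greedy multiset -/
theorem tau_split {U : Finset V} {t : ℕ} (hE : EqS G ω U t) {x : V} (hx : x ∈ U) :
    tau G ω U = fm G ω U x + tau G ω (lk G U x) := by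
  induction U using Finset.strongInduction generalizing t x with
  | H U ih =>
    have hlt : ∀ {z}, z ∈ U → lk G U z ⊂ U := fun {z} hz =>
      ⟨lk_subset U z, fun h => not_mem_lk_self U z (h hz)⟩
    have hmin : ∀ v, IsMin ω U v → tau G ω U = fm G ω U v + tau G ω (lk G U v) := by
      intro v hv
      rw [fm_min hω hE hv, tau_min hω hE hv]
      rfl
    have hprop : ∀ x z, x ∈ U → z ∈ U → ¬ nb G x z →
        tau G ω U = fm G ω U z + tau G ω (lk G U z) →
        tau G ω U = fm G ω U x + tau G ω (lk G U x) := by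
      intro x z hx hz hxz h
      have hxl : x ∈ lk G U z := mem_lk.2 ⟨hx, fun hh => hxz (nb_symm hh)⟩
      have hzl : z ∈ lk G U x := mem_lk.2 ⟨hz, hxz⟩
      obtain ⟨t1, _, hE1⟩ := hE.link hz
      obtain ⟨t2, _, hE2⟩ := hE.link hx
      have h1 := ih (lk G U z) (hlt hz) hE1 hxl
      have h2 := ih (lk G U x) (hlt hx) hE2 hzl
      rw [fm_link hω hE hz hxl] at h1
      rw [fm_link hω hE hx hzl] at h2
      rw [h, h1, h2, lk_comm U x z]
      abel
    by_contra hcon
    obtain ⟨v, hv⟩ := U.exists_min_image ω ⟨x, hx⟩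
    have hvg := hmin v hv
    -- `x` is adjacent to everything good
    have hxg : ∀ z ∈ U, tau G ω U = fm G ω U z + tau G ω (lk G U z) → nb G x z := by
      intro z hz hgz
      by_contra h
      exact hcon (hprop x z hx hz h hgz)
    have hlx : (lk G U x).Nonempty := by
      by_contra h
      have h1 := Finset.not_nonempty_iff_eq_empty.1 h
      apply hcon
      rw [fm_univ h1, h1, tau_empty, add_zero]
    obtain ⟨x', hx'⟩ := hlx
    have hx'b : ¬ (tau G ω U = fm G ω U x' + tau G ω (lk G U x')) := fun h =>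
      (mem_lk.1 hx').2 (hxg x' (mem_lk.1 hx').1 h)
    have hlv : (lk G U v).Nonempty := by
      by_contra h
      have h1 := Finset.not_nonempty_iff_eq_empty.1 h
      -- `v` universal: all weights equal `t`
      obtain ⟨tx, htx, hEx⟩ := hE.link hx
      obtain ⟨tv, htv, hEv⟩ := hE.link hv.1
      have htv0 := (hEv.empty_iff hω).1 h1
      have htx0 : tx = 0 := by
        have := hv.2 x hx
        omega
      have := (hEx.empty_iff hω).2 htx0
      rw [this] at hx'
      exact absurd hx' (Finset.notMem_empty _)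
    obtain ⟨v', hv'⟩ := hlv
    have hv'g : tau G ω U = fm G ω U v' + tau G ω (lk G U v') :=
      hprop v' v (mem_lk.1 hv').1 hv.1 (fun h => (mem_lk.1 hv').2 (nb_symm h)) hvg
    -- every good vertex is adjacent to every bad vertex
    have hgb : ∀ y ∈ U, ∀ z ∈ U, ¬ (tau G ω U = fm G ω U y + tau G ω (lk G U y)) →
        (tau G ω U = fm G ω U z + tau G ω (lk G U z)) → nb G y z := by
      intro y hy z hz hyb hzg
      by_contra h
      exact hyb (hprop y z hy hz h hzg)
    have hxv : x ≠ v := fun e => hcon (e ▸ hvg)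
    have hm : Mds G U {x, v} := by
      refine mds_of_priv ?_ ?_ ?_
      · intro a ha
        rcases Finset.mem_insert.1 ha with rfl | ha
        · exact hx
        · rw [Finset.mem_singleton.1 ha]; exact hv.1
      · intro u hu
        by_cases hu2 : tau G ω U = fm G ω U u + tau G ω (lk G U u)
        · exact ⟨x, by simp, hgb x hx u hu hcon hu2⟩
        · exact ⟨v, by simp, nb_symm (hgb u hu v hv.1 hu2 hvg)⟩
      · intro s hs
        rcases Finset.mem_insert.1 hs with rfl | hs
        · refine ⟨v', (mem_lk.1 hv').1, hgb _ hx _ (mem_lk.1 hv').1 hcon hv'g, ?_⟩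
          intro s' hs' hne
          rcases Finset.mem_insert.1 hs' with rfl | hs'
          · exact absurd rfl hne
          · rw [Finset.mem_singleton.1 hs']; exact (mem_lk.1 hv').2
        · rw [Finset.mem_singleton.1 hs]
          refine ⟨x', (mem_lk.1 hx').1, nb_symm (hgb _ (mem_lk.1 hx').1 _ hv.1 hx'b hvg), ?_⟩
          intro s' hs' hne
          rcases Finset.mem_insert.1 hs' with rfl | hs'
          · exact (mem_lk.1 hx').2
          · exact absurd (Finset.mem_singleton.1 hs') hne
    have hw := (hE _ hm.1).1 hm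
    rw [Finset.sum_pair hxv] at hw
    obtain ⟨tx, htx, hEx⟩ := hE.link hx
    obtain ⟨tv, htv, hEv⟩ := hE.link hv.1
    have h1 : ω x' ≤ tx := by
      obtain ⟨_, h, _⟩ := hEx.link hx'
      omega
    have hmx : IsMin ω U x := by
      refine ⟨hx, fun u hu => ?_⟩
      have h2 := hv.2 x' (mem_lk.1 hx').1
      have h3 := hv.2 u hu
      have h4 : ω v' ≤ tv := by
        obtain ⟨_, h, _⟩ := hEv.link hv'
        omega
      have h5 := hv.2 v' (mem_lk.1 hv').1
      have h6 := hv.2 x hx
      -- ω x' ≤ t - ω x = ω v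
      -- need ω x ≤ ω v : use x' in place of x
      have hx'v : x' ≠ v := fun e => hx'b (e ▸ hvg)
      have hm' : Mds G U {x', v} := by
        refine mds_of_priv ?_ ?_ ?_
        · intro a ha
          rcases Finset.mem_insert.1 ha with rfl | ha
          · exact (mem_lk.1 hx').1
          · rw [Finset.mem_singleton.1 ha]; exact hv.1
        · intro u hu
          by_cases hu2 : tau G ω U = fm G ω U u + tau G ω (lk G U u)
          · exact ⟨x', by simp, hgb x' (mem_lk.1 hx').1 u hu hx'b hu2⟩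
          · exact ⟨v, by simp, nb_symm (hgb u hu v hv.1 hu2 hvg)⟩
        · intro s hs
          rcases Finset.mem_insert.1 hs with rfl | hs
          · refine ⟨v', (mem_lk.1 hv').1,
              hgb _ (mem_lk.1 hx').1 _ (mem_lk.1 hv').1 hx'b hv'g, ?_⟩
            intro s' hs' hne
            rcases Finset.mem_insert.1 hs' with rfl | hs'
            · exact absurd rfl hne
            · rw [Finset.mem_singleton.1 hs']; exact (mem_lk.1 hv').2
          · rw [Finset.mem_singleton.1 hs]
            refine ⟨x, hx, nb_symm (hgb _ hx _ hv.1 hcon hvg), ?_⟩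
            intro s' hs' hne
            rcases Finset.mem_insert.1 hs' with rfl | hs'
            · exact fun h => (mem_lk.1 hx').2 (nb_symm h)
            · exact absurd (Finset.mem_singleton.1 hs') hne
      have hw' := (hE _ hm'.1).1 hm'
      rw [Finset.sum_pair hx'v] at hw'
      omega
    exact hcon (hmin x hmx)

include hω in
theorem fm_linkS {U : Finset V} {t : ℕ} (hE : EqS G ω U t) {J : Finset V} (hJU : J ⊆ U)
    (hJ : Ind G J) {x : V} (hx : x ∈ lkS G U J) : fm G ω (lkS G U J) x = fm G ω U x := by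
  induction J using Finset.induction_on generalizing x with
  | empty => rw [lkS_empty]
  | insert j J hj ih =>
    have hJU' := (Finset.subset_insert _ _).trans hJU
    have hJ' := hJ.subset (Finset.subset_insert _ _)
    obtain ⟨t', _, hE'⟩ := hE.linkS hJU' hJ'
    have hjl : j ∈ lkS G U J := by
      refine mem_lkS.2 ⟨hJU (Finset.mem_insert_self _ _), fun a ha => ?_⟩
      exact hJ a (Finset.mem_insert_of_mem ha) j (Finset.mem_insert_self _ _) (fun e => hj (e ▸ ha))
    rw [lkS_insert] at hx ⊢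
    rw [fm_link hω hE' hjl hx, ih hJU' hJ' (lk_subset _ _ hx)]

include hω in
theorem tau_splitS {U : Finset V} {t : ℕ} (hE : EqS G ω U t) {J : Finset V} (hJU : J ⊆ U)
    (hJ : Ind G J) : tau G ω U = ∑ j ∈ J, fm G ω U j + tau G ω (lkS G U J) := by
  induction J using Finset.induction_on with
  | empty => rw [lkS_empty]; simp
  | insert j J hj ih =>
    have hJU' := (Finset.subset_insert _ _).trans hJU
    have hJ' := hJ.subset (Finset.subset_insert _ _)
    obtain ⟨t', _, hE'⟩ := hE.linkS hJU' hJ'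
    have hjl : j ∈ lkS G U J := by
      refine mem_lkS.2 ⟨hJU (Finset.mem_insert_self _ _), fun a ha => ?_⟩
      exact hJ a (Finset.mem_insert_of_mem ha) j (Finset.mem_insert_self _ _) (fun e => hj (e ▸ ha))
    rw [Finset.sum_insert hj, lkS_insert]
    have h1 := ih hJU' hJ'
    have h2 := tau_split hω hE' hjl
    rw [fm_linkS hω hE hJU' hJ' hjl] at h2
    rw [h1, h2]
    abel

include hω in
theorem sum_fm_le {U : Finset V} {t : ℕ} (hE : EqS G ω U t) {J : Finset V} (hJU : J ⊆ U)
    (hJ : Ind G J) : ∑ j ∈ J, fm G ω U j ≤ tau G ω U := by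
  rw [tau_splitS hω hE hJU hJ]
  exact Multiset.le_add_right _ _

include hω in
theorem fm_le {U : Finset V} {t : ℕ} (hE : EqS G ω U t) {x : V} (hx : x ∈ U) :
    fm G ω U x ≤ tau G ω U := by
  rw [tau_split hω hE hx]
  exact Multiset.le_add_right _ _

include hω in
theorem sum_fm_mis {U : Finset V} {t : ℕ} (hE : EqS G ω U t) {D : Finset V} (hD : MIS G U D) :
    ∑ d ∈ D, fm G ω U d = tau G ω U := by
  rw [tau_splitS hω hE hD.1 hD.2.1]
  have : lkS G U D = ∅ := by
    refine Finset.eq_empty_of_forall_notMem fun x hx => ?_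
    obtain ⟨s, hs, h⟩ := hD.2.2 x (mem_lkS.1 hx).1
    exact (mem_lkS.1 hx).2 s hs h
  rw [this, tau_empty, add_zero]

include hω in
theorem tau_mem {U : Finset V} {t : ℕ} (hE : EqS G ω U t) {l : ℕ} (hl : l ∈ tau G ω U) :
    ∃ e ∈ U, fm G ω U e = {l} := by
  induction U using Finset.strongInduction generalizing t with
  | H U ih =>
    by_cases h : U.Nonempty
    · obtain ⟨v, hv, htau⟩ := tau_unfold (G := G) (ω := ω) h
      rw [htau] at hl
      rcases Multiset.mem_cons.1 hl with rfl | hl
      · exact ⟨v, hv.1, fm_min hω hE hv⟩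
      · obtain ⟨t', _, hE'⟩ := hE.link hv.1
        obtain ⟨e, he, h1⟩ := ih (lk G U v)
          ⟨lk_subset U v, fun h => not_mem_lk_self U v (h hv.1)⟩ hE' hl
        refine ⟨e, lk_subset _ _ he, ?_⟩
        rw [← fm_link hω hE hv.1 he, h1]
    · rw [Finset.not_nonempty_iff_eq_empty.1 h, tau_empty] at hl
      exact absurd hl (Multiset.notMem_zero _)

end Pool.Agent.H692R2.Equi
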