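import Pool.Agent.H692R2.Eq2

/-!
# Equidominating structures: the main induction
-/

namespace Pool.Agent.H692R2.Equi

open Finset Classical

variable {V : Type*} {G : SimpleGraph V} {ω : V → ℕ}

/-- exchanging two sets of equal weight -/
theorem EqS.swap {U D A B : Finset V} {t : ℕ} (h : EqS G ω U t) (hD : Mds G U D) (hA : A ⊆ D)
    (hB : B ⊆ U) (hdis : Disjoint (D \ A) B) (hw : ∑ a ∈ A, ω a = ∑ b ∈ B, ω b) :
    Mds G U ((D \ A) ∪ B) := by
  refine (h _ (Finset.union_subset (Finset.sdiff_subset.trans hD.1) hB)).2 ?_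
  rw [Finset.sum_union hdis, ← hw, Finset.sum_sdiff hA]
  exact (h D hD.1).1 hD

theorem EqS.swap1 {U D : Finset V} {t : ℕ} (h : EqS G ω U t) (hD : Mds G U D) {d e : V}
    (hd : d ∈ D) (he : e ∈ U) (hed : e ∉ D) (hw : ω e = ω d) :
    Mds G U (insert e (D.erase d)) := by
  have hm := h.swap (A := {d}) (B := {e}) hD (by simpa using hd) (by simpa using he)
    (by simp [hed]) (by simp [hw])
  have : insert e (D.erase d) = (D \ {d}) ∪ {e} := by
    ext x
    simp only [Finset.mem_insert, Finset.mem_erase, Finset.mem_union, Finset.mem_sdiff,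
      Finset.mem_singleton]
    tauto
  rw [this]; exact hm

/-- the situation of the induction step: every proper link has a good set of representatives -/
structure Ctx (G : SimpleGraph V) (ω : V → ℕ) (U : Finset V) (t : ℕ) (S : V → Finset V) : Prop where
  hω : ∀ v, 0 < ω v
  hE : EqS G ω U t
  mis : ∀ z ∈ U, MIS G (lk G U z) (S z)
  col : ∀ z ∈ U, ∀ s ∈ S z, ∃ l, fm G ω U s = {l} ∧
    ∀ y ∈ U, nb G s y → nb G z y ∨ l ∈ fm G ω U y

namespace Ctx

variable {U : Finset V} {t : ℕ} {S : V → Finset V} (C : Ctx G ω U t S)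

include C

theorem S_sub {z s : V} (hz : z ∈ U) (hs : s ∈ S z) : s ∈ U ∧ ¬ nb G z s :=
  mem_lk.1 ((C.mis z hz).1 hs)

theorem col' {z s : V} {l : ℕ} (hz : z ∈ U) (hs : s ∈ S z) (hl : fm G ω U s = {l}) :
    ∀ y ∈ U, nb G s y → nb G z y ∨ l ∈ fm G ω U y := by
  obtain ⟨l', hl', h⟩ := C.col z hz s hs
  have : l' = l := by
    rw [hl] at hl'
    exact (Multiset.singleton_inj.1 hl').symm
  rw [← this]; exact h

theorem wt {e : V} {l : ℕ} (he : e ∈ U) (hl : fm G ω U e = {l}) : ω e = l := by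
  rw [← fm_sum C.hω C.hE he, hl, Multiset.sum_singleton]

theorem a {z : V} {l : ℕ} (hz : z ∈ U)
    (hlt : Multiset.count l (fm G ω U z) < Multiset.count l (tau G ω U)) : ∃ e ∈ S z, fm G ω U e = {l} := by
  have h1 := tau_split C.hω C.hE hz
  have h2 : l ∈ tau G ω (lk G U z) := by
    rw [← Multiset.count_pos]
    rw [h1, Multiset.count_add] at hlt
    omega
  obtain ⟨t', _, hE'⟩ := C.hE.link hz
  rw [← sum_fm_mis C.hω hE' (C.mis z hz), Multiset.mem_sum] at h2
  obtain ⟨e, he, hle⟩ := h2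
  rw [fm_link C.hω C.hE hz ((C.mis z hz).1 he)] at hle
  obtain ⟨l', hl', _⟩ := C.col z hz e he
  rw [hl', Multiset.mem_singleton] at hle
  exact ⟨e, he, by rw [hl', hle]⟩

theorem count_add_le {x y : V} (hx : x ∈ U) (hy : y ∈ U) (hxy : ¬ nb G x y) (l : ℕ) :
    Multiset.count l (fm G ω U x) + Multiset.count l (fm G ω U y) ≤ Multiset.count l (tau G ω U) := by
  have hne : x ≠ y := fun e => hxy (e ▸ nb_refl x)
  have h1 := sum_fm_le C.hω C.hE (J := {x, y}) (by
    intro a ha
    rcases Finset.mem_insert.1 ha with rfl | ha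
    · exact hx
    · rw [Finset.mem_singleton.1 ha]; exact hy) (ind_insert (ind_singleton y) (by
      intro z hz
      rw [Finset.mem_singleton.1 hz]; exact hxy))
  rw [Finset.sum_pair hne] at h1
  have := Multiset.count_le_of_le l h1
  rwa [Multiset.count_add] at this

theorem count_le {x : V} (hx : x ∈ U) (l : ℕ) :
    Multiset.count l (fm G ω U x) ≤ Multiset.count l (tau G ω U) :=
  Multiset.count_le_of_le l (fm_le C.hω C.hE hx)

/-- a full vertex of colour `l` is adjacent to all vertices of colour `l` -/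
theorem full_nb {x y : V} {l : ℕ} (hx : x ∈ U) (hy : y ∈ U)
    (hfull : Multiset.count l (tau G ω U) ≤ Multiset.count l (fm G ω U x)) (hl : l ∈ fm G ω U y) :
    nb G x y := by
  by_contra h
  have h1 := C.count_add_le hx hy h l
  have h2 := Multiset.count_pos.2 hl
  omega

theorem b {z x : V} {l : ℕ} (hz : z ∈ U) (hx : x ∈ lk G U z) (hl : l ∈ fm G ω U x) :
    ∃ e ∈ S z, nb G e x ∧ fm G ω U e = {l} := by
  obtain ⟨t', _, hE'⟩ := C.hE.link hz
  have hfx : fm G ω (lk G U z) x = fm G ω U x := fm_link C.hω C.hE hz hx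
  have hM := C.mis z hz
  -- compare `x` with the representatives
  have hJ : Ind G (insert x ((S z).filter (fun s => ¬ nb G x s))) :=
    ind_insert (hM.2.1.subset (Finset.filter_subset _ _)) (fun y hy => (Finset.mem_filter.1 hy).2)
  have hJU : insert x ((S z).filter (fun s => ¬ nb G x s)) ⊆ lk G U z :=
    Finset.insert_subset hx ((Finset.filter_subset _ _).trans hM.1)
  have h1 := sum_fm_le C.hω hE' hJU hJ
  rw [← sum_fm_mis C.hω hE' hM, Finset.sum_insert (by simp [nb_refl]),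
    ← Finset.sum_filter_add_sum_filter_not (S z) (fun s => nb G x s)] at h1
  have h2 : fm G ω (lk G U z) x ≤ ∑ s ∈ (S z).filter (fun s => nb G x s), fm G ω (lk G U z) s :=
    le_of_add_le_add_right h1
  rw [← hfx] at hl
  have h3 := Multiset.mem_of_le h2 hl
  rw [Multiset.mem_sum] at h3
  obtain ⟨e, he, hle⟩ := h3
  rw [Finset.mem_filter] at he
  rw [fm_link C.hω C.hE hz (hM.1 he.1)] at hle
  obtain ⟨l', hl', _⟩ := C.col z hz e he.1
  rw [hl', Multiset.mem_singleton] at hle
  exact ⟨e, he.1, nb_symm he.2, by rw [hl', hle]⟩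

theorem b' {x : V} {l : ℕ} (hx : x ∈ U) (hl : l ∈ fm G ω U x) : ∃ e ∈ U, nb G e x ∧ fm G ω U e = {l} := by
  by_cases h : lk G U x = ∅
  · rw [fm_univ h] at hl
    obtain ⟨e, he, hle⟩ := tau_mem C.hω C.hE hl
    refine ⟨e, he, ?_, hle⟩
    by_contra hn
    have : e ∈ lk G U x := mem_lk.2 ⟨he, fun hh => hn (nb_symm hh)⟩
    rw [h] at this
    exact absurd this (Finset.notMem_empty _)
  · obtain ⟨z, hz⟩ := Finset.nonempty_iff_ne_empty.2 h
    obtain ⟨e, he, h1, h2⟩ := C.b (mem_lk.1 hz).1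
      (mem_lk.2 ⟨hx, fun hh => (mem_lk.1 hz).2 (nb_symm hh)⟩) hl
    exact ⟨e, (C.S_sub (mem_lk.1 hz).1 he).1, h1, h2⟩

/-- non-adjacent vertices of equal weight are false twins -/
theorem ft {e e' y : V} (he : e ∈ U) (he' : e' ∈ U) (hw : ω e = ω e') (hn : ¬ nb G e e')
    (hy : y ∈ U) (hey : nb G e y) (hne : y ≠ e) : nb G e' y := by
  by_contra hcon
  have hee : e ≠ e' := fun h => hn (h ▸ nb_refl e)
  have hye' : y ≠ e' := fun h => hcon (h ▸ nb_refl _)
  obtain ⟨D, hD, hM⟩ := exists_mis (G := G) (U := U) (J := {y, e'}) (by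
    intro a ha
    rcases Finset.mem_insert.1 ha with rfl | ha
    · exact hy
    · rw [Finset.mem_singleton.1 ha]; exact he') (ind_insert (ind_singleton e') (by
      intro z hz
      rw [Finset.mem_singleton.1 hz]
      exact fun h => hcon (nb_symm h)))
  have hyD : y ∈ D := hD (by simp)
  have he'D : e' ∈ D := hD (by simp)
  have heD : e ∉ D := fun h => hM.2.1 e h y hyD (fun h => hne h.symm) hey
  have hm := C.hE.swap1 hM.mds he'D he heD hw
  obtain ⟨r, hr, hre⟩ := hm.2.1 e' he'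
  rcases Finset.mem_insert.1 hr with rfl | hr
  · exact hn hre
  · exact hM.2.1 r (Finset.mem_of_mem_erase hr) e' he'D (Finset.ne_of_mem_erase hr) hre

theorem ftl {e e' y : V} {l : ℕ} (he : e ∈ U) (he' : e' ∈ U) (hl : fm G ω U e = {l}) (hl' : fm G ω U e' = {l})
    (hn : ¬ nb G e e') (hy : y ∈ U) (hey : nb G e y) (hne : y ≠ e) : nb G e' y :=
  C.ft he he' (by rw [C.wt he hl, C.wt he' hl']) hn hy hey hne

theorem c {e : V} {l : ℕ} (he : e ∈ U) (hl : fm G ω U e = {l})
    (hT : 2 ≤ Multiset.count l (tau G ω U)) : ∃ e' ∈ U, fm G ω U e' = {l} ∧ ¬ nb G e e' := by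
  obtain ⟨e', he', h1⟩ := C.a he (l := l) (by rw [hl, Multiset.count_singleton_self]; omega)
  exact ⟨e', (C.S_sub he he').1, h1, (C.S_sub he he').2⟩

theorem dp {a e y : V} {l : ℕ} (hT : 2 ≤ Multiset.count l (tau G ω U)) (ha : a ∈ U)
    (hfa : fm G ω U a ≠ {l}) (he : e ∈ U) (hfe : fm G ω U e = {l}) (hea : nb G e a) (hy : y ∈ U)
    (hfy : fm G ω U y = {l}) : nb G y a := by
  by_contra hya
  obtain ⟨e', he', hfe', hee'⟩ := C.c he hfe hT
  obtain ⟨y', hy', hfy', hyy'⟩ := C.c hy hfy hT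
  have hae : a ≠ e := fun h => hfa (h ▸ hfe)
  have hae' : a ≠ e' := fun h => hfa (h ▸ hfe')
  have hay : a ≠ y := fun h => hfa (h ▸ hfy)
  have hay' : a ≠ y' := fun h => hfa (h ▸ hfy')
  have hy'a : ¬ nb G y' a := fun h =>
    hya (C.ftl hy' hy hfy' hfy (fun hh => hyy' (nb_symm hh)) ha h hay')
  have he'a : nb G e' a := C.ftl he he' hfe hfe' hee' ha hea hae
  have hne1 : y ≠ y' := fun h => hyy' (h ▸ nb_refl y)
  have hne2 : e ≠ e' := fun h => hee' (h ▸ nb_refl e)
  obtain ⟨D, hD, hM⟩ := exists_mis (G := G) (U := U) (J := {a, y, y'}) (by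
    intro x hx
    simp only [Finset.mem_insert, Finset.mem_singleton] at hx
    rcases hx with rfl | rfl | rfl
    · exact ha
    · exact hy
    · exact hy') (by
      refine ind_insert (ind_insert (ind_singleton y') ?_) ?_
      · intro z hz
        rw [Finset.mem_singleton.1 hz]; exact hyy'
      · intro z hz
        simp only [Finset.mem_insert, Finset.mem_singleton] at hz
        rcases hz with rfl | rfl
        · exact fun h => hya (nb_symm h)
        · exact fun h => hy'a (nb_symm h))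
  have haD : a ∈ D := hD (by simp)
  have hyD : y ∈ D := hD (by simp)
  have hy'D : y' ∈ D := hD (by simp)
  have heD : e ∉ D := fun h => hM.2.1 e h a haD (fun h => hae h.symm) hea
  have he'D : e' ∉ D := fun h => hM.2.1 e' h a haD (fun h => hae' h.symm) he'a
  have hm := C.hE.swap (A := {y, y'}) (B := {e, e'}) hM.mds (by
      intro x hx
      simp only [Finset.mem_insert, Finset.mem_singleton] at hx
      rcases hx with rfl | rfl
      · exact hyD
      · exact hy'D) (by
      intro x hx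
      simp only [Finset.mem_insert, Finset.mem_singleton] at hx
      rcases hx with rfl | rfl
      · exact he
      · exact he') (by
      rw [Finset.disjoint_right]
      intro x hx hx2
      simp only [Finset.mem_insert, Finset.mem_singleton] at hx
      rcases hx with rfl | rfl
      · exact heD (Finset.mem_sdiff.1 hx2).1
      · exact he'D (Finset.mem_sdiff.1 hx2).1) (by
      rw [Finset.sum_pair hne1, Finset.sum_pair hne2, C.wt hy hfy, C.wt hy' hfy', C.wt he hfe,
        C.wt he' hfe'])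
  have heD' : e ∈ (D \ {y, y'}) ∪ {e, e'} := by simp
  have he'D' : e' ∈ (D \ {y, y'}) ∪ {e, e'} := by simp
  have haD' : a ∈ (D \ {y, y'}) ∪ {e, e'} := by simp [haD, hay, hay']
  obtain ⟨p, hp, hep, hpr⟩ := hm.priv heD'
  have hpe : p ≠ e := by
    rintro rfl
    exact hpr a haD' hae (nb_symm hea)
  exact hpr e' he'D' (fun h => hne2 h.symm) (C.ftl he he' hfe hfe' hee' hp hep hpe)

theorem full_of_nb {a e : V} {l : ℕ} (hT : 2 ≤ Multiset.count l (tau G ω U)) (ha : a ∈ U)
    (hfa : fm G ω U a ≠ {l}) (he : e ∈ U) (hfe : fm G ω U e = {l}) (hea : nb G e a) :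
    Multiset.count l (tau G ω U) ≤ Multiset.count l (fm G ω U a) := by
  by_contra hcon
  obtain ⟨y, hy, hfy⟩ := C.a ha (l := l) (by omega)
  exact (C.S_sub ha hy).2 (nb_symm (C.dp hT ha hfa he hfe hea (C.S_sub ha hy).1 hfy))

/-- colour classes of multiplicity at least two consist of simple vertices -/
theorem d {e y : V} {l : ℕ} (hT : 2 ≤ Multiset.count l (tau G ω U)) (he : e ∈ U)
    (hfe : fm G ω U e = {l}) (hy : y ∈ U) (hey : nb G e y) : l ∈ fm G ω U y := by
  by_cases hfy : fm G ω U y = {l}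
  · rw [hfy]; exact Multiset.mem_singleton_self l
  · rw [← Multiset.count_pos]
    have := C.full_of_nb hT hy hfy he hfe hey
    omega

theorem e_full {a : V} {l : ℕ} (hT : 2 ≤ Multiset.count l (tau G ω U)) (ha : a ∈ U)
    (hla : l ∈ fm G ω U a) (hfa : fm G ω U a ≠ {l}) :
    Multiset.count l (tau G ω U) ≤ Multiset.count l (fm G ω U a) := by
  obtain ⟨e, he, hea, hfe⟩ := C.b' ha hla
  exact C.full_of_nb hT ha hfa he hfe hea

theorem good {d : V} (hd : d ∈ U) (h : ∀ l, fm G ω U d = {l} → Multiset.count l (tau G ω U) ≤ 1) :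
    ∀ l ∈ fm G ω U d, Multiset.count l (tau G ω U) ≤ Multiset.count l (fm G ω U d) := by
  intro l hl
  by_cases hT : 2 ≤ Multiset.count l (tau G ω U)
  · refine C.e_full hT hd hl fun h' => ?_
    have := h l h'
    omega
  · have := Multiset.count_pos.2 hl
    omega

/-- the set `E` of representatives which can replace a vertex -/
theorem repl {z d : V} (hz : z ∈ U) (hd : d ∈ U) (hzd : ¬ nb G z d)
    (hgood : ∀ l ∈ fm G ω U d, Multiset.count l (tau G ω U) ≤ Multiset.count l (fm G ω U d)) :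
    ∃ E : Finset V, E ⊆ U ∧ Ind G E ∧ (∀ e ∈ E, ¬ nb G z e) ∧ ∑ e ∈ E, ω e = ω d ∧
      (∀ e ∈ E, ∃ l ∈ fm G ω U d, fm G ω U e = {l} ∧ ∀ p ∈ U, nb G e p → nb G z p ∨ l ∈ fm G ω U p) ∧
      (∀ e ∈ E, ∀ p ∈ U, nb G e p → nb G z p ∨ nb G d p) ∧
      ∀ l ∈ fm G ω U d, ∃ e ∈ E, fm G ω U e = {l} := by
  have hM := C.mis z hz
  have hdl : d ∈ lk G U z := mem_lk.2 ⟨hd, hzd⟩
  have hcol : ∀ e ∈ (S z).filter (fun s => nb G s d), ∃ l ∈ fm G ω U d, fm G ω U e = {l} ∧
      ∀ p ∈ U, nb G e p → nb G z p ∨ l ∈ fm G ω U p := by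
    intro e he
    rw [Finset.mem_filter] at he
    obtain ⟨l, hl, h⟩ := C.col z hz e he.1
    exact ⟨l, (h d hd he.2).resolve_left hzd, hl, h⟩
  have hcov : ∀ e ∈ (S z).filter (fun s => nb G s d), ∀ p ∈ U, nb G e p → nb G z p ∨ nb G d p := by
    intro e he p hp hep
    obtain ⟨l, hl, _, h⟩ := hcol e he
    rcases h p hp hep with h1 | h1
    · exact Or.inl h1
    · exact Or.inr (C.full_nb hd hp (hgood l hl) h1)
  refine ⟨(S z).filter (fun s => nb G s d), ?_, hM.2.1.subset (Finset.filter_subset _ _), ?_, ?_,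
    hcol, hcov, ?_⟩
  · exact fun s hs => (C.S_sub hz (Finset.mem_filter.1 hs).1).1
  · exact fun s hs => (C.S_sub hz (Finset.mem_filter.1 hs).1).2
  · obtain ⟨t', _, hE'⟩ := C.hE.link hz
    have hM' : MIS G (lk G U z) (insert d ((S z).filter (fun s => ¬ nb G s d))) := by
      refine ⟨Finset.insert_subset hdl ((Finset.filter_subset _ _).trans hM.1),
        ind_insert (hM.2.1.subset (Finset.filter_subset _ _))
          (fun y hy h => (Finset.mem_filter.1 hy).2 (nb_symm h)), fun u hu => ?_⟩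
      obtain ⟨s, hs, hsu⟩ := hM.2.2 u hu
      by_cases hsd : nb G s d
      · rcases hcov s (Finset.mem_filter.2 ⟨hs, hsd⟩) u (mem_lk.1 hu).1 hsu with h | h
        · exact absurd h (mem_lk.1 hu).2
        · exact ⟨d, Finset.mem_insert_self _ _, h⟩
      · exact ⟨s, Finset.mem_insert_of_mem (Finset.mem_filter.2 ⟨hs, hsd⟩), hsu⟩
    have h1 := hE'.mis hM'
    have h2 := hE'.mis hM
    rw [Finset.sum_insert (by simp [nb_refl])] at h1
    rw [← Finset.sum_filter_add_sum_filter_not (S z) (fun s => nb G s d)] at h2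
    omega
  · intro l hl
    obtain ⟨e, he, hed, hfe⟩ := C.b hz hdl hl
    exact ⟨e, Finset.mem_filter.2 ⟨he, hed⟩, hfe⟩

/-- exchange of `d` by representatives, preserved minimality -/
theorem swapE {D E : Finset V} {d : V} (hD : Mds G U D) (hd : d ∈ D) (hEU : E ⊆ U)
    (hw : ∑ e ∈ E, ω e = ω d) (hdis : ∀ e ∈ E, e ∈ D → e = d) :
    Mds G U ((D \ {d}) ∪ E) := by
  refine C.hE.swap hD (by simpa using hd) hEU ?_ (by simp [hw])
  rw [Finset.disjoint_right]
  intro e he he2
  rw [Finset.mem_sdiff, Finset.mem_singleton] at he2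
  exact he2.2 (hdis e he he2.1)

theorem X2 {D : Finset V} (hD : Mds G U D) {d d2 : V} {m : ℕ} (hd : d ∈ D) (hd2 : d2 ∈ D)
    (hne : d ≠ d2) (hmd : m ∈ fm G ω U d)
    (hgood : ∀ l ∈ fm G ω U d, Multiset.count l (tau G ω U) ≤ Multiset.count l (fm G ω U d))
    (hfull2 : Multiset.count m (tau G ω U) ≤ Multiset.count m (fm G ω U d2)) :
    ∀ z ∈ D, nb G d z := by
  intro z hz
  by_contra hdz
  have hzd : ¬ nb G z d := fun h => hdz (nb_symm h)
  have hzU := hD.1 hz
  have hdU := hD.1 hd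
  obtain ⟨E, hEU, hEI, hEz, hEw, hEc, hEn, hEm⟩ := C.repl hzU hdU hzd hgood
  have hdis : ∀ e ∈ E, e ∈ D → e = d := by
    intro e he heD
    by_contra hed
    obtain ⟨p, hp, hep, hpr⟩ := hD.priv heD
    rcases hEn e he p hp hep with h | h
    · exact hpr z hz (fun hh => hEz e he (hh ▸ nb_refl z)) h
    · exact hpr d hd (fun hh => hed hh.symm) h
  have hm := C.swapE hD hd hEU hEw hdis
  obtain ⟨e, he, hfe⟩ := hEm m hmd
  have hee2 : e ≠ d2 := by
    rintro rfl
    exact hne (hdis e he hd2).symm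
  obtain ⟨l, hl, hfe', hcole⟩ := hEc e he
  have hlm : l = m := by
    rw [hfe] at hfe'
    exact (Multiset.singleton_inj.1 hfe').symm
  subst hlm
  have heD' : e ∈ (D \ {d}) ∪ E := Finset.mem_union_right _ he
  obtain ⟨p, hp, hep, hpr⟩ := hm.priv heD'
  rcases hcole p hp hep with h | h
  · refine hpr z (Finset.mem_union_left _ (Finset.mem_sdiff.2 ⟨hz, ?_⟩))
      (fun hh => hEz e he (hh ▸ nb_refl z)) h
    rw [Finset.mem_singleton]
    exact fun hh => hdz (by rw [hh]; exact nb_refl d)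
  · refine hpr d2 (Finset.mem_union_left _ (Finset.mem_sdiff.2 ⟨hd2, ?_⟩))
      (fun hh => hee2 hh.symm) (C.full_nb (hD.1 hd2) hp hfull2 h)
    rw [Finset.mem_singleton]
    exact fun hh => hne hh.symm

omit C in
theorem full_one {x : V} {m : ℕ} (hT : Multiset.count m (tau G ω U) = 1) (hm : m ∈ fm G ω U x) :
    Multiset.count m (tau G ω U) ≤ Multiset.count m (fm G ω U x) := by
  rw [hT]; exact Multiset.count_pos.2 hm

theorem X2' {D : Finset V} (hD : Mds G U D) {d d2 : V} {m : ℕ}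
    (hT : Multiset.count m (tau G ω U) = 1) (hd : d ∈ D) (hd2 : d2 ∈ D)
    (hne : d ≠ d2) (hfd : fm G ω U d = {m}) (hmd2 : m ∈ fm G ω U d2) : ∀ z ∈ D, m ∈ fm G ω U z := by
  intro z hz
  by_contra hmz
  have hzU := hD.1 hz
  have hmd : m ∈ fm G ω U d := by rw [hfd]; exact Multiset.mem_singleton_self m
  obtain ⟨v, hv, hfv⟩ := C.a hzU (l := m) (by
    rw [hT, Multiset.count_eq_zero_of_notMem hmz]; exact Nat.one_pos)
  have hvU := (C.S_sub hzU hv).1
  have hzv := (C.S_sub hzU hv).2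
  have hzv' : z ≠ v := fun h => hzv (h ▸ nb_refl z)
  have hcol := C.col' hzU hv hfv
  by_cases hvD : v ∈ D
  · obtain ⟨w, hw, hwv, hmw⟩ : ∃ w ∈ D, w ≠ v ∧ m ∈ fm G ω U w := by
      by_cases hdv : d = v
      · exact ⟨d2, hd2, fun h => hne (hdv.trans h.symm), hmd2⟩
      · exact ⟨d, hd, hdv, hmd⟩
    obtain ⟨p, hp, hvp, hpr⟩ := hD.priv hvD
    rcases hcol p hp hvp with h | h
    · exact hpr z hz hzv' h
    · exact hpr w hw hwv (C.full_nb (hD.1 hw) hp (full_one hT hmw) h)
  · have hm := C.hE.swap1 hD hd hvU hvD (by rw [C.wt hvU hfv, C.wt (hD.1 hd) hfd])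
    have hzd : z ≠ d := fun h => hmz (h ▸ hmd)
    obtain ⟨p, hp, hvp, hpr⟩ := hm.priv (Finset.mem_insert_self v _)
    rcases hcol p hp hvp with h | h
    · exact hpr z (Finset.mem_insert_of_mem (Finset.mem_erase.2 ⟨hzd, hz⟩)) hzv' h
    · exact hpr d2 (Finset.mem_insert_of_mem (Finset.mem_erase.2 ⟨fun h => hne h.symm, hd2⟩))
        (fun h => hvD (h ▸ hd2)) (C.full_nb (hD.1 hd2) hp (full_one hT hmd2) h)

theorem card_le_count {J : Finset V} (hJU : J ⊆ U) (hJ : Ind G J) {l : ℕ}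
    (hl : ∀ j ∈ J, fm G ω U j = {l}) : J.card ≤ Multiset.count l (tau G ω U) := by
  have h1 := Multiset.count_le_of_le l (sum_fm_le C.hω C.hE hJU hJ)
  rw [Finset.sum_congr rfl hl, Finset.sum_const, Multiset.count_nsmul,
    Multiset.count_singleton_self] at h1
  simpa using h1

/-- a minimal dominating set which is heavy for a colour has two full vertices of this colour -/
theorem heavy {D : Finset V} (hD : Mds G U D) {m : ℕ}
    (hh : Multiset.count m (tau G ω U) < Multiset.count m (∑ d ∈ D, fm G ω U d)) :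
    ∃ d ∈ D, ∃ d2 ∈ D, d ≠ d2 ∧ m ∈ fm G ω U d ∧ m ∈ fm G ω U d2 ∧
      Multiset.count m (tau G ω U) ≤ Multiset.count m (fm G ω U d) ∧
      Multiset.count m (tau G ω U) ≤ Multiset.count m (fm G ω U d2) ∧
      (fm G ω U d = {m} → Multiset.count m (tau G ω U) ≤ 1) := by
  rw [Multiset.count_sum'] at hh
  by_cases hT : 2 ≤ Multiset.count m (tau G ω U)
  · -- multiplicity at least two
    have hnot : ∀ e ∈ D, fm G ω U e = {m} → ∀ a ∈ D, m ∈ fm G ω U a → fm G ω U a ≠ {m} → False := by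
      intro e he hfe a ha hma hfa
      obtain ⟨p, hp, hep, hpr⟩ := hD.priv he
      have h1 := C.d hT (hD.1 he) hfe hp hep
      exact hpr a ha (fun h => hfa (h ▸ hfe))
        (C.full_nb (hD.1 ha) hp (C.e_full hT (hD.1 ha) hma hfa) h1)
    by_cases hB : ∃ a ∈ D, m ∈ fm G ω U a ∧ fm G ω U a ≠ {m}
    · obtain ⟨a, ha, hma, hfa⟩ := hB
      have hex : ∃ b ∈ D, b ≠ a ∧ m ∈ fm G ω U b := by
        by_contra hcon
        push Not at hcon
        have : ∑ d ∈ D, Multiset.count m (fm G ω U d) = Multiset.count m (fm G ω U a) := by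
          refine Finset.sum_eq_single a ?_ ?_
          · intro b hb hba
            exact Multiset.count_eq_zero_of_notMem (hcon b hb hba)
          · intro h; exact absurd ha h
        rw [this] at hh
        have := C.count_le (hD.1 ha) m
        omega
      obtain ⟨b, hb, hba, hmb⟩ := hex
      have hfb : fm G ω U b ≠ {m} := fun h => hnot b hb h a ha hma hfa
      exact ⟨a, ha, b, hb, fun h => hba h.symm, hma, hmb, C.e_full hT (hD.1 ha) hma hfa,
        C.e_full hT (hD.1 hb) hmb hfb, fun h => absurd h hfa⟩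
    · exfalso
      push Not at hB
      have hsum : ∑ d ∈ D, Multiset.count m (fm G ω U d) = (D.filter (fun d => fm G ω U d = {m})).card := by
        rw [Finset.card_filter]
        refine Finset.sum_congr rfl fun d hd => ?_
        by_cases h : fm G ω U d = {m}
        · rw [if_pos h, h, Multiset.count_singleton_self]
        · rw [if_neg h]
          exact Multiset.count_eq_zero_of_notMem fun hm => h (hB d hd hm)
      rw [hsum] at hh
      obtain ⟨e1, he1⟩ : (D.filter (fun d => fm G ω U d = {m})).Nonempty := by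
        rw [← Finset.card_pos]; omega
      have he1' := Finset.mem_filter.1 he1
      obtain ⟨p, hp, hep, hpr⟩ := hD.priv he1'.1
      have hmp := C.d hT (hD.1 he1'.1) he1'.2 hp hep
      have hcard : ((D.filter (fun d => fm G ω U d = {m})).erase e1).card + 1 =
          (D.filter (fun d => fm G ω U d = {m})).card := Finset.card_erase_add_one he1
      have hmem : ∀ x ∈ (D.filter (fun d => fm G ω U d = {m})).erase e1,
          x ∈ D ∧ x ≠ e1 ∧ fm G ω U x = {m} := by
        intro x hx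
        rw [Finset.mem_erase, Finset.mem_filter] at hx
        exact ⟨hx.2.1, hx.1, hx.2.2⟩
      have hfp : fm G ω U p = {m} := by
        by_contra hfp
        have hfull := C.e_full hT hp hmp hfp
        obtain ⟨e2, he2⟩ : ((D.filter (fun d => fm G ω U d = {m})).erase e1).Nonempty := by
          rw [← Finset.card_pos]; omega
        obtain ⟨h1, h2, h3⟩ := hmem e2 he2
        exact hpr e2 h1 h2 (nb_symm (C.full_nb hp (hD.1 h1) hfull
          (by rw [h3]; exact Multiset.mem_singleton_self m)))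
      have hpn : p ∉ (D.filter (fun d => fm G ω U d = {m})).erase e1 := by
        intro h
        obtain ⟨h1, h2, _⟩ := hmem p h
        exact hpr p h1 h2 (nb_refl p)
      have hJ : Ind G (insert p ((D.filter (fun d => fm G ω U d = {m})).erase e1)) := by
        refine ind_insert ?_ ?_
        · intro x hx y hy hxy hn
          obtain ⟨hx1, hx2, hx3⟩ := hmem x hx
          obtain ⟨hy1, hy2, hy3⟩ := hmem y hy
          exact hpr y hy1 hy2 (nb_symm (C.ftl (hD.1 hx1) hp hx3 hfp (hpr x hx1 hx2) (hD.1 hy1) hn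
            (fun h => hxy h.symm)))
        · intro y hy h
          obtain ⟨hy1, hy2, _⟩ := hmem y hy
          exact hpr y hy1 hy2 (nb_symm h)
      have hJU : insert p ((D.filter (fun d => fm G ω U d = {m})).erase e1) ⊆ U := by
        refine Finset.insert_subset hp fun x hx => hD.1 (hmem x hx).1
      have := C.card_le_count hJU hJ (l := m) (by
        intro j hj
        rcases Finset.mem_insert.1 hj with rfl | hj
        · exact hfp
        · exact (hmem j hj).2.2)
      rw [Finset.card_insert_of_notMem hpn] at this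
      omega
  · -- multiplicity at most one
    have hle1 : ∀ d ∈ D, Multiset.count m (fm G ω U d) ≤ 1 := fun d hd => by
      have := C.count_le (hD.1 hd) m
      omega
    have hT1 : Multiset.count m (tau G ω U) = 1 := by
      by_contra hne
      have h0 : Multiset.count m (tau G ω U) = 0 := by omega
      have : ∑ d ∈ D, Multiset.count m (fm G ω U d) = 0 := Finset.sum_eq_zero fun d hd => by
        have := C.count_le (hD.1 hd) m
        omega
      omega
    obtain ⟨d, hd, hmd⟩ : ∃ d ∈ D, m ∈ fm G ω U d := by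
      by_contra hcon
      push Not at hcon
      have : ∑ d ∈ D, Multiset.count m (fm G ω U d) = 0 :=
        Finset.sum_eq_zero fun d hd => Multiset.count_eq_zero_of_notMem (hcon d hd)
      omega
    obtain ⟨d2, hd2, hne, hmd2⟩ : ∃ d2 ∈ D, d2 ≠ d ∧ m ∈ fm G ω U d2 := by
      by_contra hcon
      push Not at hcon
      have : ∑ d ∈ D, Multiset.count m (fm G ω U d) = Multiset.count m (fm G ω U d) := by
        refine Finset.sum_eq_single d ?_ ?_
        · intro b hb hba
          exact Multiset.count_eq_zero_of_notMem (hcon b hb hba)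
        · intro h; exact absurd hd h
      rw [this] at hh
      have := hle1 d hd
      omega
    exact ⟨d, hd, d2, hd2, fun h => hne h.symm, hmd, hmd2, full_one hT1 hmd,
      full_one hT1 hmd2, fun _ => by omega⟩

theorem X3 {D : Finset V} (hD : Mds G U D) {m : ℕ}
    (hh : Multiset.count m (tau G ω U) < Multiset.count m (∑ d ∈ D, fm G ω U d)) :
    ∃ r, Multiset.count r (tau G ω U) = 1 ∧ (∀ z ∈ D, r ∈ fm G ω U z) ∧ (∃ e ∈ D, fm G ω U e = {r}) ∧
      ∃ d ∈ D, ∃ d2 ∈ D, d ≠ d2 := by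
  obtain ⟨d, hd, d2, hd2, hne, hmd, hmd2, hfull, hfull2, hone⟩ := C.heavy hD hh
  have hdU := hD.1 hd
  have hgood : ∀ l ∈ fm G ω U d, Multiset.count l (tau G ω U) ≤ Multiset.count l (fm G ω U d) := by
    refine C.good hdU fun l hl => ?_
    have : l = m := by
      rw [hl, Multiset.mem_singleton] at hmd
      exact hmd.symm
    subst this
    exact hone hl
  obtain ⟨z, hz, hd2z, hpr⟩ := hD.priv hd2
  have hdz : ¬ nb G d z := hpr d hd hne
  have hzd : ¬ nb G z d := fun h => hdz (nb_symm h)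
  obtain ⟨E, hEU, hEI, hEz, hEw, hEc, hEn, hEm⟩ := C.repl hz hdU hzd hgood
  by_cases hdis : ∀ e ∈ E, e ∈ D → e = d
  · have hm := C.swapE hD hd hEU hEw hdis
    obtain ⟨e, he, hfe⟩ := hEm m hmd
    have heU := hEU he
    have hd2' : d2 ∈ (D \ {d}) ∪ E := Finset.mem_union_left _ (Finset.mem_sdiff.2 ⟨hd2, by
      rw [Finset.mem_singleton]; exact fun h => hne h.symm⟩)
    have he' : e ∈ (D \ {d}) ∪ E := Finset.mem_union_right _ he
    have hee2 : e ≠ d2 := by
      rintro rfl
      exact hne (hdis e he hd2).symm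
    have hT : Multiset.count m (tau G ω U) = 1 := by
      by_contra hT
      have h1 := Multiset.count_pos.2 (Multiset.mem_of_le (fm_le C.hω C.hE hdU) hmd)
      obtain ⟨p, hp, hep, hpr2⟩ := hm.priv he'
      exact hpr2 d2 hd2' (fun h => hee2 h.symm)
        (C.full_nb (hD.1 hd2) hp hfull2 (C.d (by omega) heU hfe hp hep))
    have hX2 := C.X2 hm he' hd2' hee2 (m := m) (by rw [hfe]; exact Multiset.mem_singleton_self m)
      (C.good heU fun l hl => by
        have : l = m := by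
          rw [hfe] at hl
          exact (Multiset.singleton_inj.1 hl).symm
        subst this
        omega) hfull2
    have hE1 : E = {e} := by
      refine Finset.eq_singleton_iff_unique_mem.2 ⟨he, fun e2 he2 => ?_⟩
      by_contra hne2
      exact hEI e he e2 he2 (fun h => hne2 h.symm) (hX2 e2 (Finset.mem_union_right _ he2))
    have hωd : ω d = m := by
      rw [← hEw, hE1, Finset.sum_singleton, C.wt heU hfe]
    have hfd : fm G ω U d = {m} := by
      obtain ⟨s, hs⟩ := Multiset.exists_cons_of_mem hmd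
      have h1 := fm_sum C.hω C.hE hdU
      rw [hs, Multiset.sum_cons, hωd] at h1
      have h2 := eq_zero_of_sum (m := s) (fun a ha => fm_pos C.hω U d a (by
        rw [hs]; exact Multiset.mem_cons_of_mem ha)) (by omega)
      rw [hs, h2]; rfl
    exact ⟨m, hT, C.X2' hD hT hd hd2 hne hfd hmd2, ⟨d, hd, hfd⟩, d, hd, d2, hd2, hne⟩
  · push Not at hdis
    obtain ⟨e, he, heD, hed⟩ := hdis
    obtain ⟨l, hl, hfe, _⟩ := hEc e he
    have hT : Multiset.count l (tau G ω U) = 1 := by
      by_contra hT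
      have h1 := Multiset.count_pos.2 (Multiset.mem_of_le (fm_le C.hω C.hE hdU) hl)
      obtain ⟨p, hp, hep, hpr2⟩ := hD.priv heD
      exact hpr2 d hd (fun h => hed h.symm)
        (C.full_nb hdU hp (hgood l hl) (C.d (by omega) (hD.1 heD) hfe hp hep))
    exact ⟨l, hT, C.X2' hD hT heD hd hed hfe hl, ⟨e, heD, hfe⟩, d, hd, d2, hd2, hne⟩

/-- moving a chosen vertex of colour exactly `r` into a minimal dominating set inside a clique -/
theorem move {D : Finset V} (hD : Mds G U D) {r : ℕ} (hall : ∀ z ∈ D, r ∈ fm G ω U z)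
    (hex : ∃ e ∈ D, fm G ω U e = {r}) (htwo : ∃ d ∈ D, ∃ d2 ∈ D, d ≠ d2) {v : V} (hv : v ∈ U)
    (hfv : fm G ω U v = {r}) :
    ∃ D1, Mds G U D1 ∧ v ∈ D1 ∧ (∀ z ∈ D1, r ∈ fm G ω U z) ∧ ∃ w ∈ D1, w ≠ v := by
  obtain ⟨e, he, hfe⟩ := hex
  obtain ⟨d, hd, d2, hd2, hne⟩ := htwo
  by_cases hvD : v ∈ D
  · refine ⟨D, hD, hvD, hall, ?_⟩
    by_cases h : d = v
    · exact ⟨d2, hd2, fun h' => hne (h.trans h'.symm)⟩
    · exact ⟨d, hd, h⟩
  · refine ⟨_, C.hE.swap1 hD he hv hvD (by rw [C.wt hv hfv, C.wt (hD.1 he) hfe]),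
      Finset.mem_insert_self _ _, ?_, ?_⟩
    · intro z hz
      rcases Finset.mem_insert.1 hz with rfl | hz
      · rw [hfv]; exact Multiset.mem_singleton_self r
      · exact hall z (Finset.mem_of_mem_erase hz)
    · by_cases h : d = e
      · refine ⟨d2, Finset.mem_insert_of_mem (Finset.mem_erase.2 ⟨fun h' => hne (h.trans h'.symm),
          hd2⟩), fun h' => hvD (h' ▸ hd2)⟩
      · exact ⟨d, Finset.mem_insert_of_mem (Finset.mem_erase.2 ⟨h, hd⟩), fun h' => hvD (h' ▸ hd)⟩

theorem H3 {D : Finset V} (hD : Mds G U D) {r : ℕ} (hT : Multiset.count r (tau G ω U) = 1)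
    (hall : ∀ z ∈ D, r ∈ fm G ω U z) (hex : ∃ e ∈ D, fm G ω U e = {r}) (htwo : ∃ d ∈ D, ∃ d2 ∈ D, d ≠ d2)
    {y : V} (hy : y ∈ U) (hry : r ∉ fm G ω U y) : r ≤ ω y := by
  obtain ⟨v, hv, hfv⟩ := C.a hy (l := r) (by
    rw [hT, Multiset.count_eq_zero_of_notMem hry]; exact Nat.one_pos)
  have hvU := (C.S_sub hy hv).1
  have hcol := C.col' hy hv hfv
  obtain ⟨D1, hD1, hvD1, hall1, w, hw, hwv⟩ := C.move hD hall hex htwo hvU hfv
  have hdom : Dom G U (insert y (D1.erase v)) := by
    intro u hu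
    obtain ⟨s, hs, hsu⟩ := hD1.2.1 u hu
    by_cases hsv : s = v
    · subst hsv
      rcases hcol u hu hsu with h | h
      · exact ⟨y, Finset.mem_insert_self _ _, h⟩
      · exact ⟨w, Finset.mem_insert_of_mem (Finset.mem_erase.2 ⟨hwv, hw⟩),
          C.full_nb (hD1.1 hw) hu (full_one hT (hall1 w hw)) h⟩
    · exact ⟨s, Finset.mem_insert_of_mem (Finset.mem_erase.2 ⟨hsv, hs⟩), hsu⟩
  have h1 := C.hE.le_of_dom (Finset.insert_subset hy ((Finset.erase_subset _ _).trans hD1.1)) hdom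
  have h2 := (C.hE D1 hD1.1).1 hD1
  have h3 : ∑ x ∈ D1.erase v, ω x + ω v = t := by
    rw [Finset.sum_erase_add _ _ hvD1, h2]
  have h4 : ∑ x ∈ insert y (D1.erase v), ω x ≤ ω y + ∑ x ∈ D1.erase v, ω x := by
    by_cases h : y ∈ D1.erase v
    · rw [Finset.insert_eq_of_mem h]; omega
    · rw [Finset.sum_insert h]
  rw [C.wt hvU hfv] at h3
  omega

/-- a colour of multiplicity one without simple vertex is avoided by a minimal dominating set
sitting inside the clique of another colour -/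
theorem avoid {l : ℕ} (hT : Multiset.count l (tau G ω U) = 1)
    (hbad : ¬ ∃ e ∈ U, fm G ω U e = {l} ∧ ∀ y ∈ U, nb G e y → l ∈ fm G ω U y) :
    ∃ D r, Mds G U D ∧ (∀ z ∈ D, l ∉ fm G ω U z) ∧ Multiset.count r (tau G ω U) = 1 ∧
      (∀ z ∈ D, r ∈ fm G ω U z) ∧ (∃ e ∈ D, fm G ω U e = {r}) ∧ ∃ d ∈ D, ∃ d2 ∈ D, d ≠ d2 := by
  have hd : Dom G U (U.filter (fun y => l ∉ fm G ω U y)) := by
    intro w hw
    by_cases hlw : l ∈ fm G ω U w
    · by_cases hfw : fm G ω U w = {l}
      · by_contra hcon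
        push Not at hcon
        refine hbad ⟨w, hw, hfw, fun y hy hwy => ?_⟩
        by_contra hly
        exact hcon y (Finset.mem_filter.2 ⟨hy, hly⟩) (nb_symm hwy)
      · obtain ⟨s, hs⟩ := Multiset.exists_cons_of_mem hlw
        have hs0 : s ≠ 0 := by
          rintro rfl
          exact hfw hs
        obtain ⟨r, hr⟩ := Multiset.exists_mem_of_ne_zero hs0
        have hrl : r ≠ l := by
          rintro rfl
          have h1 := C.count_le hw r
          have h2 := Multiset.count_pos.2 hr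
          rw [hs, Multiset.count_cons_self, hT] at h1
          omega
        obtain ⟨e, he, hew, hfe⟩ := C.b' hw (l := r) (by
          rw [hs]; exact Multiset.mem_cons_of_mem hr)
        refine ⟨e, Finset.mem_filter.2 ⟨he, ?_⟩, hew⟩
        rw [hfe, Multiset.mem_singleton]
        exact fun h => hrl h.symm
    · exact ⟨w, Finset.mem_filter.2 ⟨hw, hlw⟩, nb_refl w⟩
  obtain ⟨D, hDs, hD⟩ := exists_mds_subset (Finset.filter_subset _ _) hd
  have hDl : ∀ z ∈ D, l ∉ fm G ω U z := fun z hz => (Finset.mem_filter.1 (hDs hz)).2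
  have hsum : (∑ d ∈ D, fm G ω U d).sum = (tau G ω U).sum := by
    rw [tau_sum C.hω C.hE, Multiset.sum_sum, ← (C.hE D hD.1).1 hD]
    exact Finset.sum_congr rfl fun d hd => fm_sum C.hω C.hE (hD.1 hd)
  have hex : ∃ m, Multiset.count m (tau G ω U) < Multiset.count m (∑ d ∈ D, fm G ω U d) := by
    by_contra hcon
    push Not at hcon
    have hle : ∑ d ∈ D, fm G ω U d ≤ tau G ω U := Multiset.le_iff_count.2 hcon
    obtain ⟨s, hs⟩ := Multiset.le_iff_exists_add.1 hle
    have hs0 : s = 0 := by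
      refine eq_zero_of_sum (fun a ha => tau_pos (G := G) C.hω U a ?_) ?_
      · rw [hs]; exact Multiset.mem_add.2 (Or.inr ha)
      · rw [hs, Multiset.sum_add] at hsum
        omega
    rw [hs0, add_zero] at hs
    rw [hs, Multiset.count_sum'] at hT
    have : ∑ d ∈ D, Multiset.count l (fm G ω U d) = 0 :=
      Finset.sum_eq_zero fun d hd => Multiset.count_eq_zero_of_notMem (hDl d hd)
    omega
  obtain ⟨m, hm⟩ := hex
  obtain ⟨r, h1, h2, h3, h4⟩ := C.X3 hD hm
  exact ⟨D, r, hD, hDl, h1, h2, h3, h4⟩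

/-- no bad colours -/
theorem no_bad {l : ℕ} (hT : Multiset.count l (tau G ω U) = 1) :
    ∃ e ∈ U, fm G ω U e = {l} ∧ ∀ y ∈ U, nb G e y → l ∈ fm G ω U y := by
  by_contra hbad
  obtain ⟨D, r, hD, _, hTr, hall, hex, htwo⟩ := C.avoid hT hbad
  have hbadr : ¬ ∃ e ∈ U, fm G ω U e = {r} ∧ ∀ y ∈ U, nb G e y → r ∈ fm G ω U y := by
    rintro ⟨v, hv, hfv, hsim⟩
    obtain ⟨D1, hD1, hvD1, hall1, w, hw, hwv⟩ := C.move hD hall hex htwo hv hfv
    obtain ⟨p, hp, hvp, hpr⟩ := hD1.priv hvD1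
    exact hpr w hw hwv (C.full_nb (hD1.1 hw) hp (full_one hTr (hall1 w hw)) (hsim p hp hvp))
  obtain ⟨D', s, hD', hav, hTs, hall', hex', htwo'⟩ := C.avoid hTr hbadr
  have hsr : s ≠ r := by
    rintro rfl
    obtain ⟨e, he, _⟩ := hex'
    exact hav e he (hall' e he)
  obtain ⟨e, he, hfe⟩ := hex
  obtain ⟨e', he', hfe'⟩ := hex'
  have h1 := C.H3 hD hTr hall ⟨e, he, hfe⟩ htwo (hD'.1 he') (hav e' he')
  have h2 := C.H3 hD' hTs hall' ⟨e', he', hfe'⟩ htwo' (hD.1 he) (by
    rw [hfe, Multiset.mem_singleton]; exact hsr)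
  rw [C.wt (hD'.1 he') hfe'] at h1
  rw [C.wt (hD.1 he) hfe] at h2
  omega

/-- every coloured vertex has a simple neighbour of the same colour -/
theorem st {x : V} {l : ℕ} (hx : x ∈ U) (hl : l ∈ fm G ω U x) :
    ∃ e ∈ U, fm G ω U e = {l} ∧ nb G e x ∧ ∀ y ∈ U, nb G e y → l ∈ fm G ω U y := by
  have h1 := Multiset.count_pos.2 (Multiset.mem_of_le (fm_le C.hω C.hE hx) hl)
  by_cases hT : 2 ≤ Multiset.count l (tau G ω U)
  · obtain ⟨e, he, hex, hfe⟩ := C.b' hx hl
    exact ⟨e, he, hfe, hex, fun y hy hey => C.d hT he hfe hy hey⟩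
  · have hT1 : Multiset.count l (tau G ω U) = 1 := by omega
    obtain ⟨e, he, hfe, hsim⟩ := C.no_bad hT1
    refine ⟨e, he, hfe, C.full_nb he hx ?_ hl, hsim⟩
    exact full_one hT1 (by rw [hfe]; exact Multiset.mem_singleton_self l)

theorem fm_ne_zero {x : V} (hx : x ∈ U) : ∃ l, l ∈ fm G ω U x := by
  refine Multiset.exists_mem_of_ne_zero fun h => ?_
  have h1 := fm_sum C.hω C.hE hx
  rw [h, Multiset.sum_zero] at h1
  have := C.hω x
  omega

/-- the conclusion of the induction step -/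
theorem rs : ∃ S', MIS G U S' ∧ ∀ s ∈ S', ∃ l, fm G ω U s = {l} ∧ ∀ y ∈ U, nb G s y → l ∈ fm G ω U y := by
  obtain ⟨S', _, hS'⟩ := exists_mis (G := G) (J := ∅)
    (U := U.filter (fun s => ∃ l, fm G ω U s = {l} ∧ ∀ y ∈ U, nb G s y → l ∈ fm G ω U y))
    (Finset.empty_subset _) ind_empty
  have hsim : ∀ s ∈ S', ∃ l, fm G ω U s = {l} ∧ ∀ y ∈ U, nb G s y → l ∈ fm G ω U y := fun s hs =>
    (Finset.mem_filter.1 (hS'.1 hs)).2
  refine ⟨S', ⟨hS'.1.trans (Finset.filter_subset _ _), hS'.2.1, fun x hx => ?_⟩, hsim⟩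
  by_cases hxs : ∃ l, fm G ω U x = {l} ∧ ∀ y ∈ U, nb G x y → l ∈ fm G ω U y
  · exact hS'.2.2 x (Finset.mem_filter.2 ⟨hx, hxs⟩)
  obtain ⟨l, hl⟩ := C.fm_ne_zero hx
  obtain ⟨e, he, hfe, hex, hesim⟩ := C.st hx hl
  obtain ⟨s, hs, hse⟩ := hS'.2.2 e (Finset.mem_filter.2 ⟨he, l, hfe, hesim⟩)
  have hsU : s ∈ U := (Finset.mem_filter.1 (hS'.1 hs)).1
  refine ⟨s, hs, ?_⟩
  obtain ⟨ls, hfs, hssim⟩ := hsim s hs
  have hls : l = ls := by
    have := hesim s hsU (nb_symm hse)
    rw [hfs, Multiset.mem_singleton] at this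
    exact this
  subst hls
  by_contra hsx
  have h1 := C.count_add_le hsU hx hsx l
  rw [hfs, Multiset.count_singleton_self] at h1
  have h2 := Multiset.count_pos.2 hl
  have hT : 2 ≤ Multiset.count l (tau G ω U) := by omega
  by_cases hfx : fm G ω U x = {l}
  · exact hxs ⟨l, hfx, fun y hy hxy => C.d hT hx hfx hy hxy⟩
  · exact hsx (nb_symm (C.full_nb hx hsU (C.e_full hT hx hl hfx)
      (by rw [hfs]; exact Multiset.mem_singleton_self l)))

end Ctx

/-- **Structure theorem**: every equidominating graph has a maximal independent set of simple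
vertices. -/
theorem structure_theorem (hω : ∀ v, 0 < ω v) (U : Finset V) : ∀ t, EqS G ω U t →
    ∃ S, MIS G U S ∧ ∀ s ∈ S, ∃ l, fm G ω U s = {l} ∧ ∀ y ∈ U, nb G s y → l ∈ fm G ω U y := by
  induction U using Finset.strongInduction with
  | H U ih =>
    intro t hE
    have hex : ∀ z : V, ∃ S, z ∈ U → MIS G (lk G U z) S ∧ ∀ s ∈ S, ∃ l, fm G ω U s = {l} ∧
        ∀ y ∈ U, nb G s y → nb G z y ∨ l ∈ fm G ω U y := by
      intro z
      by_cases hz : z ∈ U
      · obtain ⟨t', _, hE'⟩ := hE.link hz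
        obtain ⟨S, hS, h⟩ := ih (lk G U z)
          ⟨lk_subset U z, fun h => not_mem_lk_self U z (h hz)⟩ t' hE'
        refine ⟨S, fun _ => ⟨hS, fun s hs => ?_⟩⟩
        obtain ⟨l, hl, h1⟩ := h s hs
        rw [fm_link hω hE hz (hS.1 hs)] at hl
        refine ⟨l, hl, fun y hy hsy => ?_⟩
        by_cases hzy : nb G z y
        · exact Or.inl hzy
        · right
          have hyl : y ∈ lk G U z := mem_lk.2 ⟨hy, hzy⟩
          rw [← fm_link hω hE hz hyl]
          exact h1 y hyl hsy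
      · exact ⟨∅, fun h => absurd h hz⟩
    choose S hS using hex
    exact (Ctx.mk (S := S) hω hE (fun z hz => (hS z hz).1) (fun z hz => (hS z hz).2)).rs

/-- the context holds for every equidominating graph -/
theorem exists_ctx (hω : ∀ v, 0 < ω v) {U : Finset V} {t : ℕ} (hE : EqS G ω U t) :
    ∃ S, Ctx G ω U t S := by
  have hex : ∀ z : V, ∃ S, z ∈ U → MIS G (lk G U z) S ∧ ∀ s ∈ S, ∃ l, fm G ω U s = {l} ∧
      ∀ y ∈ U, nb G s y → nb G z y ∨ l ∈ fm G ω U y := by
    intro z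
    by_cases hz : z ∈ U
    · obtain ⟨t', _, hE'⟩ := hE.link hz
      obtain ⟨S, hS, h⟩ := structure_theorem hω (lk G U z) t' hE'
      refine ⟨S, fun _ => ⟨hS, fun s hs => ?_⟩⟩
      obtain ⟨l, hl, h1⟩ := h s hs
      rw [fm_link hω hE hz (hS.1 hs)] at hl
      refine ⟨l, hl, fun y hy hsy => ?_⟩
      by_cases hzy : nb G z y
      · exact Or.inl hzy
      · right
        have hyl : y ∈ lk G U z := mem_lk.2 ⟨hy, hzy⟩
        rw [← fm_link hω hE hz hyl]
        exact h1 y hyl hsy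
    · exact ⟨∅, fun h => absurd h hz⟩
  choose S hS using hex
  exact ⟨S, hω, hE, fun z hz => (hS z hz).1, fun z hz => (hS z hz).2⟩

end Pool.Agent.H692R2.Equi
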