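import Pool.Agent.H692R2.Eq3

/-!
# Equidominating graphs: a first-order characterisation
-/

namespace Pool.Agent.H692R2.Equi

open Finset Classical

variable {V : Type*} {G : SimpleGraph V} {ω : V → ℕ}

/-! ### The criterion -/

/-- `x` belongs to the vertex set `N[v] ∪ {w}` -/
def InQ (G : SimpleGraph V) (v w x : V) : Prop := nb G v x ∨ x = w

/-- `N[v] ∪ {w}` is a block: any two of its vertices `x`, `y` which are distinct and non-adjacent
satisfy `N[x] ∪ {y} = N[v] ∪ {w}`. -/
def Blk (G : SimpleGraph V) (v w : V) : Prop :=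
  ∀ x y, InQ G v w x → InQ G v w y → nb G x y ∨ ∀ z, InQ G x y z ↔ InQ G v w z

/-- `a` is in the block `N[v] ∪ {w}` and adjacent to all its other vertices -/
def Top (G : SimpleGraph V) (v w a : V) : Prop := InQ G v w a ∧ ∀ z, InQ G v w z → nb G a z

/-- first-order form of: some minimal dominating set contains both `a` and `b` -/
def Pair (G : SimpleGraph V) (a b : V) : Prop :=
  ∃ p q, nb G a p ∧ ¬ nb G b p ∧ nb G b q ∧ ¬ nb G a q ∧
    ∀ y, nb G a y ∨ nb G b y ∨ ∃ s, nb G s y ∧ ¬ nb G s p ∧ ¬ nb G s q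

/-- the criterion -/
def Crit (G : SimpleGraph V) : Prop :=
  (∃ _ : V, True) ∧ (∀ x, ∃ v w, Blk G v w ∧ InQ G v w x) ∧
    ∀ v w a b, Blk G v w → Top G v w a → Top G v w b → a ≠ b → ¬ Pair G a b

theorem pair_iff [Fintype V] {a b : V} :
    (∃ D, Mds G Finset.univ D ∧ a ∈ D ∧ b ∈ D ∧ a ≠ b) ↔ Pair G a b := by
  constructor
  · rintro ⟨D, hD, ha, hb, hab⟩
    obtain ⟨p, _, hap, hp⟩ := hD.priv ha
    obtain ⟨q, _, hbq, hq⟩ := hD.priv hb
    refine ⟨p, q, hap, hp b hb (fun h => hab h.symm), hbq, hq a ha hab, fun y => ?_⟩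
    obtain ⟨s, hs, hsy⟩ := hD.2.1 y (Finset.mem_univ y)
    by_cases hsa : s = a
    · exact Or.inl (hsa ▸ hsy)
    by_cases hsb : s = b
    · exact Or.inr (Or.inl (hsb ▸ hsy))
    exact Or.inr (Or.inr ⟨s, hsy, hp s hs hsa, hq s hs hsb⟩)
  · rintro ⟨p, q, hap, hbp, hbq, haq, h⟩
    have hd : Dom G Finset.univ
        (Finset.univ.filter (fun s => s = a ∨ s = b ∨ (¬ nb G s p ∧ ¬ nb G s q))) := by
      intro y _
      rcases h y with h | h | ⟨s, h, h1, h2⟩
      · exact ⟨a, by simp, h⟩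
      · exact ⟨b, by simp, h⟩
      · exact ⟨s, by simp [h1, h2], h⟩
    obtain ⟨D, hDs, hD⟩ := exists_mds_subset (Finset.subset_univ _) hd
    have hmem : ∀ s ∈ D, s = a ∨ s = b ∨ (¬ nb G s p ∧ ¬ nb G s q) := fun s hs => by
      simpa using hDs hs
    refine ⟨D, hD, ?_, ?_, fun e => hbp (e ▸ hap)⟩
    · obtain ⟨s, hs, hsp⟩ := hD.2.1 p (Finset.mem_univ p)
      rcases hmem s hs with rfl | rfl | h1
      · exact hs
      · exact absurd hsp hbp
      · exact absurd hsp h1.1
    · obtain ⟨s, hs, hsq⟩ := hD.2.1 q (Finset.mem_univ q)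
      rcases hmem s hs with rfl | rfl | h1
      · exact absurd hsq haq
      · exact hs
      · exact absurd hsq h1.2

/-! ### Equidominating graphs satisfy the criterion -/

namespace Ctx

variable {U : Finset V} {t : ℕ} {S : V → Finset V} (C : Ctx G ω U t S)

include C

theorem not_heavy {D : Finset V} (hD : Mds G U D) (m : ℕ) :
    Multiset.count m (∑ d ∈ D, fm G ω U d) ≤ Multiset.count m (tau G ω U) := by
  by_contra hcon
  obtain ⟨r, hTr, hall, hex, htwo⟩ := C.X3 hD (m := m) (by omega)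
  obtain ⟨v, hv, hfv, hsim⟩ := C.no_bad hTr
  obtain ⟨D1, hD1, hvD1, hall1, w, hw, hwv⟩ := C.move hD hall hex htwo hv hfv
  obtain ⟨p, hp, hvp, hpr⟩ := hD1.priv hvD1
  exact hpr w hw hwv (C.full_nb (hD1.1 hw) hp (full_one hTr (hall1 w hw)) (hsim p hp hvp))

theorem two_count {D : Finset V} (hD : Mds G U D) {a b : V} (ha : a ∈ D) (hb : b ∈ D)
    (hab : a ≠ b) (m : ℕ) :
    Multiset.count m (fm G ω U a) + Multiset.count m (fm G ω U b) ≤ Multiset.count m (tau G ω U) := by
  refine le_trans ?_ (C.not_heavy hD m)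
  have h1 : Multiset.count m (fm G ω U a) + Multiset.count m (fm G ω U b) =
      ∑ d ∈ ({a, b} : Finset V), Multiset.count m (fm G ω U d) := by rw [Finset.sum_pair hab]
  rw [Multiset.count_sum', h1]
  refine Finset.sum_le_sum_of_subset ?_
  intro x hx
  rcases Finset.mem_insert.1 hx with rfl | hx
  · exact ha
  · rw [Finset.mem_singleton.1 hx]; exact hb

/-- in a colour class with an edge, every vertex has at most one non-neighbour -/
theorem tw {e a x1 x2 : V} {l : ℕ} (he : e ∈ U) (ha : a ∈ U) (hx1 : x1 ∈ U) (hx2 : x2 ∈ U)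
    (hfe : fm G ω U e = {l}) (hfa : fm G ω U a = {l}) (hf1 : fm G ω U x1 = {l}) (hf2 : fm G ω U x2 = {l})
    (hea : nb G e a) (hne : a ≠ e) (h1 : ¬ nb G e x1) (h2 : ¬ nb G e x2) : x1 = x2 := by
  by_contra h12
  have hn12 : ¬ nb G x1 x2 := fun h =>
    h2 (C.ftl hx1 he hf1 hfe (fun hh => h1 (nb_symm hh)) hx2 h (fun hh => h12 hh.symm))
  obtain ⟨D, hD, hM⟩ := exists_mis (G := G) (U := U) (J := {e, x1, x2}) (by
    intro x hx
    simp only [Finset.mem_insert, Finset.mem_singleton] at hx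
    rcases hx with rfl | rfl | rfl
    · exact he
    · exact hx1
    · exact hx2) (by
      refine ind_insert (ind_insert (ind_singleton x2) ?_) ?_
      · intro z hz
        rw [Finset.mem_singleton.1 hz]; exact hn12
      · intro z hz
        simp only [Finset.mem_insert, Finset.mem_singleton] at hz
        rcases hz with rfl | rfl
        · exact h1
        · exact h2)
  have heD : e ∈ D := hD (by simp)
  have h1D : x1 ∈ D := hD (by simp)
  have h2D : x2 ∈ D := hD (by simp)
  have haD : a ∉ D := fun h => hM.2.1 e heD a h (fun h => hne h.symm) hea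
  have hm := C.hE.swap1 hM.mds heD ha haD (by rw [C.wt ha hfa, C.wt he hfe])
  have hx1e : x1 ≠ e := fun h => h1 (h ▸ nb_refl _)
  have hx2e : x2 ≠ e := fun h => h2 (h ▸ nb_refl _)
  have h1D' : x1 ∈ insert a (D.erase e) :=
    Finset.mem_insert_of_mem (Finset.mem_erase.2 ⟨hx1e, h1D⟩)
  have h2D' : x2 ∈ insert a (D.erase e) :=
    Finset.mem_insert_of_mem (Finset.mem_erase.2 ⟨hx2e, h2D⟩)
  have hax1 : nb G x1 a := C.ftl he hx1 hfe hf1 h1 ha hea hne
  have hax1' : a ≠ x1 := fun h => haD (h ▸ h1D)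
  obtain ⟨p, hp, hxp, hpr⟩ := hm.priv h1D'
  have hpx : p ≠ x1 := by
    rintro rfl
    exact hpr a (Finset.mem_insert_self _ _) hax1' (nb_symm hax1)
  exact hpr x2 h2D' (fun h => h12 h.symm) (C.ftl hx1 hx2 hf1 hf2 hn12 hp hxp hpx)

end Ctx

variable [Fintype V]

theorem crit_cover (hω : ∀ v, 0 < ω v) {t : ℕ} (hE : EqS G ω Finset.univ t) (x : V) :
    ∃ v w, Blk G v w ∧ InQ G v w x := by
  obtain ⟨S, C⟩ := exists_ctx hω hE
  have U' : ∀ y : V, y ∈ (Finset.univ : Finset V) := Finset.mem_univ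
  obtain ⟨l, hl⟩ := C.fm_ne_zero (U' x)
  obtain ⟨e, he, hfe, hex, hsim⟩ := C.st (U' x) hl
  have hle : l ∈ fm G ω Finset.univ e := by rw [hfe]; exact Multiset.mem_singleton_self l
  by_cases hcl : ∀ x y, nb G e x → nb G e y → nb G x y
  · refine ⟨e, e, fun x y hx hy => Or.inl (hcl x y ?_ ?_), Or.inl hex⟩
    · rcases hx with h | h
      · exact h
      · exact h ▸ nb_refl _
    · rcases hy with h | h
      · exact h
      · exact h ▸ nb_refl _
  push Not at hcl
  obtain ⟨a, a', hea, hea', haa'⟩ := hcl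
  have hla := hsim a (U' a) hea
  have hla' := hsim a' (U' a') hea'
  have hT : 2 ≤ Multiset.count l (tau G ω Finset.univ) := by
    have h1 := C.count_add_le (U' a) (U' a') haa' l
    have h2 := Multiset.count_pos.2 hla
    have h3 := Multiset.count_pos.2 hla'
    omega
  have hF : ∀ x y, l ∈ fm G ω Finset.univ x → l ∈ fm G ω Finset.univ y → ¬ nb G x y →
      fm G ω Finset.univ x = {l} := by
    intro x y hx hy hxy
    by_contra hfx
    exact hxy (C.full_nb (U' x) (U' y) (C.e_full hT (U' x) hx hfx) hy)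
  have hfa := hF a a' hla hla' haa'
  have hae : a ≠ e := by
    rintro rfl
    exact haa' hea'
  -- every vertex of the class has at most one non-neighbour in the class
  have huniq : ∀ y x1 x2, fm G ω Finset.univ y = {l} → fm G ω Finset.univ x1 = {l} →
      fm G ω Finset.univ x2 = {l} → ¬ nb G y x1 → ¬ nb G y x2 → x1 = x2 := by
    intro y x1 x2 hy h1 h2 hn1 hn2
    by_cases hye : y = e
    · subst hye
      exact C.tw (U' _) (U' a) (U' x1) (U' x2) hy hfa h1 h2 hea hae hn1 hn2
    by_cases hey : nb G e y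
    · exact C.tw (U' y) (U' e) (U' x1) (U' x2) hy hfe h1 h2 (nb_symm hey)
        (fun h => hye h.symm) hn1 hn2
    · have hya : nb G y a := C.ftl (U' e) (U' y) hfe hy hey (U' a) hea hae
      have : a ≠ y := fun h => hey (h ▸ hea)
      exact C.tw (U' y) (U' a) (U' x1) (U' x2) hy hfa h1 h2 hya this hn1 hn2
  obtain ⟨e', _, hfe', hee'⟩ := C.c (U' e) hfe hT
  have hQ : ∀ z, InQ G e e' z ↔ l ∈ fm G ω Finset.univ z := by
    intro z
    constructor
    · rintro (h | rfl)
      · exact hsim z (U' z) h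
      · rw [hfe']; exact Multiset.mem_singleton_self l
    · intro hz
      by_cases hez : nb G e z
      · exact Or.inl hez
      · right
        have hfz := hF z e hz hle (fun h => hez (nb_symm h))
        exact huniq e z e' hfe hfz hfe' hez hee'
  refine ⟨e, e', fun x y hx hy => ?_, Or.inl hex⟩
  by_cases hxy : nb G x y
  · exact Or.inl hxy
  right
  intro z
  rw [hQ] at hx hy ⊢
  have hfx := hF x y hx hy hxy
  have hfy := hF y x hy hx (fun h => hxy (nb_symm h))
  constructor
  · rintro (h | rfl)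
    · exact C.d hT (U' x) hfx (U' z) h
    · exact hy
  · intro hz
    by_cases hxz : nb G x z
    · exact Or.inl hxz
    · right
      have hfz := hF z x hz hx (fun h => hxz (nb_symm h))
      exact huniq x z y hfx hfz hfy hxz hxy

theorem crit_strong (hω : ∀ v, 0 < ω v) {t : ℕ} (hE : EqS G ω Finset.univ t) {v w a b : V}
    (ha : Top G v w a) (hb : Top G v w b) (hab : a ≠ b) :
    ¬ Pair G a b := by
  rw [← pair_iff]
  rintro ⟨D, hD, haD, hbD, -⟩
  obtain ⟨S, C⟩ := exists_ctx hω hE
  have U' : ∀ y : V, y ∈ (Finset.univ : Finset V) := Finset.mem_univ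
  obtain ⟨l, hl⟩ := C.fm_ne_zero (U' v)
  obtain ⟨e, he, hfe, hev, hsim⟩ := C.st (U' v) hl
  have heQ : InQ G v w e := Or.inl (nb_symm hev)
  have hla := hsim a (U' a) (nb_symm (ha.2 e heQ))
  have hlb := hsim b (U' b) (nb_symm (hb.2 e heQ))
  have hcnt := C.two_count hD haD hbD hab l
  have h1 := Multiset.count_pos.2 hla
  have h2 := Multiset.count_pos.2 hlb
  have hT : 2 ≤ Multiset.count l (tau G ω Finset.univ) := by omega
  have hfa : fm G ω Finset.univ a = {l} := by
    by_contra h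
    have := C.e_full hT (U' a) hla h
    omega
  have hfb : fm G ω Finset.univ b = {l} := by
    by_contra h
    have := C.e_full hT (U' b) hlb h
    omega
  have hvQ : InQ G v w v := Or.inl (nb_refl v)
  have key : ∀ c, Top G v w c → fm G ω Finset.univ c = {l} → v ≠ c → False := by
    intro c hc hfc hvc
    obtain ⟨c', _, hfc', hcc'⟩ := C.c (U' c) hfc hT
    have h3 := C.ftl (U' c) (U' c') hfc hfc' hcc' (U' v) (hc.2 v hvQ) hvc
    exact hcc' (hc.2 c' (Or.inl (nb_symm h3)))
  by_cases hva : v = a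
  · exact key b hb hfb (fun h => hab (hva.symm.trans h))
  · exact key a ha hfa hva

/-! ### Graphs satisfying the criterion are equidominating -/

/-- the weight of a vertex in a block -/
noncomputable def bw (G : SimpleGraph V) (v w x : V) : ℕ :=
  if Blk G v w ∧ InQ G v w x then (if Top G v w x then 2 else 1) else 0

/-- the target of a block -/
noncomputable def bt (G : SimpleGraph V) (v w : V) : ℕ := if Blk G v w then 2 else 0

omit [Fintype V] in
theorem bw_le (v w x : V) : bw G v w x ≤ 2 := by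
  unfold bw; split_ifs <;> omega

omit [Fintype V] in
theorem bw_pos {v w x : V} (hb : Blk G v w) (hx : InQ G v w x) : 1 ≤ bw G v w x := by
  unfold bw; rw [if_pos ⟨hb, hx⟩]; split_ifs <;> omega

omit [Fintype V] in
theorem bw_top {v w x : V} (hb : Blk G v w) (hx : Top G v w x) : bw G v w x = 2 := by
  unfold bw; rw [if_pos ⟨hb, hx.1⟩, if_pos hx]

omit [Fintype V] in
theorem bw_not_top {v w x : V} (hb : Blk G v w) (hq : InQ G v w x) (hx : ¬ Top G v w x) :
    bw G v w x = 1 := by
  unfold bw; rw [if_pos ⟨hb, hq⟩, if_neg hx]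

omit [Fintype V] in
theorem bw_zero {v w x : V} (hq : ¬ InQ G v w x) : bw G v w x = 0 := by
  unfold bw; rw [if_neg (fun h => hq h.2)]

omit [Fintype V] in
theorem not_top_iff {v w x : V} (hb : Blk G v w) (hq : InQ G v w x) (hx : ¬ Top G v w x) :
    ∃ z, InQ G v w z ∧ ¬ nb G x z ∧ ∀ y, InQ G x z y ↔ InQ G v w y := by
  unfold Top at hx
  push Not at hx
  obtain ⟨z, hz, hxz⟩ := hx hq
  exact ⟨z, hz, hxz, (hb x z hq hz).resolve_left hxz⟩

theorem block_sum (hst : ∀ v w a b, Blk G v w → Top G v w a → Top G v w b → a ≠ b → ¬ Pair G a b)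
    {D : Finset V} (hD : Mds G Finset.univ D) {v w : V} (hb : Blk G v w) :
    ∑ x ∈ D, bw G v w x = 2 := by
  by_cases hA : ∃ a ∈ D, Top G v w a
  · obtain ⟨a, ha, hta⟩ := hA
    rw [Finset.sum_eq_single a]
    · exact bw_top hb hta
    · intro s hs hsa
      refine bw_zero fun hsq => ?_
      by_cases hts : Top G v w s
      · exact hst v w s a hb hts hta hsa (pair_iff.1 ⟨D, hD, hs, ha, hsa⟩)
      · obtain ⟨z, hz, hsz, hQ⟩ := not_top_iff hb hsq hts
        obtain ⟨p, _, hsp, hpr⟩ := hD.priv hs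
        exact hpr a ha (fun h => hsa h.symm) (hta.2 p ((hQ p).1 (Or.inl hsp)))
    · intro h; exact absurd ha h
  · push Not at hA
    obtain ⟨s, hs, hsv⟩ := hD.2.1 v (Finset.mem_univ v)
    have hsq : InQ G v w s := Or.inl (nb_symm hsv)
    obtain ⟨z, hz, hsz, hQ⟩ := not_top_iff hb hsq (hA s hs)
    obtain ⟨s2, hs2, hs2z⟩ := hD.2.1 z (Finset.mem_univ z)
    have hne : s ≠ s2 := fun h => hsz (h ▸ hs2z)
    have hs2q : InQ G v w s2 := by
      rcases hb z s hz hsq with h | h
      · exact absurd (nb_symm h) hsz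
      · exact (h s2).1 (Or.inl (nb_symm hs2z))
    have hsub : ({s, s2} : Finset V) ⊆ D := by
      intro x hx
      rcases Finset.mem_insert.1 hx with rfl | hx
      · exact hs
      · rw [Finset.mem_singleton.1 hx]; exact hs2
    rw [← Finset.sum_subset hsub, Finset.sum_pair hne, bw_not_top hb hsq (hA s hs),
      bw_not_top hb hs2q (hA s2 hs2)]
    intro s3 hs3 hn3
    simp only [Finset.mem_insert, Finset.mem_singleton, not_or] at hn3
    refine bw_zero fun h3q => ?_
    obtain ⟨z3, hz3, hs3z, hQ3⟩ := not_top_iff hb h3q (hA s3 hs3)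
    obtain ⟨p, _, h3p, hpr⟩ := hD.priv hs3
    have hpq : InQ G v w p := (hQ3 p).1 (Or.inl h3p)
    rcases (hQ p).2 hpq with h | h
    · exact hpr s hs (fun e => hn3.1 e.symm) h
    · exact hpr s2 hs2 (fun e => hn3.2 e.symm) (h ▸ hs2z)

theorem mds_of_block_sums (hcov : ∀ x, ∃ v w, Blk G v w ∧ InQ G v w x)
    (hst : ∀ v w a b, Blk G v w → Top G v w a → Top G v w b → a ≠ b → ¬ Pair G a b)
    {D : Finset V} (hsum : ∀ v w, Blk G v w → ∑ x ∈ D, bw G v w x = 2) :
    Mds G Finset.univ D := by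
  have hdom : Dom G Finset.univ D := by
    intro x _
    obtain ⟨v, w, hb, hx⟩ := hcov x
    have h2 := hsum v w hb
    by_cases hA : ∃ a ∈ D, Top G v w a
    · obtain ⟨a, ha, hta⟩ := hA
      exact ⟨a, ha, hta.2 x hx⟩
    · push Not at hA
      have hle : ∀ s ∈ D, bw G v w s ≤ 1 := by
        intro s hs
        by_cases hq : InQ G v w s
        · rw [bw_not_top hb hq (hA s hs)]
        · rw [bw_zero hq]; omega
      obtain ⟨s, hs, hsq⟩ : ∃ s ∈ D, InQ G v w s := by
        by_contra hcon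
        push Not at hcon
        rw [Finset.sum_eq_zero (fun s hs => bw_zero (hcon s hs))] at h2
        omega
      obtain ⟨s2, hs2, hne, hs2q⟩ : ∃ s2 ∈ D, s2 ≠ s ∧ InQ G v w s2 := by
        by_contra hcon
        push Not at hcon
        rw [Finset.sum_eq_single s (fun b hb' hbs => bw_zero (hcon b hb' hbs))
          (fun h => absurd hs h)] at h2
        have := hle s hs
        omega
      by_cases hsx : nb G s x
      · exact ⟨s, hs, hsx⟩
      refine ⟨s2, hs2, ?_⟩
      by_contra hs2x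
      rcases hb x s hx hsq with h | h
      · exact hsx (nb_symm h)
      · rcases (h s2).2 hs2q with h | h
        · exact hs2x (nb_symm h)
        · exact hne h
  refine ⟨Finset.subset_univ _, hdom, fun T hT hTd => ?_⟩
  obtain ⟨T', hT', hm⟩ := exists_mds_subset (Finset.subset_univ _) hTd
  by_contra hne
  obtain ⟨x, hxD, hxT⟩ := Finset.exists_of_ssubset (Finset.ssubset_iff_subset_ne.2 ⟨hT, hne⟩)
  obtain ⟨v, w, hb, hx⟩ := hcov x
  have h1 := hsum v w hb
  have h2 := block_sum hst hm hb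
  have h3 : ∑ y ∈ insert x T', bw G v w y ≤ ∑ y ∈ D, bw G v w y := by
    refine Finset.sum_le_sum_of_subset ?_
    exact Finset.insert_subset hxD (hT'.trans hT)
  rw [Finset.sum_insert (fun h => hxT (hT' h)), h1, h2] at h3
  have := bw_pos hb hx
  omega

theorem digits_unique (B : ℕ) : ∀ (N : ℕ) (a b : ℕ → ℕ), (∀ i < N, a i < B) →
    (∀ i < N, b i < B) →
    ∑ i ∈ Finset.range N, a i * B ^ i = ∑ i ∈ Finset.range N, b i * B ^ i →
    ∀ i < N, a i = b i := by
  intro N
  induction N with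
  | zero => intro a b _ _ _ i hi; omega
  | succ N ih =>
    intro a b ha hb h
    rw [Finset.sum_range_succ', Finset.sum_range_succ'] at h
    simp only [pow_succ, pow_zero, mul_one] at h
    have e1 : ∀ c : ℕ → ℕ, ∑ i ∈ Finset.range N, c (i + 1) * (B ^ i * B) =
        (∑ i ∈ Finset.range N, c (i + 1) * B ^ i) * B := by
      intro c
      rw [Finset.sum_mul]
      exact Finset.sum_congr rfl fun i _ => by ring
    rw [e1, e1] at h
    have h0a := ha 0 (by omega)
    have h0b := hb 0 (by omega)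
    have hB : 0 < B := by omega
    have hmod := congrArg (· % B) h
    simp only [Nat.mul_add_mod', Nat.mod_eq_of_lt h0a, Nat.mod_eq_of_lt h0b] at hmod
    have hrest : ∑ i ∈ Finset.range N, a (i + 1) * B ^ i =
        ∑ i ∈ Finset.range N, b (i + 1) * B ^ i := by
      rw [hmod] at h
      exact Nat.eq_of_mul_eq_mul_right hB (Nat.add_right_cancel h)
    intro i hi
    rcases i with _ | i
    · exact hmod
    · exact ih (fun i => a (i + 1)) (fun i => b (i + 1)) (fun i hi => ha _ (by omega))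
        (fun i hi => hb _ (by omega)) hrest i (by omega)

theorem crit_sufficient (h : Crit G) : ∃ (ω : V → ℕ) (t : ℕ), (∀ v, 1 ≤ ω v) ∧ 1 ≤ t ∧
    EqS G ω Finset.univ t := by
  obtain ⟨⟨x0, _⟩, hcov, hst⟩ := h
  set N := Fintype.card (V × V) with hN
  let e : V × V ≃ Fin N := Fintype.equivFin (V × V)
  let B := 2 * Fintype.card V + 3
  let dg : ℕ → V → ℕ := fun i x => if hi : i < N then bw G (e.symm ⟨i, hi⟩).1 (e.symm ⟨i, hi⟩).2 x
    else 0
  let tg : ℕ → ℕ := fun i => if hi : i < N then bt G (e.symm ⟨i, hi⟩).1 (e.symm ⟨i, hi⟩).2 else 0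
  have hdg : ∀ i x, dg i x ≤ 2 := by
    intro i x
    simp only [dg]
    split_ifs
    · exact bw_le _ _ _
    · omega
  have hdgS : ∀ (S : Finset V) i, ∑ x ∈ S, dg i x < B := by
    intro S i
    calc ∑ x ∈ S, dg i x ≤ ∑ _x ∈ S, 2 := Finset.sum_le_sum fun x _ => hdg i x
      _ = S.card * 2 := by rw [Finset.sum_const, smul_eq_mul]
      _ ≤ Fintype.card V * 2 := Nat.mul_le_mul_right _ (Finset.card_le_univ S)
      _ < B := by simp only [B]; omega
  have htg : ∀ i, tg i < B := by
    intro i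
    simp only [tg, bt, B]
    split_ifs <;> omega
  have hsumeq : ∀ S : Finset V, ∑ x ∈ S, (∑ i ∈ Finset.range N, dg i x * B ^ i) =
      ∑ i ∈ Finset.range N, (∑ x ∈ S, dg i x) * B ^ i := by
    intro S
    rw [Finset.sum_comm]
    exact Finset.sum_congr rfl fun i _ => by rw [Finset.sum_mul]
  have hB1 : 1 ≤ B := by simp only [B]; omega
  refine ⟨fun x => ∑ i ∈ Finset.range N, dg i x * B ^ i, ∑ i ∈ Finset.range N, tg i * B ^ i,
    ?_, ?_, ?_⟩
  · intro x
    obtain ⟨v, w, hb, hx⟩ := hcov x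
    have hi : (e (v, w) : ℕ) < N := (e (v, w)).2
    have h1 : 1 ≤ dg (e (v, w)) x := by
      simp only [dg, dif_pos hi, Fin.eta, Equiv.symm_apply_apply]
      exact bw_pos hb hx
    calc 1 ≤ dg (e (v, w)) x * B ^ (e (v, w) : ℕ) := Nat.mul_pos h1 (Nat.pow_pos hB1)
      _ ≤ _ := Finset.single_le_sum (f := fun i => dg i x * B ^ i) (fun _ _ => Nat.zero_le _)
        (Finset.mem_range.2 hi)
  · obtain ⟨v, w, hb, hx⟩ := hcov x0
    have hi : (e (v, w) : ℕ) < N := (e (v, w)).2
    have h1 : 1 ≤ tg (e (v, w)) := by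
      simp only [tg, dif_pos hi, Fin.eta, Equiv.symm_apply_apply, bt, if_pos hb]
      omega
    calc 1 ≤ tg (e (v, w)) * B ^ (e (v, w) : ℕ) := Nat.mul_pos h1 (Nat.pow_pos hB1)
      _ ≤ _ := Finset.single_le_sum (f := fun i => tg i * B ^ i) (fun _ _ => Nat.zero_le _)
        (Finset.mem_range.2 hi)
  · intro D _
    rw [hsumeq]
    have key : (∑ i ∈ Finset.range N, (∑ x ∈ D, dg i x) * B ^ i =
        ∑ i ∈ Finset.range N, tg i * B ^ i) ↔ ∀ v w, Blk G v w → ∑ x ∈ D, bw G v w x = 2 := by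
      constructor
      · intro h v w hb
        have h1 := digits_unique B N (fun i => ∑ x ∈ D, dg i x) tg (fun i _ => hdgS D i)
          (fun i _ => htg i) h (e (v, w)) (e (v, w)).2
        simpa only [dg, tg, dif_pos (e (v, w)).2, Fin.eta, Equiv.symm_apply_apply, bt,
          if_pos hb] using h1
      · intro h
        refine Finset.sum_congr rfl fun i hi => ?_
        rw [Finset.mem_range] at hi
        congr 1
        simp only [dg, tg, dif_pos hi, bt]
        by_cases hb : Blk G (e.symm ⟨i, hi⟩).1 (e.symm ⟨i, hi⟩).2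
        · rw [if_pos hb]; exact h _ _ hb
        · rw [if_neg hb]
          exact Finset.sum_eq_zero fun x _ => by
            unfold bw; rw [if_neg (fun hh => hb hh.1)]
    rw [key]
    exact ⟨fun hm v w hb => block_sum hst hm hb, fun hs => mds_of_block_sums hcov hst hs⟩

theorem crit_iff : Crit G ↔ ∃ (ω : V → ℕ) (t : ℕ), (∀ v, 1 ≤ ω v) ∧ 1 ≤ t ∧
    EqS G ω Finset.univ t := by
  refine ⟨crit_sufficient, ?_⟩
  rintro ⟨ω, t, hω, ht, hE⟩
  refine ⟨?_, crit_cover hω hE, fun v w a b _ ha hb hab => crit_strong hω hE ha hb hab⟩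
  by_contra hcon
  have h1 : (Finset.univ : Finset V) = ∅ := by
    refine Finset.eq_empty_of_forall_notMem fun x _ => hcon ⟨x, trivial⟩
  have := (hE.empty_iff hω).1 h1
  omega

end Pool.Agent.H692R2.Equi
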