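import Pool.Agent.H692R2.EqDefs
import Pool.Agent.H692R2.Eq4
import Pool.Agent.H601R2.PP
import Pool.Agent.NPC.Dec

/-!
# EQUIDOMINATION is decidable in polynomial time
-/

namespace Pool.Agent.H692R2.Equi

open Finset Classical Pool.Agent.NPC

/-! ### The definitions agree -/

section agree

variable {V : Type*} [Fintype V] {G : SimpleGraph V}

theorem isDominating_iff {S : Finset V} : IsDominating G S ↔ Dom G Finset.univ S := by
  constructor
  · intro h u _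
    rcases h u with h | ⟨s, hs, h⟩
    · exact ⟨u, h, nb_refl u⟩
    · exact ⟨s, hs, Or.inr h.symm⟩
  · intro h u
    obtain ⟨s, hs, h⟩ := h u (Finset.mem_univ u)
    rcases h with rfl | h
    · exact Or.inl hs
    · exact Or.inr ⟨s, hs, h.symm⟩

theorem isMinDominating_iff {S : Finset V} : IsMinDominating G S ↔ Mds G Finset.univ S := by
  unfold IsMinDominating Mds
  rw [isDominating_iff]
  constructor
  · rintro ⟨h1, h2⟩
    refine ⟨Finset.subset_univ _, h1, fun T hT hd => ?_⟩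
    by_contra hne
    exact h2 T (Finset.ssubset_iff_subset_ne.2 ⟨hT, hne⟩) (isDominating_iff.2 hd)
  · rintro ⟨_, h1, h2⟩
    refine ⟨h1, fun T hT hd => ?_⟩
    exact (Finset.ssubset_iff_subset_ne.1 hT).2 (h2 T hT.1 (isDominating_iff.1 hd))

/-- **Characterisation** of equidominating graphs by a first-order property. -/
theorem equidominating_iff : Equidominating G ↔ Crit G := by
  rw [crit_iff]
  refine exists_congr fun ω => exists_congr fun t => ?_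
  unfold IsStructure
  refine and_congr_right fun _ => and_congr_right fun _ => ?_
  unfold EqS
  constructor
  · intro h D _
    rw [← isMinDominating_iff]; exact h D
  · intro h D
    rw [isMinDominating_iff]; exact h D (Finset.subset_univ _)

end agree

/-! ### The criterion for graphs on an initial segment of the natural numbers -/

section rel

variable (n : ℕ) (A : ℕ → ℕ → Prop)

/-- closed adjacency -/
def RNb (i j : ℕ) : Prop := i = j ∨ A i j

/-- membership in `N[v] ∪ {w}` -/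
def RInQ (v w x : ℕ) : Prop := RNb A v x ∨ x = w

/-- block -/
def RBlk (v w : ℕ) : Prop :=
  ∀ x < n, ∀ y < n, RInQ A v w x → RInQ A v w y → RNb A x y ∨
    ∀ z < n, (RInQ A x y z → RInQ A v w z) ∧ (RInQ A v w z → RInQ A x y z)

/-- top vertex of a block -/
def RTop (v w a : ℕ) : Prop := RInQ A v w a ∧ ∀ z < n, RInQ A v w z → RNb A a z

/-- pairs contained in minimal dominating sets -/
def RPair (a b : ℕ) : Prop :=
  ∃ p < n, ∃ q < n, RNb A a p ∧ ¬ RNb A b p ∧ RNb A b q ∧ ¬ RNb A a q ∧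
    ∀ y < n, RNb A a y ∨ RNb A b y ∨ ∃ s < n, RNb A s y ∧ ¬ RNb A s p ∧ ¬ RNb A s q

/-- the criterion -/
def RCrit : Prop :=
  0 < n ∧ (∀ x < n, ∃ v < n, ∃ w < n, RBlk n A v w ∧ RInQ A v w x) ∧
    ∀ v < n, ∀ w < n, ∀ a < n, ∀ b < n, RBlk n A v w → RTop n A v w a → RTop n A v w b → a ≠ b →
      ¬ RPair n A a b

variable {n A} {G : SimpleGraph (Fin n)} (hA : ∀ i j : Fin n, G.Adj i j ↔ A i j)

include hA

theorem rnb_iff (i j : Fin n) : RNb A i j ↔ nb G i j := by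
  unfold RNb nb
  rw [hA, Fin.ext_iff]

theorem rinq_iff (v w x : Fin n) : RInQ A v w x ↔ InQ G v w x := by
  unfold RInQ InQ
  rw [rnb_iff hA, Fin.ext_iff]

theorem rblk_iff (v w : Fin n) : RBlk n A v w ↔ Blk G v w := by
  unfold RBlk Blk
  constructor
  · intro h x y hx hy
    rcases h x x.2 y y.2 ((rinq_iff hA _ _ _).2 hx) ((rinq_iff hA _ _ _).2 hy) with h | h
    · exact Or.inl ((rnb_iff hA _ _).1 h)
    · refine Or.inr fun z => ?_
      rw [← rinq_iff hA, ← rinq_iff hA]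
      exact ⟨(h z z.2).1, (h z z.2).2⟩
  · intro h x hx y hy h1 h2
    rcases h ⟨x, hx⟩ ⟨y, hy⟩ ((rinq_iff hA v w ⟨x, hx⟩).1 h1)
      ((rinq_iff hA v w ⟨y, hy⟩).1 h2) with h | h
    · exact Or.inl ((rnb_iff hA ⟨x, hx⟩ ⟨y, hy⟩).2 h)
    · refine Or.inr fun z hz => ?_
      have := h ⟨z, hz⟩
      rw [← rinq_iff hA, ← rinq_iff hA] at this
      exact ⟨this.1, this.2⟩

theorem rtop_iff (v w a : Fin n) : RTop n A v w a ↔ Top G v w a := by
  unfold RTop Top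
  rw [rinq_iff hA]
  refine and_congr_right fun _ => ?_
  constructor
  · intro h z hz
    exact (rnb_iff hA _ _).1 (h z z.2 ((rinq_iff hA _ _ _).2 hz))
  · intro h z hz hq
    exact (rnb_iff hA a ⟨z, hz⟩).2 (h ⟨z, hz⟩ ((rinq_iff hA v w ⟨z, hz⟩).1 hq))

theorem rpair_iff (a b : Fin n) : RPair n A a b ↔ Pair G a b := by
  unfold RPair Pair
  constructor
  · rintro ⟨p, hp, q, hq, h1, h2, h3, h4, h5⟩
    refine ⟨⟨p, hp⟩, ⟨q, hq⟩, (rnb_iff hA a ⟨p, hp⟩).1 h1,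
      fun h => h2 ((rnb_iff hA b ⟨p, hp⟩).2 h), (rnb_iff hA b ⟨q, hq⟩).1 h3,
      fun h => h4 ((rnb_iff hA a ⟨q, hq⟩).2 h), fun y => ?_⟩
    rcases h5 y y.2 with h | h | ⟨s, hs, h6, h7, h8⟩
    · exact Or.inl ((rnb_iff hA _ _).1 h)
    · exact Or.inr (Or.inl ((rnb_iff hA _ _).1 h))
    · exact Or.inr (Or.inr ⟨⟨s, hs⟩, (rnb_iff hA ⟨s, hs⟩ y).1 h6,
        fun h => h7 ((rnb_iff hA ⟨s, hs⟩ ⟨p, hp⟩).2 h),
        fun h => h8 ((rnb_iff hA ⟨s, hs⟩ ⟨q, hq⟩).2 h)⟩)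
  · rintro ⟨p, q, h1, h2, h3, h4, h5⟩
    refine ⟨p, p.2, q, q.2, (rnb_iff hA _ _).2 h1, fun h => h2 ((rnb_iff hA _ _).1 h),
      (rnb_iff hA _ _).2 h3, fun h => h4 ((rnb_iff hA _ _).1 h), fun y hy => ?_⟩
    rcases h5 ⟨y, hy⟩ with h | h | ⟨s, h6, h7, h8⟩
    · exact Or.inl ((rnb_iff hA a ⟨y, hy⟩).2 h)
    · exact Or.inr (Or.inl ((rnb_iff hA b ⟨y, hy⟩).2 h))
    · exact Or.inr (Or.inr ⟨s, s.2, (rnb_iff hA s ⟨y, hy⟩).2 h6,
        fun h => h7 ((rnb_iff hA _ _).1 h), fun h => h8 ((rnb_iff hA _ _).1 h)⟩)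

theorem rcrit_iff : RCrit n A ↔ Crit G := by
  unfold RCrit Crit
  refine and_congr ?_ (and_congr ?_ ?_)
  · constructor
    · intro h; exact ⟨⟨0, h⟩, trivial⟩
    · rintro ⟨x, _⟩; exact lt_of_le_of_lt (Nat.zero_le _) x.2
  · constructor
    · intro h x
      obtain ⟨v, hv, w, hw, h1, h2⟩ := h x x.2
      exact ⟨⟨v, hv⟩, ⟨w, hw⟩, (rblk_iff hA ⟨v, hv⟩ ⟨w, hw⟩).1 h1,
        (rinq_iff hA ⟨v, hv⟩ ⟨w, hw⟩ x).1 h2⟩
    · intro h x hx
      obtain ⟨v, w, h1, h2⟩ := h ⟨x, hx⟩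
      exact ⟨v, v.2, w, w.2, (rblk_iff hA v w).2 h1, (rinq_iff hA v w ⟨x, hx⟩).2 h2⟩
  · constructor
    · intro h v w a b h1 h2 h3 h4 h5
      exact h v v.2 w w.2 a a.2 b b.2 ((rblk_iff hA v w).2 h1) ((rtop_iff hA v w a).2 h2)
        ((rtop_iff hA v w b).2 h3) (fun e => h4 (Fin.ext e)) ((rpair_iff hA a b).2 h5)
    · intro h v hv w hw a ha b hb h1 h2 h3 h4 h5
      exact h ⟨v, hv⟩ ⟨w, hw⟩ ⟨a, ha⟩ ⟨b, hb⟩ ((rblk_iff hA ⟨v, hv⟩ ⟨w, hw⟩).1 h1)
        ((rtop_iff hA ⟨v, hv⟩ ⟨w, hw⟩ ⟨a, ha⟩).1 h2)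
        ((rtop_iff hA ⟨v, hv⟩ ⟨w, hw⟩ ⟨b, hb⟩).1 h3)
        (fun e => h4 (Fin.ext_iff.1 e)) ((rpair_iff hA ⟨a, ha⟩ ⟨b, hb⟩).1 h5)

end rel

/-! ### Polynomial time -/

section poly

variable {α : Type} [TEnc α] {n : α → ℕ} (hn : UPoly n) {A : α → ℕ → ℕ → Prop}
  (hA : PP (fun p : α × ℕ × ℕ => A p.1 p.2.1 p.2.2))
  {β : Type} [TEnc β] {g : β → α} (hg : Poly g)

include hn hg in
theorem pAll {r : β → ℕ → Prop} (hr : PP (fun p : β × ℕ => r p.1 p.2)) :
    PP (fun b => ∀ x < n (g b), r b x) :=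
  (PP.ball (UPoly.range (hn.comp hg)) hr).congr fun b => by simp only [List.mem_range]

include hn hg in
theorem pEx {r : β → ℕ → Prop} (hr : PP (fun p : β × ℕ => r p.1 p.2)) :
    PP (fun b => ∃ x < n (g b), r b x) :=
  (PP.bex (UPoly.range (hn.comp hg)) hr).congr fun b => by simp only [List.mem_range]

theorem pImp {p q : β → Prop} (hp : PP p) (hq : PP q) : PP (fun b => p b → q b) :=
  (hp.not.or hq).congr fun b => by tauto

include hA hg

theorem pNb {i j : β → ℕ} (hi : Poly i) (hj : Poly j) : PP (fun b => RNb (A (g b)) (i b) (j b)) :=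
  (PP.eq hi hj).or (hA.comp (f := fun b => (g b, i b, j b)) (Poly.pair hg (Poly.pair hi hj)))

theorem pInQ {v w x : β → ℕ} (hv : Poly v) (hw : Poly w) (hx : Poly x) :
    PP (fun b => RInQ (A (g b)) (v b) (w b) (x b)) :=
  (pNb hA hg hv hx).or (PP.eq hx hw)

include hn

theorem pBlk {v w : β → ℕ} (hv : Poly v) (hw : Poly w) :
    PP (fun b => RBlk (n (g b)) (A (g b)) (v b) (w b)) := by
  refine pAll hn hg (pAll hn (hg.comp (Poly.fst Poly.id)) ?_)
  refine pImp (pInQ hA (g := fun p : (β × ℕ) × ℕ => g p.1.1) (by fun_prop) (by fun_prop)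
    (by fun_prop) (by fun_prop)) ?_
  refine pImp (pInQ hA (g := fun p : (β × ℕ) × ℕ => g p.1.1) (by fun_prop) (by fun_prop)
    (by fun_prop) (by fun_prop)) ?_
  refine (pNb hA (g := fun p : (β × ℕ) × ℕ => g p.1.1) (by fun_prop) (by fun_prop)
    (by fun_prop)).or ?_
  refine pAll hn (g := fun p : (β × ℕ) × ℕ => g p.1.1) (by fun_prop) ?_
  refine PP.and (pImp ?_ ?_) (pImp ?_ ?_) <;>
  exact pInQ hA (g := fun p : ((β × ℕ) × ℕ) × ℕ => g p.1.1.1) (by fun_prop) (by fun_prop)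
    (by fun_prop) (by fun_prop)

theorem pTop {v w a : β → ℕ} (hv : Poly v) (hw : Poly w) (ha : Poly a) :
    PP (fun b => RTop (n (g b)) (A (g b)) (v b) (w b) (a b)) := by
  refine (pInQ hA hg hv hw ha).and (pAll hn hg (pImp ?_ ?_))
  · exact pInQ hA (g := fun p : β × ℕ => g p.1) (by fun_prop) (by fun_prop) (by fun_prop)
      (by fun_prop)
  · exact pNb hA (g := fun p : β × ℕ => g p.1) (by fun_prop) (by fun_prop) (by fun_prop)

theorem pPair {a b : β → ℕ} (ha : Poly a) (hb : Poly b) :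
    PP (fun x => RPair (n (g x)) (A (g x)) (a x) (b x)) := by
  refine pEx hn hg (pEx hn (g := fun p : β × ℕ => g p.1) (by fun_prop) ?_)
  refine PP.and ?_ (PP.and (PP.not ?_) (PP.and ?_ (PP.and (PP.not ?_) ?_)))
  · exact pNb hA (g := fun p : (β × ℕ) × ℕ => g p.1.1) (by fun_prop) (by fun_prop) (by fun_prop)
  · exact pNb hA (g := fun p : (β × ℕ) × ℕ => g p.1.1) (by fun_prop) (by fun_prop) (by fun_prop)
  · exact pNb hA (g := fun p : (β × ℕ) × ℕ => g p.1.1) (by fun_prop) (by fun_prop) (by fun_prop)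
  · exact pNb hA (g := fun p : (β × ℕ) × ℕ => g p.1.1) (by fun_prop) (by fun_prop) (by fun_prop)
  · refine pAll hn (g := fun p : (β × ℕ) × ℕ => g p.1.1) (by fun_prop) (PP.or ?_ (PP.or ?_ ?_))
    · exact pNb hA (g := fun p : ((β × ℕ) × ℕ) × ℕ => g p.1.1.1) (by fun_prop) (by fun_prop)
        (by fun_prop)
    · exact pNb hA (g := fun p : ((β × ℕ) × ℕ) × ℕ => g p.1.1.1) (by fun_prop) (by fun_prop)
        (by fun_prop)
    · refine pEx hn (g := fun p : ((β × ℕ) × ℕ) × ℕ => g p.1.1.1) (by fun_prop)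
        (PP.and ?_ (PP.and (PP.not ?_) (PP.not ?_))) <;>
      exact pNb hA (g := fun p : (((β × ℕ) × ℕ) × ℕ) × ℕ => g p.1.1.1.1) (by fun_prop)
        (by fun_prop) (by fun_prop)

theorem pCrit : PP (fun b => RCrit (n (g b)) (A (g b))) := by
  refine PP.and (PP.lt (NPC.Poly.const 0) (hn.toPoly.comp hg)) (PP.and ?_ ?_)
  · refine pAll hn hg (pEx hn (g := fun p : β × ℕ => g p.1) (by fun_prop)
      (pEx hn (g := fun p : (β × ℕ) × ℕ => g p.1.1) (by fun_prop) (PP.and ?_ ?_)))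
    · exact pBlk hn hA (g := fun p : ((β × ℕ) × ℕ) × ℕ => g p.1.1.1) (by fun_prop) (by fun_prop)
        (by fun_prop)
    · exact pInQ hA (g := fun p : ((β × ℕ) × ℕ) × ℕ => g p.1.1.1) (by fun_prop) (by fun_prop)
        (by fun_prop) (by fun_prop)
  · refine pAll hn hg (pAll hn (g := fun p : β × ℕ => g p.1) (by fun_prop)
      (pAll hn (g := fun p : (β × ℕ) × ℕ => g p.1.1) (by fun_prop)
      (pAll hn (g := fun p : ((β × ℕ) × ℕ) × ℕ => g p.1.1.1) (by fun_prop)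
      (pImp ?_ (pImp ?_ (pImp ?_ (pImp ?_ (PP.not ?_))))))))
    · exact pBlk hn hA (g := fun p : (((β × ℕ) × ℕ) × ℕ) × ℕ => g p.1.1.1.1) (by fun_prop)
        (by fun_prop) (by fun_prop)
    · exact pTop hn hA (g := fun p : (((β × ℕ) × ℕ) × ℕ) × ℕ => g p.1.1.1.1) (by fun_prop)
        (by fun_prop) (by fun_prop) (by fun_prop)
    · exact pTop hn hA (g := fun p : (((β × ℕ) × ℕ) × ℕ) × ℕ => g p.1.1.1.1) (by fun_prop)
        (by fun_prop) (by fun_prop) (by fun_prop)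
    · exact PP.ne (by fun_prop) (by fun_prop)
    · exact pPair hn hA (g := fun p : (((β × ℕ) × ℕ) × ℕ) × ℕ => g p.1.1.1.1) (by fun_prop)
        (by fun_prop) (by fun_prop)

end poly

end Pool.Agent.H692R2.Equi
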