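import Pool.Agent.H692R2.Eq5

/-!
# EQUIDOMINATION is in P, for adjacency matrices and for adjacency lists
-/

namespace Pool.Agent.H692R2.Equi

open Pool.Agent.NPC

theorem inPP_of_PP {α : Type} [TEnc α] [TDec α] {P : α → Prop} (h : PP P) : InPP P := by
  obtain ⟨d, hd, h⟩ := h
  exact inPP_of hd fun a => (h a).symm

/-! ### matrices -/

/-- the adjacency relation of a matrix -/
def adjM (M : List (List Bool)) (i j : ℕ) : Prop := (M.getD i []).getD j false = true

/-- valid adjacency matrices -/
def ValidM (M : List (List Bool)) : Prop :=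
  (∀ i < M.length, (M.getD i []).length = M.length) ∧
    (∀ i < M.length, ¬ adjM M i i) ∧ ∀ i < M.length, ∀ j < M.length, adjM M i j → adjM M j i

theorem matrix_length {n : ℕ} (G : SimpleGraph (Fin n)) : (matrix G).length = n := by
  simp [matrix]

theorem adjM_matrix {n : ℕ} (G : SimpleGraph (Fin n)) (i j : Fin n) :
    adjM (matrix G) i j ↔ G.Adj i j := by
  unfold adjM matrix
  simp [List.getD_eq_getElem?_getD]

theorem equidominationM_iff (M : List (List Bool)) :
    EquidominationM M ↔ ValidM M ∧ RCrit M.length (adjM M) := by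
  constructor
  · rintro ⟨n, G, rfl, hG⟩
    have hn := matrix_length G
    have hadj := adjM_matrix G
    have hrow : ∀ i < n, ((matrix G).getD i []).length = n := by
      intro i hi
      unfold matrix
      simp [List.getD_eq_getElem?_getD, hi]
    generalize matrix G = M at hn hadj hrow
    subst hn
    refine ⟨⟨hrow, ?_, ?_⟩, ?_⟩
    · intro i hi h
      exact G.irrefl ((hadj ⟨i, hi⟩ ⟨i, hi⟩).1 h)
    · intro i hi j hj h
      exact (hadj ⟨j, hj⟩ ⟨i, hi⟩).2 ((hadj ⟨i, hi⟩ ⟨j, hj⟩).1 h).symm
    · exact (rcrit_iff (G := G) (fun i j => (hadj i j).symm)).2 (equidominating_iff.1 hG)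
  · rintro ⟨⟨h1, h2, h3⟩, h4⟩
    let G : SimpleGraph (Fin M.length) :=
      { Adj := fun i j => adjM M i j
        symm := ⟨fun i j h => h3 i i.2 j j.2 h⟩
        loopless := ⟨fun i h => h2 i i.2 h⟩ }
    refine ⟨M.length, G, ?_, ?_⟩
    · unfold matrix
      refine List.ext_getElem (by simp) fun i hi1 hi2 => ?_
      have hlen := h1 i hi1
      have hgi : M.getD i [] = M[i] := by
        rw [List.getD_eq_getElem?_getD, List.getElem?_eq_getElem hi1]; rfl
      rw [hgi] at hlen
      rw [List.getElem_ofFn]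
      refine List.ext_getElem (by simp [hlen]) fun j hj1 hj2 => ?_
      rw [List.getElem_ofFn]
      have : (G.Adj ⟨i, hi1⟩ ⟨j, by omega⟩) ↔ M[i][j] = true := by
        change (M.getD i []).getD j false = true ↔ _
        rw [hgi, List.getD_eq_getElem?_getD, List.getElem?_eq_getElem hj1]; rfl
      by_cases hb : M[i][j] = true
      · rw [hb]; symm; simpa using this.2 hb
      · rw [Bool.not_eq_true] at hb
        rw [hb]; symm
        simpa using fun h => absurd (this.1 h) (by rw [hb]; simp)
    · exact equidominating_iff.2 ((rcrit_iff (G := G) (A := adjM M) (fun i j => Iff.rfl)).1 h4)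

theorem pp_adjM : PP (fun p : List (List Bool) × ℕ × ℕ => adjM p.1 p.2.1 p.2.2) :=
  PP.bool (b := fun p : List (List Bool) × ℕ × ℕ => (p.1.getD p.2.1 []).getD p.2.2 false)
    (by fun_prop)

theorem uPoly_len {α : Type} [TEnc α] : UPoly (fun M : List α => M.length) :=
  UPoly.length NPC.Poly.id

theorem pp_validM : PP ValidM := by
  refine PP.and ?_ (PP.and ?_ ?_)
  · refine pAll (n := fun M : List (List Bool) => M.length) uPoly_len (g := fun M => M)
      NPC.Poly.id (PP.eq (by fun_prop) (by fun_prop))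
  · refine pAll (n := fun M : List (List Bool) => M.length) uPoly_len (g := fun M => M)
      NPC.Poly.id (PP.not ?_)
    exact PP.comp (f := fun p : List (List Bool) × ℕ => (p.1, p.2, p.2)) pp_adjM (by fun_prop)
  · refine pAll (n := fun M : List (List Bool) => M.length) uPoly_len (g := fun M => M)
      NPC.Poly.id (pAll (n := fun M : List (List Bool) => M.length) uPoly_len
        (g := fun p : List (List Bool) × ℕ => p.1) (by fun_prop) (pImp ?_ ?_))
    · exact PP.comp (f := fun p : (List (List Bool) × ℕ) × ℕ => (p.1.1, p.1.2, p.2)) pp_adjM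
        (by fun_prop)
    · exact PP.comp (f := fun p : (List (List Bool) × ℕ) × ℕ => (p.1.1, p.2, p.1.2)) pp_adjM
        (by fun_prop)

theorem pp_equidominationM : PP EquidominationM :=
  (pp_validM.and (pCrit (n := fun M : List (List Bool) => M.length) uPoly_len pp_adjM
    (g := fun M => M) NPC.Poly.id)).congr fun M => (equidominationM_iff M).symm

/-! ### adjacency lists -/

/-- the adjacency relation of adjacency lists -/
def adjL (L : List (List ℕ)) (i j : ℕ) : Prop := j ∈ L.getD i []

/-- valid adjacency lists -/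
def ValidL (L : List (List ℕ)) : Prop :=
  (∀ i < L.length, ∀ j ∈ L.getD i [], j < L.length) ∧
    (∀ i < L.length, ¬ adjL L i i) ∧ ∀ i < L.length, ∀ j < L.length, adjL L i j → adjL L j i

theorem equidominationL_iff (L : List (List ℕ)) :
    EquidominationL L ↔ ValidL L ∧ RCrit L.length (adjL L) := by
  constructor
  · rintro ⟨n, G, ⟨hn, hL⟩, hG⟩
    subst hn
    refine ⟨⟨?_, ?_, ?_⟩, ?_⟩
    · intro i hi j hj
      exact ((hL ⟨i, hi⟩ j).1 hj).1
    · intro i hi h
      exact G.irrefl ((hL ⟨i, hi⟩ i).1 h).2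
    · intro i hi j hj h
      exact (hL ⟨j, hj⟩ i).2 ⟨hi, ((hL ⟨i, hi⟩ j).1 h).2.symm⟩
    · refine (rcrit_iff (G := G) (fun i j => ?_)).2 (equidominating_iff.1 hG)
      unfold adjL
      rw [hL i j]
      exact ⟨fun h => ⟨j.2, h⟩, fun h => h.2⟩
  · rintro ⟨⟨h1, h2, h3⟩, h4⟩
    let G : SimpleGraph (Fin L.length) :=
      { Adj := fun i j => adjL L i j
        symm := ⟨fun i j h => h3 i i.2 j j.2 h⟩
        loopless := ⟨fun i h => h2 i i.2 h⟩ }
    refine ⟨L.length, G, ⟨rfl, fun i j => ?_⟩, ?_⟩
    · constructor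
      · intro h
        exact ⟨h1 i i.2 j h, h⟩
      · rintro ⟨_, h⟩
        exact h
    · exact equidominating_iff.2 ((rcrit_iff (G := G) (A := adjL L) (fun i j => Iff.rfl)).1 h4)

theorem pp_adjL : PP (fun p : List (List ℕ) × ℕ × ℕ => adjL p.1 p.2.1 p.2.2) :=
  PP.mem (f := fun p : List (List ℕ) × ℕ × ℕ => p.2.2) (l := fun p => p.1.getD p.2.1 [])
    (by fun_prop) (by fun_prop)

theorem pp_validL : PP ValidL := by
  refine PP.and ?_ (PP.and ?_ ?_)
  · refine pAll (n := fun M : List (List ℕ) => M.length) uPoly_len (g := fun M => M)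
      NPC.Poly.id (PP.ball (l := fun p : List (List ℕ) × ℕ => p.1.getD p.2 []) (by fun_prop)
        (PP.lt (by fun_prop) (by fun_prop)))
  · refine pAll (n := fun M : List (List ℕ) => M.length) uPoly_len (g := fun M => M)
      NPC.Poly.id (PP.not ?_)
    exact PP.comp (f := fun p : List (List ℕ) × ℕ => (p.1, p.2, p.2)) pp_adjL (by fun_prop)
  · refine pAll (n := fun M : List (List ℕ) => M.length) uPoly_len (g := fun M => M)
      NPC.Poly.id (pAll (n := fun M : List (List ℕ) => M.length) uPoly_len
        (g := fun p : List (List ℕ) × ℕ => p.1) (by fun_prop) (pImp ?_ ?_))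
    · exact PP.comp (f := fun p : (List (List ℕ) × ℕ) × ℕ => (p.1.1, p.1.2, p.2)) pp_adjL
        (by fun_prop)
    · exact PP.comp (f := fun p : (List (List ℕ) × ℕ) × ℕ => (p.1.1, p.2, p.1.2)) pp_adjL
        (by fun_prop)

theorem pp_equidominationL : PP EquidominationL :=
  (pp_validL.and (pCrit (n := fun M : List (List ℕ) => M.length) uPoly_len pp_adjL
    (g := fun M => M) NPC.Poly.id)).congr fun M => (equidominationL_iff M).symm

end Pool.Agent.H692R2.Equi
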