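import Mathlib

/-!
# Equidominating graphs and the decision problem EQUIDOMINATION
-/

namespace Pool.Agent.H692R2.Equi

/-- `S` is a dominating set of `G`: every vertex is in `S` or has a neighbour in `S`. -/
def IsDominating {V : Type*} (G : SimpleGraph V) (S : Finset V) : Prop :=
  ∀ v, v ∈ S ∨ ∃ u ∈ S, G.Adj v u

/-- `D` is a minimal dominating set of `G`: it is dominating and no proper subset of it is. -/
def IsMinDominating {V : Type*} (G : SimpleGraph V) (D : Finset V) : Prop :=
  IsDominating G D ∧ ∀ D' : Finset V, D' ⊂ D → ¬ IsDominating G D'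

/-- `(ω, t)` is an equidominating structure of `G` (weights and target are positive integers). -/
def IsStructure {V : Type*} (G : SimpleGraph V) (ω : V → ℕ) (t : ℕ) : Prop :=
  (∀ v, 1 ≤ ω v) ∧ 1 ≤ t ∧ ∀ D : Finset V, IsMinDominating G D ↔ ∑ v ∈ D, ω v = t

/-- The graph `G` is equidominating. -/
def Equidominating {V : Type*} (G : SimpleGraph V) : Prop :=
  ∃ (ω : V → ℕ) (t : ℕ), IsStructure G ω t

open Classical in
/-- The adjacency matrix of a graph with vertices `0, …, n-1`, as the list of its rows. -/
noncomputable def matrix {n : ℕ} (G : SimpleGraph (Fin n)) : List (List Bool) :=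
  List.ofFn fun i : Fin n => List.ofFn fun j : Fin n => decide (G.Adj i j)

/-- EQUIDOMINATION for graphs given by adjacency matrices: `M` is the adjacency matrix of an
equidominating graph. -/
def EquidominationM (M : List (List Bool)) : Prop :=
  ∃ (n : ℕ) (G : SimpleGraph (Fin n)), M = matrix G ∧ Equidominating G

/-- `L` consists of adjacency lists of `G`: it has one entry for each vertex, and the entry of `i`
lists exactly the neighbours of `i` (in any order). -/
def IsAdjLists (L : List (List ℕ)) {n : ℕ} (G : SimpleGraph (Fin n)) : Prop :=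
  L.length = n ∧ ∀ (i : Fin n) (j : ℕ), j ∈ L.getD i [] ↔ ∃ h : j < n, G.Adj i ⟨j, h⟩

/-- EQUIDOMINATION for graphs given by adjacency lists. -/
def EquidominationL (L : List (List ℕ)) : Prop :=
  ∃ (n : ℕ) (G : SimpleGraph (Fin n)), IsAdjLists L G ∧ Equidominating G

end Pool.Agent.H692R2.Equi
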