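import Mathlib

/-!
# The imperfection ratio of a graph

Definitions (replicated graph, fractional chromatic number, imperfection ratio) and the two
inequalities used for the hardness proof.
-/

namespace Pool.Agent.H692R2

open Finset

/-- The replicated graph `G_x`: each node `v` is replaced by a clique of `x v` new nodes; two new
nodes coming from distinct nodes `u`, `v` are adjacent exactly when `u` and `v` are. -/
def replicated {V : Type} (G : SimpleGraph V) (x : V → ℕ) : SimpleGraph (Σ v : V, Fin (x v)) where
  Adj a b := (a.1 = b.1 ∧ a ≠ b) ∨ G.Adj a.1 b.1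
  symm := ⟨by
    rintro a b (⟨h, h'⟩ | h)
    · exact Or.inl ⟨h.symm, h'.symm⟩
    · exact Or.inr h.symm⟩
  loopless := ⟨by
    rintro a (⟨_, h⟩ | h)
    · exact h rfl
    · exact G.loopless.irrefl _ h⟩

open Classical in
/-- The fractional chromatic number: the infimum of the total weight of a fractional colouring,
that is, of a non-negative weighting of the independent (stable) sets such that the independent
sets through each vertex have total weight at least one. -/
noncomputable def fracChi {V : Type} [Fintype V] (H : SimpleGraph V) : ℝ :=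
  sInf {s : ℝ | ∃ w : Finset V → ℝ, (∀ I, 0 ≤ w I) ∧
    (∀ I : Finset V, w I ≠ 0 → H.IsIndepSet (I : Set V)) ∧
    (∀ v, 1 ≤ ∑ I with v ∈ I, w I) ∧ ∑ I, w I = s}

/-- The imperfection ratio `imp G`: the supremum over all non-zero demand vectors `x` of the ratio
of the fractional chromatic number and the clique number of the replicated graph `G_x`. -/
noncomputable def imp {V : Type} [Fintype V] (G : SimpleGraph V) : ℝ :=
  sSup {r : ℝ | ∃ x : V → ℕ, x ≠ 0 ∧
    r = fracChi (replicated G x) / (replicated G x).cliqueNum}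

section frac

variable {V : Type} [Fintype V] {H : SimpleGraph V}

open Classical in
theorem fracChi_bddBelow (H : SimpleGraph V) : BddBelow {s : ℝ | ∃ w : Finset V → ℝ,
    (∀ I, 0 ≤ w I) ∧ (∀ I : Finset V, w I ≠ 0 → H.IsIndepSet (I : Set V)) ∧
    (∀ v, 1 ≤ ∑ I with v ∈ I, w I) ∧ ∑ I, w I = s} :=
  ⟨0, by rintro s ⟨w, h0, _, _, rfl⟩; exact Finset.sum_nonneg fun I _ => h0 I⟩

open Classical in
/-- An indexed family of independent sets covering every vertex `q` times gives an upper bound. -/
theorem fracChi_le_of_family {A : Type} [Fintype A] (J : A → Finset V) (q : ℕ) (hq : 0 < q)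
    (hJ : ∀ a, H.IsIndepSet (J a : Set V)) (hc : ∀ v, q ≤ #{a | v ∈ J a}) :
    fracChi H ≤ (Fintype.card A : ℝ) / q := by
  refine csInf_le (fracChi_bddBelow H) ⟨fun I => (#{a | J a = I} : ℝ) / q, fun I => by positivity,
    fun I hI => ?_, fun v => ?_, ?_⟩
  · have : 0 < #{a | J a = I} := by
      rw [Nat.pos_iff_ne_zero]
      intro h
      apply hI
      simp [h]
    obtain ⟨a, ha⟩ := Finset.card_pos.1 this
    simp only [mem_filter, mem_univ, true_and] at ha
    rw [← ha]
    exact hJ a
  · rw [← Finset.sum_div, le_div_iff₀ (by positivity), one_mul]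
    have : ∑ I with v ∈ I, (#{a | J a = I} : ℝ) = (#{a | v ∈ J a} : ℝ) := by
      rw [← Nat.cast_sum]
      congr 1
      rw [Finset.card_eq_sum_card_fiberwise (f := J) (t := ({I | v ∈ I} : Finset (Finset V)))]
      · refine Finset.sum_congr rfl fun I hI => ?_
        congr 1
        ext a
        simp only [mem_filter, mem_univ, true_and] at hI ⊢
        constructor
        · rintro rfl; exact ⟨hI, rfl⟩
        · rintro ⟨_, h⟩; exact h
      · intro a ha
        simpa using ha
    rw [this]
    exact_mod_cast hc v
  · rw [← Finset.sum_div]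
    congr 1
    rw [← Nat.cast_sum]
    congr 1
    rw [← Finset.card_univ (α := A),
      Finset.card_eq_sum_card_fiberwise (f := J) (t := (univ : Finset (Finset V)))]
    intro a _
    simp

open Classical in
/-- The fractional colourings form a non-empty set. -/
theorem fracChi_nonempty (H : SimpleGraph V) : {s : ℝ | ∃ w : Finset V → ℝ,
    (∀ I, 0 ≤ w I) ∧ (∀ I : Finset V, w I ≠ 0 → H.IsIndepSet (I : Set V)) ∧
    (∀ v, 1 ≤ ∑ I with v ∈ I, w I) ∧ ∑ I, w I = s}.Nonempty := by
  refine ⟨_, fun I => if H.IsIndepSet (I : Set V) then 1 else 0, fun I => ?_, fun I hI => ?_,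
    fun v => ?_, rfl⟩
  · change (0 : ℝ) ≤ if H.IsIndepSet (I : Set V) then 1 else 0
    split_ifs <;> norm_num
  · by_contra h
    simp [h] at hI
  · have h1 : (1 : ℝ) = if H.IsIndepSet (({v} : Finset V) : Set V) then 1 else 0 := by
      rw [if_pos]
      simp
    refine h1.le.trans ?_
    exact Finset.single_le_sum (f := fun I : Finset V =>
      if H.IsIndepSet (I : Set V) then (1 : ℝ) else 0) (s := {I : Finset V | v ∈ I})
      (a := {v}) (fun I _ => by
        change (0 : ℝ) ≤ if H.IsIndepSet (I : Set V) then 1 else 0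
        split_ifs <;> norm_num) (by rw [Finset.mem_filter]; exact ⟨Finset.mem_univ _, by simp⟩)

open Classical in
/-- The averaging lower bound. -/
theorem card_le_mul_fracChi (α : ℕ) (h : ∀ I : Finset V, H.IsIndepSet (I : Set V) → #I ≤ α) :
    (Fintype.card V : ℝ) ≤ α * fracChi H := by
  rcases Nat.eq_zero_or_pos α with rfl | hα
  · have : IsEmpty V := by
      by_contra hne
      rw [not_isEmpty_iff] at hne
      obtain ⟨v⟩ := hne
      have := h {v} (by simp)
      simp at this
    simp
  have hα' : (0 : ℝ) < α := by exact_mod_cast hα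
  rw [← div_le_iff₀' hα']
  refine le_csInf (fracChi_nonempty H) ?_
  rintro s ⟨w, h0, h1, h2, rfl⟩
  rw [div_le_iff₀' hα']
  calc (Fintype.card V : ℝ) = ∑ _v : V, (1 : ℝ) := by simp
    _ ≤ ∑ v : V, ∑ I with v ∈ I, w I := Finset.sum_le_sum fun v _ => h2 v
    _ = ∑ I : Finset V, ∑ v ∈ I, w I := by
      simp_rw [Finset.sum_filter]
      rw [Finset.sum_comm]
      refine Finset.sum_congr rfl fun I _ => ?_
      rw [← Finset.sum_filter]
      congr 1
      ext v
      simp
    _ ≤ ∑ I : Finset V, α * w I := by
      refine Finset.sum_le_sum fun I _ => ?_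
      rw [Finset.sum_const, nsmul_eq_mul]
      by_cases hI : w I = 0
      · simp [hI]
      · exact mul_le_mul_of_nonneg_right (by exact_mod_cast h I (h1 I hI)) (h0 I)
    _ = α * ∑ I, w I := by rw [Finset.mul_sum]

end frac

end Pool.Agent.H692R2
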