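import Pool.Agent.H692R2.Imp

/-!
# Upper and lower bounds for the imperfection ratio
-/

namespace Pool.Agent.H692R2

open Finset

variable {V : Type} [Fintype V]

open Classical in
/-- The copies of the vertices of a clique form a clique of the replicated graph. -/
theorem sum_le_cliqueNum (G : SimpleGraph V) (x : V → ℕ) (K : Finset V)
    (hK : G.IsClique (K : Set V)) : ∑ v ∈ K, x v ≤ (replicated G x).cliqueNum := by
  have h : (replicated G x).IsClique
      ((K.sigma fun v => (univ : Finset (Fin (x v)))) : Set (Σ v : V, Fin (x v))) := by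
    intro a ha b hb hab
    simp only [Finset.coe_sigma, Set.mem_sigma_iff, Finset.mem_coe] at ha hb
    by_cases h1 : a.1 = b.1
    · exact Or.inl ⟨h1, hab⟩
    · exact Or.inr (hK ha.1 hb.1 h1)
  have h2 := SimpleGraph.IsClique.card_le_cliqueNum (tc := h)
  rw [Finset.card_sigma] at h2
  simpa using h2

/-- A blow-up form of the upper bound: an indexed family of independent sets of `G` covering each
vertex `v` at least `q * x v` times bounds the fractional chromatic number of `G_x`. -/
theorem fracChi_replicated_le {A : Type} [Fintype A] (G : SimpleGraph V) (x : V → ℕ)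
    (J : A → Set V) (q : ℕ) (hq : 0 < q) (hJ : ∀ a, G.IsIndepSet (J a))
    (hc : ∀ v, ∃ s : Finset A, (∀ a ∈ s, v ∈ J a) ∧ q * x v ≤ #s) :
    fracChi (replicated G x) ≤ (Fintype.card A : ℝ) / q := by
  classical
  choose s hs hcard using hc
  have key : ∀ v, Nonempty ((Fin (x v) × Fin q) ↪ {a // a ∈ s v}) := fun v => by
    apply Function.Embedding.nonempty_of_card_le
    simp only [Fintype.card_prod, Fintype.card_fin, Fintype.card_coe]
    rw [mul_comm]
    exact hcard v
  let e : ∀ v, (Fin (x v) × Fin q) ↪ {a // a ∈ s v} := fun v => (key v).some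
  refine fracChi_le_of_family (A := A)
    (fun a => {p : Σ v : V, Fin (x v) | ∃ t, ((e p.1 (p.2, t)) : A) = a}) q hq ?_ ?_
  · intro a p hp r hr hpr
    simp only [Finset.coe_filter, Finset.mem_univ, true_and, Set.mem_setOf_eq] at hp hr
    obtain ⟨t, ht⟩ := hp
    obtain ⟨t', ht'⟩ := hr
    rintro (⟨h1, _⟩ | h1)
    · obtain ⟨v, i⟩ := p
      obtain ⟨v', j⟩ := r
      simp only at h1
      subst h1
      have := (e v).injective (Subtype.ext (ht.trans ht'.symm))
      simp only [Prod.mk.injEq] at this
      apply hpr
      rw [this.1]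
    · have h2 : p.1 ∈ J a := by rw [← ht]; exact hs _ _ (e p.1 (p.2, t)).2
      have h3 : r.1 ∈ J a := by rw [← ht']; exact hs _ _ (e r.1 (r.2, t')).2
      exact hJ a h2 h3 h1.ne h1
  · rintro ⟨v, i⟩
    have : #((univ : Finset (Fin q)).image fun t => ((e v (i, t)) : A)) = q := by
      rw [Finset.card_image_of_injective, Finset.card_univ, Fintype.card_fin]
      intro t t' h
      have := (e v).injective (Subtype.ext h)
      simpa using this
    refine this.symm.le.trans ?_
    apply Finset.card_le_card
    intro a ha
    simp only [Finset.mem_image, Finset.mem_univ, true_and] at ha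
    obtain ⟨t, rfl⟩ := ha
    simp

/-- The ratios in the definition of `imp G` are at most the number of vertices. -/
theorem ratio_le_card (G : SimpleGraph V) (x : V → ℕ) :
    fracChi (replicated G x) / (replicated G x).cliqueNum ≤ Fintype.card V := by
  classical
  have hle : ∀ v, x v ≤ (replicated G x).cliqueNum := fun v => by
    have := sum_le_cliqueNum G x {v} (by simp)
    simpa using this
  rcases Nat.eq_zero_or_pos (replicated G x).cliqueNum with h0 | h0
  · rw [h0]; simp
  rw [div_le_iff₀ (by exact_mod_cast h0)]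
  have h1 := fracChi_replicated_le (A := V × Fin (replicated G x).cliqueNum) G x
    (fun a => {a.1}) 1 one_pos (fun a => by simp)
    (fun v => ⟨({v} : Finset V) ×ˢ univ, by simp, by simpa using hle v⟩)
  refine h1.trans (le_of_eq ?_)
  simp

theorem imp_bddAbove (G : SimpleGraph V) : BddAbove {r : ℝ | ∃ x : V → ℕ, x ≠ 0 ∧
    r = fracChi (replicated G x) / (replicated G x).cliqueNum} :=
  ⟨Fintype.card V, by rintro r ⟨x, _, rfl⟩; exact ratio_le_card G x⟩

/-- **Upper bound.** A graph with a `(5:2)`-colouring has imperfection ratio at most `5/4`. -/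
theorem imp_le_of_five_two (G : SimpleGraph V) (c : V → Finset (Fin 5)) (hc2 : ∀ v, #(c v) = 2)
    (hc : ∀ u v, G.Adj u v → Disjoint (c u) (c v)) : imp G ≤ 5 / 4 := by
  classical
  unfold imp
  rcases isEmpty_or_nonempty V with hV | hV
  · convert (by norm_num : (0 : ℝ) ≤ 5 / 4)
    convert Real.sSup_empty
    rw [Set.eq_empty_iff_forall_notMem]
    rintro r ⟨x, hx, _⟩
    exact hx (Subsingleton.elim _ _)
  refine csSup_le ⟨_, fun _ => 1, fun h => by
    obtain ⟨v⟩ := hV
    simpa using congrFun h v, rfl⟩ ?_
  rintro r ⟨x, hx, rfl⟩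
  obtain ⟨v₀, hv₀⟩ : ∃ v, x v ≠ 0 := by
    by_contra h
    push Not at h
    exact hx (funext h)
  set W := (replicated G x).cliqueNum with hW
  have hle : ∀ v, x v ≤ W := fun v => by
    have := sum_le_cliqueNum G x {v} (by simp)
    simpa using this
  have hadj : ∀ u v, G.Adj u v → x u + x v ≤ W := fun u v huv => by
    have := sum_le_cliqueNum G x {u, v} (by
      intro a ha b hb hab
      simp only [Finset.coe_insert, Finset.coe_singleton, Set.mem_insert_iff,
        Set.mem_singleton_iff] at ha hb
      rcases ha with rfl | rfl <;> rcases hb with rfl | rfl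
      · exact absurd rfl hab
      · exact huv
      · exact huv.symm
      · exact absurd rfl hab)
    rwa [Finset.sum_pair huv.ne] at this
  have hWpos : 0 < W := lt_of_lt_of_le (Nat.pos_of_ne_zero hv₀) (hle v₀)
  rw [div_le_iff₀ (by exact_mod_cast hWpos)]
  have key := fracChi_replicated_le (A := Fin W × Fin 5) G x
    (fun a => {v | 2 * W ≤ 2 * x v + a.1 ∨ (a.1 < 2 * x v ∧ a.2 ∈ c v)}) 4 (by norm_num) ?_ ?_
  · refine key.trans (le_of_eq ?_)
    simp only [Fintype.card_prod, Fintype.card_fin, Nat.cast_mul, Nat.cast_ofNat]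
    ring
  · rintro ⟨j, k⟩ u hu v hv _ huv
    have h1 := hadj u v huv
    have hj := j.2
    simp only [Set.mem_setOf_eq] at hu hv
    rcases hu with hu | ⟨hu, hku⟩ <;> rcases hv with hv | ⟨hv, hkv⟩
    · omega
    · omega
    · omega
    · exact Finset.disjoint_left.1 (hc u v huv) hku hkv
  · intro v
    refine ⟨(({j : Fin W | 2 * W ≤ 2 * x v + j} : Finset (Fin W)) ×ˢ (univ : Finset (Fin 5))) ∪
      (({j : Fin W | ¬ (2 * W ≤ 2 * x v + j) ∧ (j : ℕ) < 2 * x v} : Finset (Fin W)) ×ˢ c v),
      ?_, ?_⟩
    · rintro ⟨j, k⟩ ha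
      simp only [Finset.mem_union, Finset.mem_product, Finset.mem_filter, Finset.mem_univ,
        true_and, and_true] at ha
      rcases ha with ha | ⟨⟨_, h⟩, hk⟩
      · exact Or.inl ha
      · exact Or.inr ⟨h, hk⟩
    · rw [Finset.card_union_of_disjoint]
      · rw [Finset.card_product, Finset.card_product, hc2, Finset.card_univ, Fintype.card_fin]
        have hxW := hle v
        have e1 : #{j : Fin W | 2 * W ≤ 2 * x v + j} = 2 * x v - W := by
          have : ({j : Fin W | 2 * W ≤ 2 * x v + j} : Finset (Fin W)).map Fin.valEmbedding =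
              Finset.Ico (2 * W - 2 * x v) W := by
            ext m
            simp only [Finset.mem_map, Finset.mem_filter, Finset.mem_univ, true_and,
              Fin.valEmbedding_apply, Finset.mem_Ico]
            constructor
            · rintro ⟨j, hj, rfl⟩
              have := j.2
              omega
            · rintro ⟨h1, h2⟩
              exact ⟨⟨m, h2⟩, by simp only; omega, rfl⟩
          rw [← Finset.card_map Fin.valEmbedding, this, Nat.card_Ico]
          omega
        have e2 : #{j : Fin W | ¬ (2 * W ≤ 2 * x v + j) ∧ (j : ℕ) < 2 * x v} =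
            min (2 * x v) (2 * W - 2 * x v) := by
          have : ({j : Fin W | ¬ (2 * W ≤ 2 * x v + j) ∧ (j : ℕ) < 2 * x v} :
              Finset (Fin W)).map Fin.valEmbedding =
              Finset.range (min (min (2 * x v) (2 * W - 2 * x v)) W) := by
            ext m
            simp only [Finset.mem_map, Finset.mem_filter, Finset.mem_univ, true_and,
              Fin.valEmbedding_apply, Finset.mem_range]
            constructor
            · rintro ⟨j, hj, rfl⟩
              have := j.2
              omega
            · intro h1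
              exact ⟨⟨m, by omega⟩, by simp only; omega, rfl⟩
          rw [← Finset.card_map Fin.valEmbedding, this, Finset.card_range]
          omega
        rw [e1, e2]
        omega
      · rw [Finset.disjoint_left]
        rintro ⟨j, k⟩ h1 h2
        simp only [Finset.mem_product, Finset.mem_filter, Finset.mem_univ, true_and,
          and_true] at h1 h2
        exact h2.1.1 h1

/-- **Lower bound.** If a triangle-free graph on `5 * n > 0` vertices has imperfection ratio at
most `5/4`, then it has an independent set with at least `2 * n` vertices. -/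
theorem exists_indep_of_imp_le (G : SimpleGraph V) (hG : G.CliqueFree 3) (n : ℕ) (hn : 0 < n)
    (hcard : Fintype.card V = 5 * n) (himp : imp G ≤ 5 / 4) :
    ∃ I : Finset V, G.IsIndepSet (I : Set V) ∧ 2 * n ≤ #I := by
  classical
  by_contra hno
  push Not at hno
  have hV : Nonempty V := Fintype.card_pos_iff.1 (by omega)
  have h1 : fracChi (replicated G fun _ => 1) / (replicated G fun _ => 1).cliqueNum ≤ 5 / 4 := by
    refine le_trans (le_csSup (imp_bddAbove G) ⟨fun _ => 1, fun h => ?_, rfl⟩) himp
    obtain ⟨v⟩ := hV
    simpa using congrFun h v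
  have hfst : ∀ a b : Σ _ : V, Fin 1, a.1 = b.1 → a = b := by
    rintro ⟨a, i⟩ ⟨b, j⟩ h
    simp only at h
    subst h
    rw [Subsingleton.elim i j]
  have hω : (replicated G fun _ => 1).cliqueNum ≤ 2 := by
    obtain ⟨s, hs⟩ := (replicated G fun _ => 1).exists_isNClique_cliqueNum
    by_contra hlt
    push Not at hlt
    have hinj : Set.InjOn (fun a : Σ _ : V, Fin 1 => a.1) (s : Set (Σ _ : V, Fin 1)) :=
      fun a _ b _ h => hfst a b h
    have h3 : G.IsNClique (replicated G fun _ => 1).cliqueNum (s.image Sigma.fst) := by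
      refine ⟨?_, by rw [Finset.card_image_of_injOn hinj]; exact hs.2⟩
      intro a ha b hb hab
      simp only [Finset.coe_image, Set.mem_image, Finset.mem_coe] at ha hb
      obtain ⟨a', ha', rfl⟩ := ha
      obtain ⟨b', hb', rfl⟩ := hb
      rcases hs.1 ha' hb' (fun h => hab (by rw [h])) with ⟨h, _⟩ | h
      · exact absurd h hab
      · exact h
    exact (hG.mono hlt) _ h3
  have hω0 : 0 < (replicated G fun _ => 1).cliqueNum := by
    obtain ⟨v⟩ := hV
    have := sum_le_cliqueNum G (fun _ => 1) {v} (by simp)
    simp only [Finset.sum_singleton] at this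
    exact this
  rw [div_le_iff₀ (by exact_mod_cast hω0)] at h1
  have h2 : fracChi (replicated G fun _ => 1) ≤ 5 / 2 := by
    have : ((replicated G fun _ => 1).cliqueNum : ℝ) ≤ 2 := by exact_mod_cast hω
    linarith
  have h3 := card_le_mul_fracChi (H := replicated G fun _ => 1) (2 * n - 1) (by
    intro I hI
    have hinj : Set.InjOn (fun a : Σ _ : V, Fin 1 => a.1) (I : Set (Σ _ : V, Fin 1)) :=
      fun a _ b _ h => hfst a b h
    have h4 := hno (I.image Sigma.fst) (by
      intro a ha b hb hab hadj
      simp only [Finset.coe_image, Set.mem_image, Finset.mem_coe] at ha hb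
      obtain ⟨a', ha', rfl⟩ := ha
      obtain ⟨b', hb', rfl⟩ := hb
      exact hI ha' hb' (fun h => hab (by rw [h])) (Or.inr hadj))
    rw [Finset.card_image_of_injOn hinj] at h4
    omega)
  have h5 : Fintype.card (Σ _ : V, Fin 1) = 5 * n := by simp [hcard]
  rw [h5] at h3
  have h6 : ((2 * n - 1 : ℕ) : ℝ) = 2 * n - 1 := by
    rw [Nat.cast_sub (by omega)]
    push_cast
    ring
  rw [h6] at h3
  push_cast at h3
  have h7 : (1 : ℝ) ≤ n := by exact_mod_cast hn
  nlinarith

end Pool.Agent.H692R2
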