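import Pool.Agent.H692R2.ImpRed

/-!
# Correctness of the reduction from 5-colourability to `imp ≤ 5/4`
-/

namespace Pool.Agent.H692R2

open Pool.Agent.NPC

/-- Adjacency in the 5-cycle. -/
def C5 (x y : Fin 5) : Prop := y = x + 1 ∨ x = y + 1

instance : DecidableRel C5 := fun _ _ => inferInstanceAs (Decidable (_ ∨ _))

/-- First inner vertex of a path of length three in the 5-cycle. -/
def f1 (a b : Fin 5) : Fin 5 :=
  if b = a + 1 then a + 1 else if b = a + 2 then a + 4 else if b = a + 3 then a + 1 else a + 4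

/-- Second inner vertex of a path of length three in the 5-cycle. -/
def f2 (a b : Fin 5) : Fin 5 :=
  if b = a + 1 then a else if b = a + 2 then a + 3 else if b = a + 3 then a + 2 else a

theorem path_ok : ∀ a b : Fin 5, a ≠ b → C5 a (f1 a b) ∧ C5 (f1 a b) (f2 a b) ∧ C5 (f2 a b) b := by
  decide

theorem walk3_ne : ∀ x y z w : Fin 5, C5 x y → C5 y z → C5 z w → x ≠ w := by decide

theorem C5_symm : ∀ x y : Fin 5, C5 x y → C5 y x := fun _ _ h => Or.symm h

theorem pair_disj : ∀ x y : Fin 5, C5 x y →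
    Disjoint ({x, x + 3} : Finset (Fin 5)) ({y, y + 3} : Finset (Fin 5)) := by decide

theorem pair_card : ∀ x : Fin 5, ({x, x + 3} : Finset (Fin 5)).card = 2 := by decide

/-- `m` modulo 5. -/
def md (m : ℕ) : Fin 5 := ⟨m % 5, Nat.mod_lt _ (by norm_num)⟩

theorem md_succ {m m' : ℕ} (h : m' % 5 = (m % 5 + 1) % 5) : md m' = md m + 1 := by
  apply Fin.ext
  rw [Fin.val_add]
  simpa [md] using h

theorem C5_sub : ∀ a b x y : Fin 5, (b = a + 1 ∨ a = b + 1) ∧ x = y ∨ a = b ∧ C5 x y →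
    C5 (a - x) (b - y) := by decide +kernel

/-- The homomorphism of the subdivided graph to the 5-cycle. -/
def hh (E : List (ℕ × ℕ)) (c : ℕ → Fin 5) (a : Lab) : Fin 5 :=
  if a.1 = 0 then c a.2 else
    match E[a.2]? with
    | none => 0
    | some e => if a.1 = 1 then f1 (c e.1) (c e.2) else f2 (c e.1) (c e.2)

theorem hh_adj {E : List (ℕ × ℕ)} {c : ℕ → Fin 5} (hc : ∀ e ∈ E, c e.1 ≠ c e.2) {a b : Lab}
    (h : sadj E a b) : C5 (hh E c a) (hh E c b) := by
  have key : ∀ a b : Lab, (a, b) ∈ subE E → C5 (hh E c a) (hh E c b) := by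
    intro a b h
    rw [mem_subE] at h
    obtain ⟨i, e, hi, h⟩ := h
    have h3 := path_ok _ _ (hc e (List.mem_of_getElem? hi))
    rcases h with ⟨rfl, rfl⟩ | ⟨rfl, rfl⟩ | ⟨rfl, rfl⟩ <;> simp [hh, hi, h3]
  rcases h with h | h
  · exact key _ _ h
  · exact C5_symm _ _ (key _ _ h)

theorem imp_le_of_col {E : List (ℕ × ℕ)} (h : Col 5 E) : imp (impG E) ≤ 5 / 4 := by
  obtain ⟨c, hc⟩ := h
  refine imp_le_of_five_two (impG E)
    (fun m => {md m - hh E c (lab E m), md m - hh E c (lab E m) + 3}) (fun _ => pair_card _) ?_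
  intro m m' hmm
  apply pair_disj
  apply C5_sub
  rcases hmm with ⟨h1, h2⟩ | ⟨h1, h2⟩
  · exact Or.inl ⟨h2.imp md_succ md_succ, by rw [h1]⟩
  · exact Or.inr ⟨Fin.ext h1, hh_adj hc h2⟩

theorem impG_cliqueFree {E : List (ℕ × ℕ)} (hE : Loopless E) : (impG E).CliqueFree 3 := by
  classical
  intro s hs
  rw [SimpleGraph.is3Clique_iff] at hs
  obtain ⟨a, b, c, hab, hac, hbc, rfl⟩ := hs
  rcases hab with ⟨h1, h1'⟩ | ⟨h1, h1'⟩
  · rcases hac with ⟨h2, h2'⟩ | ⟨h2, h2'⟩
    · rcases hbc with ⟨h3, h3'⟩ | ⟨h3, h3'⟩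
      · omega
      · exact (sadj_tag h3').1 (congrArg Prod.fst (h1.symm.trans h2))
    · rcases hbc with ⟨h3, h3'⟩ | ⟨h3, h3'⟩
      · exact (sadj_tag h2').1 (congrArg Prod.fst (h1.trans h3))
      · omega
  · rcases hac with ⟨h2, h2'⟩ | ⟨h2, h2'⟩
    · rcases hbc with ⟨h3, h3'⟩ | ⟨h3, h3'⟩
      · exact (sadj_tag h1').1 (congrArg Prod.fst (h2.trans h3.symm))
      · omega
    · rcases hbc with ⟨h3, h3'⟩ | ⟨h3, h3'⟩
      · omega
      · exact sub_triangle hE h1' h3' h2'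

theorem small_indep : ∀ A : Finset (Fin 5), (∀ x ∈ A, x + 1 ∉ A) → A.card ≤ 2 := by
  decide +kernel

/-- The centre of a maximum independent set of the 5-cycle. -/
def kap (A : Finset (Fin 5)) : Fin 5 :=
  if 0 ∈ A ∧ 2 ∈ A then 0 else if 1 ∈ A ∧ 3 ∈ A then 1 else if 2 ∈ A ∧ 4 ∈ A then 2
  else if 3 ∈ A ∧ 0 ∈ A then 3 else 4

theorem kap_adj : ∀ A B : Finset (Fin 5), ((∀ x ∈ A, x + 1 ∉ A) ∧ A.card = 2 ∧
    (∀ x ∈ B, x + 1 ∉ B) ∧ B.card = 2 ∧ Disjoint A B) → C5 (kap A) (kap B) := by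
  decide +kernel

theorem col_of_imp_le {E : List (ℕ × ℕ)} (hE : Loopless E) (h : imp (impG E) ≤ 5 / 4) :
    Col 5 E := by
  classical
  rcases Nat.eq_zero_or_pos (subV E).length with h0 | hn
  · refine ⟨fun _ => 0, fun e he => ?_⟩
    exfalso
    obtain ⟨i, hi, rfl⟩ := List.getElem_of_mem he
    have := (mem_subV (E := E) (List.getElem?_eq_getElem hi)).1
    rw [List.length_eq_zero_iff.1 h0] at this
    simp at this
  set n := (subV E).length with hn'
  obtain ⟨I, hI, hcard⟩ := exists_indep_of_imp_le (impG E) (impG_cliqueFree hE) n hn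
    (by rw [Fintype.card_fin]; exact mul_comm _ _) h
  let A : Fin n → Finset (Fin 5) := fun p =>
    Finset.univ.filter fun i => (finProdFinEquiv (p, i) : Fin (n * 5)) ∈ I
  have hval : ∀ (p : Fin n) (i : Fin 5), ((finProdFinEquiv (p, i) : Fin (n * 5)) : ℕ) =
      i + 5 * p := fun p i => rfl
  have hlab : ∀ (p : Fin n) (i : Fin 5),
      lab E ((finProdFinEquiv (p, i) : Fin (n * 5)) : ℕ) = (subV E)[(p : ℕ)]'p.2 := by
    intro p i
    rw [hval]
    unfold lab
    have : ((i : ℕ) + 5 * p) / 5 = p := by omega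
    rw [this, List.getD_eq_getElem _ _ p.2]
  have hmod : ∀ (p : Fin n) (i : Fin 5),
      ((finProdFinEquiv (p, i) : Fin (n * 5)) : ℕ) % 5 = i := by
    intro p i
    rw [hval]
    omega
  have hAind : ∀ p, ∀ x ∈ A p, x + 1 ∉ A p := by
    intro p x hx hx1
    simp only [A, Finset.mem_filter, Finset.mem_univ, true_and] at hx hx1
    have hadj : (impG E).Adj (finProdFinEquiv (p, x)) (finProdFinEquiv (p, x + 1)) := by
      refine Or.inl ⟨by rw [hlab, hlab], Or.inl ?_⟩
      rw [hmod, hmod, Fin.val_add]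
      rfl
    exact hI hx hx1 hadj.ne hadj
  have hsum : I.card = ∑ p, (A p).card := by
    have h1 : I.card = (Finset.univ.filter fun q : Fin n × Fin 5 =>
        (finProdFinEquiv q : Fin (n * 5)) ∈ I).card := by
      rw [← Finset.card_map finProdFinEquiv.toEmbedding]
      congr 1
      ext m
      simp only [Finset.mem_map, Finset.mem_filter, Finset.mem_univ, true_and,
        Equiv.coe_toEmbedding]
      constructor
      · intro hm
        refine ⟨finProdFinEquiv.symm m, ?_, finProdFinEquiv.apply_symm_apply m⟩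
        rw [finProdFinEquiv.apply_symm_apply m]
        exact hm
      · rintro ⟨q, hq, rfl⟩
        exact hq
    rw [h1, Finset.card_eq_sum_card_fiberwise (f := Prod.fst) (t := Finset.univ)
      (fun _ _ => Finset.mem_coe.2 (Finset.mem_univ _))]
    refine Finset.sum_congr rfl fun p _ => ?_
    rw [← Finset.card_map ⟨fun i : Fin 5 => (p, i), fun i j hij => (Prod.mk.inj hij).2⟩]
    congr 1
    ext ⟨q, i⟩
    simp only [Finset.mem_filter, Finset.mem_univ, true_and, Finset.mem_map, A,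
      Function.Embedding.coeFn_mk, Prod.mk.injEq]
    constructor
    · rintro ⟨h1, rfl⟩
      exact ⟨i, h1, rfl, rfl⟩
    · rintro ⟨j, h1, rfl, rfl⟩
      exact ⟨h1, rfl⟩
  have hA2 : ∀ p, (A p).card = 2 := by
    intro p
    have hle : ∀ p ∈ (Finset.univ : Finset (Fin n)), (A p).card ≤ 2 := fun p _ =>
      small_indep _ (hAind p)
    have heq : ∑ p : Fin n, (A p).card = ∑ _p : Fin n, 2 := by
      apply le_antisymm (Finset.sum_le_sum hle)
      rw [Finset.sum_const, Finset.card_univ, Fintype.card_fin, smul_eq_mul]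
      omega
    exact (Finset.sum_eq_sum_iff_of_le hle).1 heq p (Finset.mem_univ p)
  have hpos : ∀ a ∈ subV E, ∃ p : Fin n, (subV E)[(p : ℕ)]'p.2 = a := by
    intro a ha
    obtain ⟨i, hi, hia⟩ := List.getElem_of_mem ha
    exact ⟨⟨i, hi⟩, hia⟩
  have hstep : ∀ p q : Fin n, sadj E ((subV E)[(p : ℕ)]'p.2) ((subV E)[(q : ℕ)]'q.2) →
      C5 (kap (A p)) (kap (A q)) := by
    intro p q hpq
    refine kap_adj _ _ ⟨hAind p, hA2 p, hAind q, hA2 q, ?_⟩
    rw [Finset.disjoint_left]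
    intro i hi hi'
    simp only [A, Finset.mem_filter, Finset.mem_univ, true_and] at hi hi'
    have hadj : (impG E).Adj (finProdFinEquiv (p, i)) (finProdFinEquiv (q, i)) := by
      refine Or.inr ⟨by rw [hmod, hmod], ?_⟩
      rw [hlab, hlab]
      exact hpq
    exact hI hi hi' hadj.ne hadj
  refine ⟨fun u => if hu : (0, u) ∈ subV E then kap (A (hpos _ hu).choose) else 0, fun e he => ?_⟩
  obtain ⟨i, hi, hie⟩ := List.getElem_of_mem he
  have hi' : E[i]? = some e := by rw [List.getElem?_eq_getElem hi, hie]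
  obtain ⟨m0, m1, m2, m3⟩ := mem_subV hi'
  simp only [dif_pos m0, dif_pos m3]
  obtain ⟨p1, hp1⟩ := hpos _ m1
  obtain ⟨p2, hp2⟩ := hpos _ m2
  have q0 := (hpos _ m0).choose_spec
  have q3 := (hpos _ m3).choose_spec
  refine walk3_ne _ _ _ _ (hstep _ p1 ?_) (hstep p1 p2 ?_) (hstep p2 _ ?_)
  · rw [q0, hp1]
    exact Or.inl (mem_subE.2 ⟨i, e, hi', Or.inl ⟨rfl, rfl⟩⟩)
  · rw [hp1, hp2]
    exact Or.inl (mem_subE.2 ⟨i, e, hi', Or.inr (Or.inl ⟨rfl, rfl⟩)⟩)
  · rw [q3, hp2]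
    exact Or.inl (mem_subE.2 ⟨i, e, hi', Or.inr (Or.inr ⟨rfl, rfl⟩)⟩)

/-- Deciding whether the imperfection ratio is at most `5/4` is hard. -/
theorem hard_imp : HardI (fun G : FinGraph => imp G.graph ≤ 5 / 4) :=
  HardPr.toHardI (HardPr.trans (Pr' := fun _ => True) (hardPr_col 5 (by norm_num)) impRed_poly
    (fun _ _ => trivial) (fun _ hE => ⟨imp_le_of_col, col_of_imp_le hE⟩))

end Pool.Agent.H692R2
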