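import Pool.Agent.H692R2.Col
import Pool.Agent.H692R2.Imp2
import Pool.Agent.H692R2.FinGraph

/-!
# The reduction from 5-colourability to `imp ≤ 5/4`

The edges of the given graph are subdivided three times, and the result is multiplied (Cartesian
product) by a 5-cycle.
-/

namespace Pool.Agent.H692R2

open Pool.Agent.NPC

/-- Vertices of the subdivided graph: `(0, u)` is the old vertex `u`, and `(1, i)`, `(2, i)` are
the two new vertices on the `i`-th edge. -/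
abbrev Lab : Type := ℕ × ℕ

/-- The edges of the subdivided graph. -/
def subE (E : List (ℕ × ℕ)) : List (Lab × Lab) :=
  E.zipIdx.flatMap (fun p => [((0, p.1.1), (1, p.2)), ((1, p.2), (2, p.2)), ((2, p.2), (0, p.1.2))])

/-- The vertices of the subdivided graph. -/
def subV (E : List (ℕ × ℕ)) : List Lab :=
  E.zipIdx.flatMap (fun p => [(0, p.1.1), (1, p.2), (2, p.2), (0, p.1.2)])

/-- The vertex of the subdivided graph in whose fibre the number `m` lies. -/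
def lab (E : List (ℕ × ℕ)) (m : ℕ) : Lab := (subV E).getD (m / 5) (0, 0)

/-- The adjacency relation of the Cartesian product with a 5-cycle. -/
def adjB (E : List (ℕ × ℕ)) (m m' : ℕ) : Bool :=
  decide ((lab E m = lab E m' ∧ (m' % 5 = (m % 5 + 1) % 5 ∨ m % 5 = (m' % 5 + 1) % 5)) ∨
    (m % 5 = m' % 5 ∧ ((lab E m, lab E m') ∈ subE E ∨ (lab E m', lab E m) ∈ subE E)))

theorem mem_subE {E : List (ℕ × ℕ)} {a b : Lab} : (a, b) ∈ subE E ↔ ∃ i e, E[i]? = some e ∧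
    ((a = (0, e.1) ∧ b = (1, i)) ∨ (a = (1, i) ∧ b = (2, i)) ∨ (a = (2, i) ∧ b = (0, e.2))) := by
  unfold subE
  simp only [List.mem_flatMap, List.mem_cons, Prod.mk.injEq, List.not_mem_nil, or_false]
  constructor
  · rintro ⟨⟨e, i⟩, hp, h⟩
    rw [List.mem_zipIdx_iff_getElem?] at hp
    exact ⟨i, e, hp, h⟩
  · rintro ⟨i, e, hp, h⟩
    exact ⟨(e, i), List.mem_zipIdx_iff_getElem?.2 hp, h⟩

theorem mem_subV {E : List (ℕ × ℕ)} {i : ℕ} {e : ℕ × ℕ} (h : E[i]? = some e) :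
    (0, e.1) ∈ subV E ∧ (1, i) ∈ subV E ∧ (2, i) ∈ subV E ∧ (0, e.2) ∈ subV E := by
  unfold subV
  simp only [List.mem_flatMap]
  have hp : (e, i) ∈ E.zipIdx := List.mem_zipIdx_iff_getElem?.2 h
  exact ⟨⟨(e, i), hp, by simp⟩, ⟨(e, i), hp, by simp⟩, ⟨(e, i), hp, by simp⟩,
    ⟨(e, i), hp, by simp⟩⟩

theorem ne_of_mem_subE {E : List (ℕ × ℕ)} {a b : Lab} (h : (a, b) ∈ subE E) : a ≠ b := by
  rw [mem_subE] at h
  obtain ⟨i, e, _, ⟨rfl, rfl⟩ | ⟨rfl, rfl⟩ | ⟨rfl, rfl⟩⟩ := h <;> simp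

/-- The adjacency relation in propositional form. -/
def AdjP (E : List (ℕ × ℕ)) (m m' : ℕ) : Prop :=
  (lab E m = lab E m' ∧ (m' % 5 = (m % 5 + 1) % 5 ∨ m % 5 = (m' % 5 + 1) % 5)) ∨
    (m % 5 = m' % 5 ∧ ((lab E m, lab E m') ∈ subE E ∨ (lab E m', lab E m) ∈ subE E))

theorem adjB_iff (E : List (ℕ × ℕ)) (m m' : ℕ) : adjB E m m' = true ↔ AdjP E m m' := by
  unfold adjB AdjP
  rw [decide_eq_true_iff]

/-- The constructed graph. -/
def impG (E : List (ℕ × ℕ)) : SimpleGraph (Fin ((subV E).length * 5)) where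
  Adj i j := AdjP E i j
  symm := ⟨by
    rintro i j (⟨h1, h2⟩ | ⟨h1, h2⟩)
    · exact Or.inl ⟨h1.symm, h2.symm⟩
    · exact Or.inr ⟨h1.symm, h2.symm⟩⟩
  loopless := ⟨by
    rintro i (⟨_, h | h⟩ | ⟨_, h | h⟩)
    · omega
    · omega
    · exact ne_of_mem_subE h rfl
    · exact ne_of_mem_subE h rfl⟩

/-- The reduction function. -/
def impRed (E : List (ℕ × ℕ)) : FinGraph := ⟨(subV E).length * 5, impG E⟩

theorem impRed_poly : Poly impRed := by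
  have hE : NPC.Poly (fun E : List (ℕ × ℕ) => subE E) := by
    unfold subE
    refine NPC.Poly.flatMap (NPC.Poly.zipIdx NPC.Poly.id) ?_
    have h1 : NPC.Poly (fun p : List (ℕ × ℕ) × (ℕ × ℕ) × ℕ => p.2.1.1) :=
      NPC.Poly.fst (NPC.Poly.fst (NPC.Poly.snd NPC.Poly.id))
    have h2 : NPC.Poly (fun p : List (ℕ × ℕ) × (ℕ × ℕ) × ℕ => p.2.1.2) :=
      NPC.Poly.snd (NPC.Poly.fst (NPC.Poly.snd NPC.Poly.id))
    have h3 : NPC.Poly (fun p : List (ℕ × ℕ) × (ℕ × ℕ) × ℕ => p.2.2) :=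
      NPC.Poly.snd (NPC.Poly.snd NPC.Poly.id)
    have hc : ∀ k : ℕ, NPC.Poly (fun _ : List (ℕ × ℕ) × (ℕ × ℕ) × ℕ => k) := fun k =>
      NPC.Poly.const k
    exact NPC.Poly.cons (NPC.Poly.pair (NPC.Poly.pair (hc 0) h1) (NPC.Poly.pair (hc 1) h3))
      (NPC.Poly.cons (NPC.Poly.pair (NPC.Poly.pair (hc 1) h3) (NPC.Poly.pair (hc 2) h3))
      (NPC.Poly.cons (NPC.Poly.pair (NPC.Poly.pair (hc 2) h3) (NPC.Poly.pair (hc 0) h2))
      (NPC.Poly.const [])))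
  have hV : NPC.Poly (fun E : List (ℕ × ℕ) => subV E) := by
    unfold subV
    refine NPC.Poly.flatMap (NPC.Poly.zipIdx NPC.Poly.id) ?_
    have h1 : NPC.Poly (fun p : List (ℕ × ℕ) × (ℕ × ℕ) × ℕ => p.2.1.1) :=
      NPC.Poly.fst (NPC.Poly.fst (NPC.Poly.snd NPC.Poly.id))
    have h2 : NPC.Poly (fun p : List (ℕ × ℕ) × (ℕ × ℕ) × ℕ => p.2.1.2) :=
      NPC.Poly.snd (NPC.Poly.fst (NPC.Poly.snd NPC.Poly.id))
    have h3 : NPC.Poly (fun p : List (ℕ × ℕ) × (ℕ × ℕ) × ℕ => p.2.2) :=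
      NPC.Poly.snd (NPC.Poly.snd NPC.Poly.id)
    have hc : ∀ k : ℕ, NPC.Poly (fun _ : List (ℕ × ℕ) × (ℕ × ℕ) × ℕ => k) := fun k =>
      NPC.Poly.const k
    exact NPC.Poly.cons (NPC.Poly.pair (hc 0) h1) (NPC.Poly.cons (NPC.Poly.pair (hc 1) h3)
      (NPC.Poly.cons (NPC.Poly.pair (hc 2) h3) (NPC.Poly.cons (NPC.Poly.pair (hc 0) h2)
      (NPC.Poly.const []))))
  refine poly_finGraph (N := fun E => (subV E).length * 5) (b := adjB)
    (G := fun E => impG E) (UPoly.mul (UPoly.length hV) (UPoly.const 5)) ?_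
    (fun E i j => (adjB_iff E i j).symm)
  unfold adjB
  have hE' : NPC.Poly (fun p : (List (ℕ × ℕ) × ℕ) × ℕ => subE p.1.1) :=
    hE.comp (NPC.Poly.fst (NPC.Poly.fst NPC.Poly.id))
  have hV' : NPC.Poly (fun p : (List (ℕ × ℕ) × ℕ) × ℕ => subV p.1.1) :=
    hV.comp (NPC.Poly.fst (NPC.Poly.fst NPC.Poly.id))
  have hm : NPC.Poly (fun p : (List (ℕ × ℕ) × ℕ) × ℕ => p.1.2) :=
    NPC.Poly.snd (NPC.Poly.fst NPC.Poly.id)
  have hm' : NPC.Poly (fun p : (List (ℕ × ℕ) × ℕ) × ℕ => p.2) := NPC.Poly.snd NPC.Poly.id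
  have hlab : ∀ {f : (List (ℕ × ℕ) × ℕ) × ℕ → ℕ}, NPC.Poly f →
      NPC.Poly (fun p => lab p.1.1 (f p)) := by
    intro f hf
    unfold lab
    exact NPC.Poly.getD hV' (NPC.Poly.div hf (NPC.Poly.const 5)) (NPC.Poly.const (0, 0))
  have hmod : ∀ {f : (List (ℕ × ℕ) × ℕ) × ℕ → ℕ}, NPC.Poly f →
      NPC.Poly (fun p => f p % 5) := fun hf => NPC.Poly.mod hf (NPC.Poly.const 5)
  have hsucc : ∀ {f : (List (ℕ × ℕ) × ℕ) × ℕ → ℕ}, NPC.Poly f →
      NPC.Poly (fun p => (f p % 5 + 1) % 5) := fun hf =>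
    NPC.Poly.mod (NPC.Poly.succ (hmod hf)) (NPC.Poly.const 5)
  refine NPC.Poly.decide_or (NPC.Poly.decide_and (NPC.Poly.decide_eq (hlab hm) (hlab hm'))
    (NPC.Poly.decide_or (NPC.Poly.decide_eq (hmod hm') (hsucc hm))
      (NPC.Poly.decide_eq (hmod hm) (hsucc hm')))) (NPC.Poly.decide_and
    (NPC.Poly.decide_eq (hmod hm) (hmod hm')) (NPC.Poly.decide_or
      ((NPC.Poly.decide_mem (NPC.Poly.pair (hlab hm) (hlab hm')) hE').congr fun _ => by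
        congr)
      ((NPC.Poly.decide_mem (NPC.Poly.pair (hlab hm') (hlab hm)) hE').congr fun _ => by
        congr)))

/-- Adjacency in the subdivided graph. -/
def sadj (E : List (ℕ × ℕ)) (a b : Lab) : Prop := (a, b) ∈ subE E ∨ (b, a) ∈ subE E

theorem sadj_symm {E : List (ℕ × ℕ)} {a b : Lab} (h : sadj E a b) : sadj E b a := Or.symm h

theorem sadj_tag {E : List (ℕ × ℕ)} {a b : Lab} (h : sadj E a b) :
    a.1 ≠ b.1 ∧ a.1 ≤ 2 ∧ b.1 ≤ 2 := by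
  unfold sadj at h
  rw [mem_subE, mem_subE] at h
  rcases h with ⟨i, e, _, ⟨rfl, rfl⟩ | ⟨rfl, rfl⟩ | ⟨rfl, rfl⟩⟩ |
    ⟨i, e, _, ⟨rfl, rfl⟩ | ⟨rfl, rfl⟩ | ⟨rfl, rfl⟩⟩ <;> simp

theorem sadj_one {E : List (ℕ × ℕ)} {i : ℕ} {b : Lab} (h : sadj E (1, i) b) :
    ∃ e, E[i]? = some e ∧ (b = (0, e.1) ∨ b = (2, i)) := by
  unfold sadj at h
  rw [mem_subE, mem_subE] at h
  rcases h with ⟨j, e, hj, ⟨h1, h2⟩ | ⟨h1, h2⟩ | ⟨h1, h2⟩⟩ |
    ⟨j, e, hj, ⟨h2, h1⟩ | ⟨h2, h1⟩ | ⟨h2, h1⟩⟩ <;> simp only [Prod.mk.injEq] at h1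
  · omega
  · obtain ⟨_, rfl⟩ := h1
    exact ⟨e, hj, Or.inr h2⟩
  · omega
  · obtain ⟨_, rfl⟩ := h1
    exact ⟨e, hj, Or.inl h2⟩
  · omega
  · omega

theorem sadj_two {E : List (ℕ × ℕ)} {i : ℕ} {b : Lab} (h : sadj E (2, i) b) :
    ∃ e, E[i]? = some e ∧ (b = (1, i) ∨ b = (0, e.2)) := by
  unfold sadj at h
  rw [mem_subE, mem_subE] at h
  rcases h with ⟨j, e, hj, ⟨h1, h2⟩ | ⟨h1, h2⟩ | ⟨h1, h2⟩⟩ |
    ⟨j, e, hj, ⟨h2, h1⟩ | ⟨h2, h1⟩ | ⟨h2, h1⟩⟩ <;> simp only [Prod.mk.injEq] at h1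
  · omega
  · omega
  · obtain ⟨_, rfl⟩ := h1
    exact ⟨e, hj, Or.inr h2⟩
  · omega
  · obtain ⟨_, rfl⟩ := h1
    exact ⟨e, hj, Or.inl h2⟩
  · omega

/-- The subdivided graph of a loopless graph has no triangle. -/
theorem sub_triangle {E : List (ℕ × ℕ)} (hE : Loopless E) {a b c : Lab}
    (hab : sadj E a b) (hbc : sadj E b c) (hac : sadj E a c) : False := by
  have core : ∀ a b c : Lab, a.1 = 1 → sadj E a b → sadj E b c → sadj E a c → False := by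
    rintro ⟨_, i⟩ b c rfl hab hbc hac
    obtain ⟨e, he, hb⟩ := sadj_one hab
    obtain ⟨e', he', hc⟩ := sadj_one hac
    rw [he] at he'
    obtain rfl := Option.some.inj he'
    have hne := hE e (List.mem_of_getElem? he)
    have key : sadj E (2, i) (0, e.1) → False := fun h => by
      obtain ⟨f, hf, h⟩ := sadj_two h
      rw [he] at hf
      obtain rfl := Option.some.inj hf
      rcases h with h | h <;> simp only [Prod.mk.injEq] at h <;> omega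
    rcases hb with rfl | rfl <;> rcases hc with rfl | rfl
    · exact (sadj_tag hbc).1 rfl
    · exact key (sadj_symm hbc)
    · exact key hbc
    · exact (sadj_tag hbc).1 rfl
  have h1 := sadj_tag hab
  have h2 := sadj_tag hbc
  have h3 := sadj_tag hac
  have : a.1 = 1 ∨ b.1 = 1 ∨ c.1 = 1 := by omega
  rcases this with h | h | h
  · exact core a b c h hab hbc hac
  · exact core b a c h (sadj_symm hab) hac hbc
  · exact core c a b h (sadj_symm hac) hab (sadj_symm hbc)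

end Pool.Agent.H692R2
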